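import Mathlib

/-!
Power series with `f(x) = w(x) f(x^b)`.
-/

namespace Pool.Agent.Q35

open PowerSeries

variable {R : Type*} [CommRing R]

/-- substitution of `X ^ b` for `X` -/
noncomputable def E (b : ℕ) [NeZero b] : PowerSeries R →ₐ[R] PowerSeries R :=
  expand b (NeZero.ne b)

theorem coeff_E (b : ℕ) [NeZero b] (f : PowerSeries R) (n : ℕ) :
    coeff n (E b f) = if b ∣ n then coeff (n / b) f else 0 := by
  unfold E
  rw [coeff_expand]

theorem E_X (b : ℕ) [NeZero b] : E b (X : PowerSeries R) = X ^ b := by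
  unfold E
  rw [expand_X]

theorem E_C (b : ℕ) [NeZero b] (r : R) : E b (C r : PowerSeries R) = C r := by
  unfold E
  rw [expand_C]

theorem coeff_zero_E (b : ℕ) [NeZero b] (f : PowerSeries R) :
    coeff 0 (E b f) = coeff 0 f := by
  rw [coeff_E, if_pos (dvd_zero b), Nat.zero_div]

theorem E_mul (b c : ℕ) [NeZero b] [NeZero c] [NeZero (b * c)] (f : PowerSeries R) :
    E b (E c f) = E (b * c) f := by
  ext n
  have hb : 0 < b := Nat.pos_of_ne_zero (NeZero.ne b)
  have hc : 0 < c := Nat.pos_of_ne_zero (NeZero.ne c)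
  rw [coeff_E, coeff_E, coeff_E]
  by_cases h1 : b ∣ n
  · obtain ⟨k, rfl⟩ := h1
    rw [if_pos (dvd_mul_right b k), Nat.mul_div_cancel_left k hb, Nat.mul_div_mul_left _ _ hb]
    by_cases h2 : c ∣ k
    · rw [if_pos h2, if_pos (Nat.mul_dvd_mul_left b h2)]
    · rw [if_neg h2, if_neg]
      intro h
      exact h2 ((Nat.mul_dvd_mul_iff_left hb).mp h)
  · rw [if_neg h1, if_neg]
    intro h
    exact h1 (dvd_trans (dvd_mul_right b c) h)

/-- uniqueness for `f(x) = u(x) f(x^b)` -/
theorem eq_of_func {b : ℕ} [NeZero b] (hb : 2 ≤ b) (u f g : PowerSeries R)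
    (hf : f = u * E b f) (hg : g = u * E b g) (h0 : coeff 0 f = coeff 0 g) : f = g := by
  ext n
  induction n using Nat.strong_induction_on with
  | _ n ih =>
    rcases Nat.eq_zero_or_pos n with rfl | hn
    · exact h0
    · rw [hf, hg, coeff_mul, coeff_mul]
      apply Finset.sum_congr rfl
      intro p hp
      rw [Finset.HasAntidiagonal.mem_antidiagonal] at hp
      rw [coeff_E, coeff_E]
      by_cases h : b ∣ p.2
      · rw [if_pos h, if_pos h, ih (p.2 / b)]
        rcases Nat.eq_zero_or_pos p.2 with h2 | h2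
        · rw [h2, Nat.zero_div]; exact hn
        · have := Nat.div_lt_self h2 (show 1 < b by omega)
          omega
      · rw [if_neg h, if_neg h]

/-- one step congruence -/
theorem E_congr {b : ℕ} [NeZero b] {n : ℕ} {f g : PowerSeries R} (h : X ^ n ∣ f - g) :
    X ^ (b * n) ∣ E b f - E b g := by
  obtain ⟨q, hq⟩ := h
  refine ⟨E b q, ?_⟩
  rw [← map_sub, hq, map_mul, map_pow, E_X, ← pow_mul]

/-- the truncated product -/
noncomputable def Pr (b : ℕ) [NeZero b] (w : PowerSeries R) : ℕ → PowerSeries R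
  | 0 => 1
  | M + 1 => w * E b (Pr b w M)

theorem Pr_cong {b : ℕ} [NeZero b] (w f : PowerSeries R) (hf : f = w * E b f)
    (h0 : coeff 0 f = 1) (M : ℕ) : X ^ (b ^ M) ∣ Pr b w M - f := by
  induction M with
  | zero =>
    rw [pow_zero, pow_one, X_dvd_iff]
    simp only [Pr, map_sub, map_one]
    rw [← coeff_zero_eq_constantCoeff_apply, h0, sub_self]
  | succ M ih =>
    have h := E_congr (b := b) ih
    have : Pr b w (M + 1) - f = w * (E b (Pr b w M) - E b f) := by
      rw [mul_sub, ← hf, Pr]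
    rw [this, pow_succ, mul_comm (b ^ M) b]
    exact dvd_mul_of_dvd_right h w

/-- existence -/
theorem exists_func {b : ℕ} [NeZero b] (hb : 2 ≤ b) (w : PowerSeries R) (hw : coeff 0 w = 1) :
    ∃ f : PowerSeries R, f = w * E b f ∧ coeff 0 f = 1 := by
  have hstep : ∀ M, X ^ (b ^ M) ∣ Pr b w M - Pr b w (M + 1) := by
    intro M
    induction M with
    | zero =>
      rw [pow_zero, pow_one, X_dvd_iff]
      simp only [Pr, map_sub, map_one, mul_one]
      rw [← coeff_zero_eq_constantCoeff_apply, hw, sub_self]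
    | succ M ih =>
      have h := E_congr (b := b) ih
      have : Pr b w (M + 1) - Pr b w (M + 1 + 1) = w * (E b (Pr b w M) - E b (Pr b w (M + 1))) := by
        rw [mul_sub]; rfl
      rw [this, pow_succ, mul_comm (b ^ M) b]
      exact dvd_mul_of_dvd_right h w
  have hst : ∀ M K, M ≤ K → X ^ (b ^ M) ∣ Pr b w M - Pr b w K := by
    intro M K hK
    induction K, hK using Nat.le_induction with
    | base => rw [sub_self]; exact dvd_zero _
    | succ K hK ih =>
      have h2 : X ^ (b ^ M) ∣ Pr b w K - Pr b w (K + 1) :=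
        dvd_trans (pow_dvd_pow X (Nat.pow_le_pow_right (by omega) hK)) (hstep K)
      have := dvd_add ih h2
      rwa [sub_add_sub_cancel] at this
  let f : PowerSeries R := mk fun n => coeff n (Pr b w (n + 1))
  have hlt : ∀ n M, n < M → n < b ^ M := fun n M h =>
    lt_of_lt_of_le (lt_trans h (Nat.lt_two_pow_self)) (Nat.pow_le_pow_left hb M)
  have hf : ∀ M, X ^ M ∣ Pr b w M - f := by
    intro M
    rw [X_pow_dvd_iff]
    intro n hn
    rw [map_sub]
    simp only [f, coeff_mk]
    have h1 := hst (n + 1) M (by omega)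
    rw [X_pow_dvd_iff] at h1
    have h2 := h1 n (hlt n (n + 1) (by omega))
    rw [map_sub] at h2
    rw [← neg_sub, h2, neg_zero]
  refine ⟨f, ?_, ?_⟩
  · ext n
    have h1 := hf (n + 1)
    have h2 : X ^ (b * (n + 1)) ∣ E b (Pr b w (n + 1)) - E b f := E_congr h1
    have h3 : X ^ (n + 1) ∣ w * E b (Pr b w (n + 1)) - w * E b f := by
      rw [← mul_sub]
      exact dvd_mul_of_dvd_right (dvd_trans (pow_dvd_pow X (by nlinarith)) h2) w
    have h4 : X ^ (n + 1) ∣ f - w * E b f := by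
      have h5 : X ^ (n + 1) ∣ Pr b w (n + 2) - f := dvd_trans (pow_dvd_pow X (by omega)) (hf (n + 2))
      have h6 : Pr b w (n + 2) = w * E b (Pr b w (n + 1)) := rfl
      have h7 := dvd_sub h3 h5
      rw [h6] at h7
      have e : w * E b (Pr b w (n + 1)) - w * E b f - (w * E b (Pr b w (n + 1)) - f) =
          f - w * E b f := by ring
      rwa [e] at h7
    rw [X_pow_dvd_iff] at h4
    have := h4 n (by omega)
    rw [map_sub] at this
    exact sub_eq_zero.mp this
  · have h1 := hf 1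
    rw [X_pow_dvd_iff] at h1
    have h2 := h1 0 (by omega)
    rw [map_sub, sub_eq_zero] at h2
    rw [← h2]
    simp only [Pr, map_one, mul_one]
    exact hw

/-- `1/(1 - X)` -/
noncomputable def U : PowerSeries R := mk 1

theorem U_mul : (U : PowerSeries R) * (1 - X) = 1 := mk_one_mul_one_sub_eq_one R

theorem mul_U : (1 - X : PowerSeries R) * U = 1 := by rw [mul_comm, U_mul]

theorem coeff_zero_U : coeff 0 (U : PowerSeries R) = 1 := by
  rw [U, coeff_mk]; rfl

/-- the geometric series `1/(1 - X^d)` -/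
noncomputable def geo (d : ℕ) : PowerSeries R := mk fun j => if d ∣ j then 1 else 0

theorem geo_eq (d : ℕ) [NeZero d] : (geo d : PowerSeries R) = E d U := by
  ext n
  rw [geo, coeff_mk, coeff_E, U]
  split_ifs <;> simp

theorem Pr_U {b : ℕ} [NeZero b] (M : ℕ) :
    (Pr b U M : PowerSeries R) = ∏ i ∈ Finset.range M, geo (b ^ i) := by
  induction M with
  | zero => rfl
  | succ M ih =>
    rw [Pr, ih, Finset.prod_range_succ', map_prod]
    have h1 : (geo (b ^ 0) : PowerSeries R) = U := by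
      ext n
      simp [geo, U]
    rw [h1, mul_comm]
    congr 1
    apply Finset.prod_congr rfl
    intro i _
    have : NeZero (b ^ i) := ⟨pow_ne_zero i (NeZero.ne b)⟩
    have : NeZero (b ^ (i + 1)) := ⟨pow_ne_zero _ (NeZero.ne b)⟩
    have : NeZero (b * b ^ i) := ⟨mul_ne_zero (NeZero.ne b) (pow_ne_zero _ (NeZero.ne b))⟩
    rw [geo_eq (b ^ i), E_mul]
    ext n
    rw [geo, coeff_mk, coeff_E, U, pow_succ, mul_comm (b ^ i) b]
    split_ifs <;> simp

theorem Pr_pow {b : ℕ} [NeZero b] (w : PowerSeries R) (m M : ℕ) :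
    Pr b (w ^ m) M = Pr b w M ^ m := by
  induction M with
  | zero => simp [Pr]
  | succ M ih => rw [Pr, ih, Pr, map_pow, mul_pow]

theorem Pr_one_sub {b : ℕ} [NeZero b] (M : ℕ) :
    (Pr b (1 - X) M : PowerSeries R) = ∏ i ∈ Finset.range M, (1 - X ^ (b ^ i)) := by
  induction M with
  | zero => rfl
  | succ M ih =>
    rw [Pr, ih, Finset.prod_range_succ', map_prod, mul_comm]
    congr 1
    · apply Finset.prod_congr rfl
      intro i _
      rw [map_sub, map_one, map_pow, E_X, ← pow_mul, pow_succ, mul_comm (b ^ i) b]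
    · rw [pow_zero, pow_one]

/-- coefficients of powers of the product of geometric series -/
theorem coeff_geo_prod {b : ℕ} [NeZero b] (hb : 2 ≤ b) (m : ℕ) (f : PowerSeries R)
    (hf : f = U ^ m * E b f) (h0 : coeff 0 f = 1) (n M : ℕ) (hM : n < M) (g : PowerSeries R) :
    coeff n (g * (∏ i ∈ Finset.range M, geo (b ^ i)) ^ m) = coeff n (g * f) := by
  have h := Pr_cong (U ^ m) f hf h0 M
  rw [Pr_pow, Pr_U] at h
  have h1 : n < b ^ M :=
    lt_of_lt_of_le (lt_trans hM (Nat.lt_two_pow_self)) (Nat.pow_le_pow_left hb M)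
  have h2 : X ^ (n + 1) ∣ g * (∏ i ∈ Finset.range M, geo (b ^ i)) ^ m - g * f := by
    rw [← mul_sub]
    exact dvd_mul_of_dvd_right (dvd_trans (pow_dvd_pow X h1) h) g
  rw [X_pow_dvd_iff] at h2
  have := h2 n (by omega)
  rwa [map_sub, sub_eq_zero] at this

/-- coefficients of powers of the product of the factors `1 - X^(b^i)` -/
theorem coeff_sub_prod {b : ℕ} [NeZero b] (hb : 2 ≤ b) (m : ℕ) (f : PowerSeries R)
    (hf : f = (1 - X) ^ m * E b f) (h0 : coeff 0 f = 1) (n M : ℕ) (hM : n < M)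
    (g : PowerSeries R) :
    coeff n (g * (∏ i ∈ Finset.range M, (1 - X ^ (b ^ i))) ^ m) = coeff n (g * f) := by
  have h := Pr_cong ((1 - X) ^ m) f hf h0 M
  rw [Pr_pow, Pr_one_sub] at h
  have h1 : n < b ^ M :=
    lt_of_lt_of_le (lt_trans hM (Nat.lt_two_pow_self)) (Nat.pow_le_pow_left hb M)
  have h2 : X ^ (n + 1) ∣ g * (∏ i ∈ Finset.range M, (1 - X ^ (b ^ i))) ^ m - g * f := by
    rw [← mul_sub]
    exact dvd_mul_of_dvd_right (dvd_trans (pow_dvd_pow X h1) h) g
  rw [X_pow_dvd_iff] at h2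
  have := h2 n (by omega)
  rwa [map_sub, sub_eq_zero] at this

/-! ### coefficients with integer index -/

/-- coefficient with integer index -/
noncomputable def cz (f : PowerSeries R) (i : ℤ) : R := if 0 ≤ i then coeff i.toNat f else 0

theorem cz_nat (f : PowerSeries R) (n : ℕ) : cz f (n : ℤ) = coeff n f := by
  simp [cz]

theorem cz_neg (f : PowerSeries R) (i : ℤ) (h : i < 0) : cz f i = 0 := by
  rw [cz, if_neg (by omega)]

theorem cz_sub (f g : PowerSeries R) (i : ℤ) : cz (f - g) i = cz f i - cz g i := by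
  unfold cz
  split_ifs <;> simp

theorem cz_X_mul (f : PowerSeries R) (i : ℤ) : cz (X * f) i = cz f (i - 1) := by
  rcases lt_trichotomy i 0 with h | h | h
  · rw [cz_neg _ _ h, cz_neg _ _ (by omega)]
  · subst h
    rw [cz_neg _ (0 - 1) (by omega)]
    have : cz (X * f) ((0 : ℕ) : ℤ) = 0 := by rw [cz_nat, coeff_zero_X_mul]
    exact this
  · obtain ⟨n, rfl⟩ : ∃ n : ℕ, i = ((n + 1 : ℕ) : ℤ) := ⟨(i - 1).toNat, by omega⟩
    rw [cz_nat, coeff_succ_X_mul]
    have : ((n + 1 : ℕ) : ℤ) - 1 = (n : ℤ) := by push_cast; ring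
    rw [this, cz_nat]

theorem cz_one_sub_X_mul (f : PowerSeries R) (i : ℤ) :
    cz ((1 - X) * f) i = cz f i - cz f (i - 1) := by
  rw [sub_mul, one_mul, cz_sub, cz_X_mul]

theorem cz_E (b : ℕ) [NeZero b] (f : PowerSeries R) (i : ℤ) : cz (E b f) (b * i) = cz f i := by
  have hb : 0 < b := Nat.pos_of_ne_zero (NeZero.ne b)
  rcases lt_or_ge i 0 with h | h
  · rw [cz_neg _ _ h, cz_neg]
    nlinarith
  · obtain ⟨n, rfl⟩ : ∃ n : ℕ, i = (n : ℤ) := ⟨i.toNat, by omega⟩
    have : ((b : ℤ) * (n : ℤ)) = ((b * n : ℕ) : ℤ) := by push_cast; ring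
    rw [this, cz_nat, cz_nat, coeff_E, if_pos (dvd_mul_right b n), Nat.mul_div_cancel_left n hb]

theorem cz_E_ne (b : ℕ) [NeZero b] (f : PowerSeries R) (i : ℤ) (h : ¬ (b : ℤ) ∣ i) :
    cz (E b f) i = 0 := by
  rcases lt_or_ge i 0 with h1 | h1
  · rw [cz_neg _ _ h1]
  · obtain ⟨n, rfl⟩ : ∃ n : ℕ, i = (n : ℤ) := ⟨i.toNat, by omega⟩
    rw [cz_nat, coeff_E, if_neg]
    intro h2
    exact h (by exact_mod_cast h2)

end Pool.Agent.Q35
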