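import Mathlib
import Pool.Agent.Q35.Lib

/-!
Coloured partitions into powers of `b`.
-/

namespace Pool.Agent.Q35

open PowerSeries

/-- `S b m n`, the coefficient of `x^n` in
`(1-x)^(-m) * ∏_{i ≥ 0} (1 - x^(b^i))^(-m(b-1))`; the factors with `i > n` do not influence this
coefficient, and `1/(1-x^d)` is written as the series with coefficient `1` at the multiples of `d`
and `0` elsewhere. -/
noncomputable def S (b m n : ℕ) : ℕ :=
  coeff n ((mk fun _ => (1 : ℕ)) ^ m *
    (∏ i ∈ Finset.range (n + 1), mk fun j => if b ^ i ∣ j then (1 : ℕ) else 0) ^ (m * (b - 1)))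

variable {R : Type*} [CommRing R]

theorem cast_coeff (b m m' n M : ℕ) :
    ((coeff n ((mk fun _ => (1 : ℕ)) ^ m *
      (∏ i ∈ Finset.range M, mk fun j => if b ^ i ∣ j then (1 : ℕ) else 0) ^ m') : ℕ) : R) =
    coeff n (U ^ m * (∏ i ∈ Finset.range M, geo (b ^ i)) ^ m' : PowerSeries R) := by
  have h : ∀ f : PowerSeries ℕ, ((coeff n f : ℕ) : R) =
      coeff n (PowerSeries.map (Nat.castRingHom R) f) := by
    intro f
    rw [coeff_map]
    rfl
  rw [h, map_mul, map_pow, map_pow, map_prod]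
  have h1 : PowerSeries.map (Nat.castRingHom R) (mk fun _ => (1 : ℕ)) = U := by
    ext n
    simp [U]
  have h2 : ∀ i, PowerSeries.map (Nat.castRingHom R)
      (mk fun j => if b ^ i ∣ j then (1 : ℕ) else 0) = geo (b ^ i) := by
    intro i
    ext n
    rw [coeff_map, coeff_mk, geo, coeff_mk]
    split_ifs <;> simp
  simp only [h1, h2]

/-- the defining functional equation determines the numbers `S b m n` -/
theorem S_spec {b : ℕ} [NeZero b] (hb : 2 ≤ b) (m : ℕ) (g : PowerSeries R)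
    (hg : g = (U ^ b * (1 - X ^ b)) ^ m * E b g) (h0 : coeff 0 g = 1) (n : ℕ) :
    (S b m n : R) = coeff n g := by
  rw [S, cast_coeff]
  obtain ⟨f, hf, hf0⟩ := exists_func (R := R) hb (U ^ (m * (b - 1))) (by
    rw [coeff_zero_eq_constantCoeff_apply, map_pow, ← coeff_zero_eq_constantCoeff_apply,
      coeff_zero_U, one_pow])
  rw [coeff_geo_prod hb (m * (b - 1)) f hf hf0 n (n + 1) (Nat.lt_succ_self n) (U ^ m)]
  congr 1
  apply eq_of_func hb ((U ^ b * (1 - X ^ b)) ^ m) _ _ _ hg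
  · rw [coeff_zero_eq_constantCoeff_apply, map_mul, map_pow, ← coeff_zero_eq_constantCoeff_apply,
      ← coeff_zero_eq_constantCoeff_apply, coeff_zero_U, hf0, h0]
    simp
  · have hE : E b (U ^ m : PowerSeries R) * (1 - X ^ b) ^ m = 1 := by
      have : (1 - X ^ b : PowerSeries R) = E b (1 - X) := by
        rw [map_sub, map_one, E_X]
      rw [this, ← map_pow, ← map_mul, ← mul_pow, U_mul, one_pow, map_one]
    have hb1 : m + m * (b - 1) = b * m := by
      obtain ⟨c, rfl⟩ : ∃ c, b = c + 1 := ⟨b - 1, by omega⟩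
      rw [Nat.add_sub_cancel]; ring
    conv_lhs => rw [hf]
    rw [map_mul, mul_pow, ← pow_mul]
    calc U ^ m * (U ^ (m * (b - 1)) * E b f) = U ^ (m + m * (b - 1)) * E b f := by
          rw [pow_add]; ring
      _ = U ^ (b * m) * (E b (U ^ m : PowerSeries R) * (1 - X ^ b) ^ m) * E b f := by
          rw [hE, hb1, mul_one]
      _ = _ := by ring

theorem exists_S {b : ℕ} [NeZero b] (hb : 2 ≤ b) (m : ℕ) : ∃ g : PowerSeries R,
    g = (U ^ b * (1 - X ^ b)) ^ m * E b g ∧ coeff 0 g = 1 := by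
  apply exists_func hb
  rw [coeff_zero_eq_constantCoeff_apply, map_pow, map_mul, map_pow,
    ← coeff_zero_eq_constantCoeff_apply, coeff_zero_U]
  have : b ≠ 0 := NeZero.ne b
  simp [this]

/-- multiplicativity in `m` -/
theorem pow_S {b : ℕ} [NeZero b] (m t : ℕ) (g : PowerSeries R)
    (hg : g = (U ^ b * (1 - X ^ b)) ^ m * E b g) (h0 : coeff 0 g = 1) :
    g ^ t = (U ^ b * (1 - X ^ b)) ^ (m * t) * E b (g ^ t) ∧ coeff 0 (g ^ t) = 1 := by
  refine ⟨?_, ?_⟩
  · conv_lhs => rw [hg]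
    rw [mul_pow, ← pow_mul, map_pow]
  · rw [coeff_zero_eq_constantCoeff_apply, map_pow, ← coeff_zero_eq_constantCoeff_apply, h0,
      one_pow]

theorem isUnit_one_sub_X_pow (d k : ℕ) (hd : d ≠ 0) :
    IsUnit ((1 - X ^ d : PowerSeries R) ^ k) := by
  apply IsUnit.pow
  rw [isUnit_iff_constantCoeff]
  simp [hd]

end Pool.Agent.Q35
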