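import Mathlib
import Pool.Agent.Q35.Col

/-!
A verified automaton for coefficients of `g * (1-X)^pre * P(U)` modulo `M`, where
`g = (U^b (1 - X^b))^m g(x^b)`.
-/

namespace Pool.Agent.Q35.Auto

open PowerSeries Pool.Agent.Q35

/-! ### The computation -/

/-- forces evaluation of the argument -/
def force {α : Type} (x : ℕ) (k : ℕ → α) : α :=
  match x with
  | 0 => k 0
  | n + 1 => k (n + 1)

theorem force_eq {α : Type} (x : ℕ) (k : ℕ → α) : force x k = k x := by
  cases x <;> rfl

/-- `sufs M c k r`: the first `k` entries `c - (sum of later entries)` together with the total -/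
def sufs (M c : ℕ) : ℕ → List ℕ → List ℕ × ℕ
  | 0, _ => ([], 0)
  | k + 1, r =>
    let q := sufs M c k r.tail
    force ((c + (M - q.2)) % M) fun x => force ((r.headD 0 + q.2) % M) fun y => (x :: q.1, y)

/-- multiplication by `U` of a vector of sections, given by rows of length `b` -/
def mulU (M b : ℕ) : ℕ → List (List ℕ) → List (List ℕ)
  | c, [] => [List.replicate b c]
  | c, r :: l =>
    match sufs M c b r with
    | (x, y) => x :: mulU M b y l

/-- iterate -/
def mulUn (M b : ℕ) : ℕ → List (List ℕ) → List (List ℕ)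
  | 0, f => f
  | n + 1, f => mulU M b 0 (mulUn M b n f)

/-- add a constant -/
def addHead (M a : ℕ) : List (List ℕ) → List (List ℕ)
  | [] => [[a]]
  | r :: l => (((r.headD 0 + a) % M) :: r.tail) :: l

/-- sections of a polynomial in `U` -/
def horner (M b : ℕ) : List ℕ → List (List ℕ)
  | [] => []
  | a :: l => addHead M a (mulU M b 0 (horner M b l))

/-- column `d` -/
def col (d : ℕ) (rows : List (List ℕ)) : List ℕ := rows.map fun r => r.getD d 0

/-- all entries are zero -/
def allZ : List ℕ → Bool
  | [] => true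
  | a :: k => Nat.beq a 0 && allZ k

/-- equality up to trailing zeros -/
def eqT : List ℕ → List ℕ → Bool
  | [], l => allZ l
  | a :: k, [] => Nat.beq a 0 && eqT k []
  | a :: k, b :: l => Nat.beq a b && eqT k l

/-- membership up to trailing zeros -/
def memT (x : List ℕ) : List (List ℕ) → Bool
  | [] => false
  | y :: l => eqT x y || memT x l

/-- sum modulo `M` -/
def tot (M : ℕ) : List ℕ → ℕ
  | [] => 0
  | a :: l => (a + tot M l) % M

/-- the first `m` entries vanish and the rest lies in `N` -/
def inN (m : ℕ) (x : List ℕ) (N : List (List ℕ)) : Bool := allZ (x.take m) && memT (x.drop m) N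

/-- `inN` for all columns `d < k` -/
def colsIn (m : ℕ) (rows : List (List ℕ)) (N : List (List ℕ)) : ℕ → ℕ → Bool
  | _, 0 => true
  | d, k + 1 => inN m (col d rows) N && colsIn m rows N (d + 1) k

/-- check of one state of the class `N` -/
def chkN (M b m e : ℕ) (good : ℕ → Bool) (N : List (List ℕ)) (P : List ℕ) : Bool :=
  good (tot M P) && colsIn m (mulUn M b e (horner M b P)) N 0 b

/-- check of one state of the class `Z` -/
def chkZ (M b m e : ℕ) (Z N : List (List ℕ)) (P : List ℕ) : Bool :=
  match mulUn M b e (horner M b P) with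
  | rows => inN m (col 0 rows) Z && colsIn m rows N 1 (b - 1)

/-- the complete check; `e` is the number of multiplications by `U` -/
def check (M b m e : ℕ) (good : ℕ → Bool) (Z N : List (List ℕ)) : Bool :=
  N.all (chkN M b m e good N) && Z.all (chkZ M b m e Z N)

/-! ### Semantics -/

section

variable {M b : ℕ} [NeZero b]

/-- value of a row as a polynomial in `X` -/
noncomputable def rowS (M : ℕ) : ℕ → List ℕ → PowerSeries (ZMod M)
  | 0, _ => 0
  | k + 1, r => C ((r.headD 0 : ℕ) : ZMod M) + X * rowS M k r.tail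

/-- `1 + X + ... + X^(k-1)` -/
noncomputable def J (M : ℕ) : ℕ → PowerSeries (ZMod M)
  | 0 => 0
  | k + 1 => 1 + X * J M k

theorem J_eq (k : ℕ) : J M k * (1 - X) = 1 - X ^ k := by
  induction k with
  | zero => simp [J]
  | succ k ih =>
    rw [J, add_mul, one_mul, mul_assoc, ih, pow_succ]
    ring

theorem U_eq_J : (U : PowerSeries (ZMod M)) = J M b * E b U := by
  have h1 : (1 - X ^ b : PowerSeries (ZMod M)) * E b U = 1 := by
    have : (1 - X ^ b : PowerSeries (ZMod M)) = E b (1 - X) := by
      rw [map_sub, map_one, E_X]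
    rw [this, ← map_mul, mul_U, map_one]
  calc (U : PowerSeries (ZMod M)) = U * ((1 - X ^ b) * E b U) := by rw [h1, mul_one]
    _ = U * (J M b * (1 - X)) * E b U := by rw [J_eq]; ring
    _ = (U * (1 - X)) * (J M b * E b U) := by ring
    _ = _ := by rw [U_mul, one_mul]

/-- rows evaluated -/
noncomputable def ev (M b : ℕ) [NeZero b] : List (List ℕ) → PowerSeries (ZMod M)
  | [] => 0
  | r :: l => rowS M b r + E b U * ev M b l

theorem rowS_replicate (c k n : ℕ) (h : n ≤ k) :
    rowS M n (List.replicate k c) = C (c : ZMod M) * J M n := by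
  induction n generalizing k with
  | zero => simp [rowS, J]
  | succ n ih =>
    obtain ⟨k', rfl⟩ : ∃ k', k = k' + 1 := ⟨k - 1, by omega⟩
    rw [rowS, J, List.replicate_succ, List.tail_cons, ih k' (by omega)]
    simp only [List.headD_cons]
    ring

theorem sufs_spec (hM : 0 < M) (c : ℕ) : ∀ (k : ℕ) (r : List ℕ),
    (sufs M c k r).2 ≤ M ∧
    U * rowS M k r = C (((sufs M c k r).2 : ℕ) : ZMod M) * U - C (c : ZMod M) * J M k +
      rowS M k (sufs M c k r).1 := by
  intro k
  induction k with
  | zero =>
    intro r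
    simp [sufs, rowS, J]
  | succ k ih =>
    intro r
    obtain ⟨h1, h2⟩ := ih r.tail
    simp only [sufs, force_eq]
    refine ⟨(Nat.mod_lt _ hM).le, ?_⟩
    simp only [rowS, List.headD_cons, List.tail_cons, J]
    have e1 : (((c + (M - (sufs M c k r.tail).2)) % M : ℕ) : ZMod M) =
        (c : ZMod M) - ((sufs M c k r.tail).2 : ZMod M) := by
      rw [ZMod.natCast_mod, Nat.cast_add, Nat.cast_sub h1, ZMod.natCast_self]
      ring
    have e2 : (((r.headD 0 + (sufs M c k r.tail).2) % M : ℕ) : ZMod M) =
        ((r.headD 0 : ℕ) : ZMod M) + ((sufs M c k r.tail).2 : ZMod M) := by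
      rw [ZMod.natCast_mod, Nat.cast_add]
    rw [e1, e2, map_sub, map_add]
    have hU : X * U = (U : PowerSeries (ZMod M)) - 1 := by
      have := U_mul (R := ZMod M)
      linear_combination -this
    calc U * (C ((r.headD 0 : ℕ) : ZMod M) + X * rowS M k r.tail)
        = C ((r.headD 0 : ℕ) : ZMod M) * U + X * (U * rowS M k r.tail) := by ring
      _ = C ((r.headD 0 : ℕ) : ZMod M) * U + C (((sufs M c k r.tail).2 : ℕ) : ZMod M) * (X * U) -
          X * (C (c : ZMod M) * J M k - rowS M k (sufs M c k r.tail).1) := by rw [h2]; ring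
      _ = _ := by rw [hU]; ring

theorem ev_mulU (hM : 0 < M) (l : List (List ℕ)) : ∀ c : ℕ,
    ev M b (mulU M b c l) = C (c : ZMod M) * J M b + U * ev M b l := by
  induction l with
  | nil =>
    intro c
    simp only [mulU, ev, mul_zero, add_zero]
    rw [rowS_replicate c b b le_rfl]
  | cons r l ih =>
    intro c
    obtain ⟨-, h2⟩ := sufs_spec hM c b r
    simp only [mulU]
    rw [ev, ih, ev, mul_add, mul_add, h2]
    have hU := U_eq_J (M := M) (b := b)
    have e : C (((sufs M c b r).2 : ℕ) : ZMod M) * (U : PowerSeries (ZMod M)) =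
        C (((sufs M c b r).2 : ℕ) : ZMod M) * (J M b * E b U) := by rw [← hU]
    rw [e]
    ring

theorem ev_mulUn (hM : 0 < M) (n : ℕ) (l : List (List ℕ)) :
    ev M b (mulUn M b n l) = U ^ n * ev M b l := by
  induction n with
  | zero => simp [mulUn]
  | succ n ih =>
    rw [mulUn, ev_mulU hM, ih, pow_succ]
    simp only [Nat.cast_zero, map_zero, zero_mul, zero_add]
    ring

theorem ev_addHead (a : ℕ) (l : List (List ℕ)) :
    ev M b (addHead M a l) = C (a : ZMod M) + ev M b l := by
  obtain ⟨k, hk⟩ : ∃ k, b = k + 1 := ⟨b - 1, by have := NeZero.ne b; omega⟩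
  cases l with
  | nil =>
    have h : ∀ k, rowS M k [] = 0 := by
      intro k
      induction k with
      | zero => rfl
      | succ k ih => simp [rowS, ih]
    simp only [addHead, ev, mul_zero, add_zero]
    conv_lhs => rw [hk, rowS]
    simp [h]
  | cons r l =>
    simp only [addHead, ev]
    have h1 : ∀ k, rowS M (k + 1) (((r.headD 0 + a) % M) :: r.tail) =
        C (a : ZMod M) + rowS M (k + 1) r := by
      intro k
      simp only [rowS, List.headD_cons, List.tail_cons]
      rw [ZMod.natCast_mod, Nat.cast_add, map_add]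
      ring
    have h2 : rowS M b (((r.headD 0 + a) % M) :: r.tail) = C (a : ZMod M) + rowS M b r := by
      have := h1 k
      rw [← hk] at this
      exact this
    rw [h2]
    ring

/-- polynomial in `U` -/
noncomputable def evU (M : ℕ) : List ℕ → PowerSeries (ZMod M)
  | [] => 0
  | a :: l => C (a : ZMod M) + U * evU M l

theorem ev_horner (hM : 0 < M) (l : List ℕ) : ev M b (horner M b l) = evU M l := by
  induction l with
  | nil => rfl
  | cons a l ih =>
    rw [horner, ev_addHead, ev_mulU hM, ih, evU]
    simp only [Nat.cast_zero, map_zero, zero_mul, zero_add]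

theorem coeff_rowS (k : ℕ) : ∀ (r : List ℕ) (A : PowerSeries (ZMod M)) (n d : ℕ), d < b → k ≤ b →
    (∀ j, b ∣ j ∨ coeff j A = 0) →
    coeff (b * n + d) (rowS M k r * A) = if d < k then ((r.getD d 0 : ℕ) : ZMod M) *
      coeff (b * n) A else 0 := by
  induction k with
  | zero => intro r A n d _ _ _; simp [rowS]
  | succ k ih =>
    intro r A n d hd hk hA
    rw [rowS, add_mul, map_add, coeff_C_mul, mul_assoc]
    cases d with
    | zero =>
      rw [add_zero, if_pos (Nat.succ_pos k)]
      have h1 : coeff (b * n) (X * (rowS M k r.tail * A)) = 0 := by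
        rcases Nat.eq_zero_or_pos n with rfl | hn
        · rw [mul_zero, coeff_zero_X_mul]
        · obtain ⟨n', rfl⟩ : ∃ n', n = n' + 1 := ⟨n - 1, by omega⟩
          have hb : 0 < b := Nat.pos_of_ne_zero (NeZero.ne b)
          have e : b * (n' + 1) = (b * n' + (b - 1)) + 1 := by
            rw [mul_add, mul_one]; omega
          rw [e, coeff_succ_X_mul, ih r.tail A n' (b - 1) (by omega) (by omega) hA,
            if_neg (by omega)]
      rw [h1, add_zero]
      cases r <;> simp
    | succ d =>
      rw [← add_assoc, coeff_succ_X_mul, ih r.tail A n d (by omega) (by omega) hA]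
      have h1 : coeff (b * n + d + 1) A = 0 := by
        rcases hA (b * n + d + 1) with h | h
        · exfalso
          have h2 : b ∣ d + 1 := by
            rw [add_assoc] at h
            exact (Nat.dvd_add_right (dvd_mul_right b n)).mp h
          have := Nat.le_of_dvd (by omega) h2
          omega
        · exact h
      rw [h1, mul_zero, zero_add]
      cases r with
      | nil => simp
      | cons x xs =>
        simp only [List.tail_cons, List.getD_cons_succ]
        by_cases h : d < k
        · rw [if_pos h, if_pos (by omega)]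
        · rw [if_neg h, if_neg (by omega)]

theorem coeff_E_rows (A : PowerSeries (ZMod M)) (rows : List (List ℕ)) (n d : ℕ) (hd : d < b) :
    coeff (b * n + d) (ev M b rows * E b A) = coeff n (evU M (col d rows) * A) := by
  have hb : 0 < b := Nat.pos_of_ne_zero (NeZero.ne b)
  induction rows generalizing A with
  | nil => simp [ev, evU, col]
  | cons r l ih =>
    rw [ev, add_mul, map_add]
    have h1 : E b (U : PowerSeries (ZMod M)) * ev M b l * E b A = ev M b l * E b (U * A) := by
      rw [map_mul]; ring
    rw [h1, ih (U * A), coeff_rowS b r (E b A) n d hd le_rfl, if_pos hd]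
    · rw [coeff_E, if_pos (dvd_mul_right b n), Nat.mul_div_cancel_left n hb]
      simp only [col, List.map_cons, evU]
      rw [add_mul, map_add, coeff_C_mul]
      congr 2
      ring
    · intro j
      by_cases h : b ∣ j
      · left; exact h
      · right; rw [coeff_E, if_neg h]

theorem allZ_spec (l : List ℕ) (h : allZ l = true) : evU M l = 0 := by
  induction l with
  | nil => rfl
  | cons a l ih =>
    simp only [allZ, Bool.and_eq_true, Nat.beq_eq] at h
    rw [evU, ih h.2, h.1]
    simp

theorem eqT_spec : ∀ (k l : List ℕ), eqT k l = true → evU M k = evU M l := by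
  intro k
  induction k with
  | nil => intro l h; rw [eqT] at h; rw [allZ_spec l h]; rfl
  | cons a k ih =>
    intro l h
    cases l with
    | nil =>
      simp only [eqT, Bool.and_eq_true, Nat.beq_eq] at h
      have h2 := ih [] h.2
      simp only [evU] at h2 ⊢
      rw [h2, h.1]
      simp
    | cons b l =>
      simp only [eqT, Bool.and_eq_true, Nat.beq_eq] at h
      rw [evU, evU, ih l h.2, h.1]

theorem memT_spec (x : List ℕ) (N : List (List ℕ)) (h : memT x N = true) :
    ∃ y ∈ N, evU M x = evU M y := by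
  induction N with
  | nil => simp [memT] at h
  | cons y N ih =>
    simp only [memT, Bool.or_eq_true] at h
    rcases h with h | h
    · exact ⟨y, List.mem_cons_self, eqT_spec x y h⟩
    · obtain ⟨z, hz, hz2⟩ := ih h
      exact ⟨z, List.mem_cons_of_mem y hz, hz2⟩

theorem take_drop (m : ℕ) : ∀ (x : List ℕ), allZ (x.take m) = true →
    evU M x = U ^ m * evU M (x.drop m) := by
  induction m with
  | zero => intro x _; simp
  | succ m ih =>
    intro x h
    cases x with
    | nil => simp [evU]
    | cons a x =>
      simp only [List.take_succ_cons, allZ, Bool.and_eq_true, Nat.beq_eq] at h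
      rw [evU, h.1, ih x h.2, List.drop_succ_cons, pow_succ]
      simp
      ring

theorem inN_spec (m : ℕ) (x : List ℕ) (N : List (List ℕ)) (h : inN m x N = true) :
    ∃ y ∈ N, evU M x = U ^ m * evU M y := by
  simp only [inN, Bool.and_eq_true] at h
  obtain ⟨y, hy, hy2⟩ := memT_spec (M := M) _ _ h.2
  exact ⟨y, hy, by rw [take_drop m x h.1, hy2]⟩

theorem colsIn_spec (m : ℕ) (rows N : List (List ℕ)) (k : ℕ) : ∀ d, colsIn m rows N d k = true →
    ∀ j, d ≤ j → j < d + k → inN m (col j rows) N = true := by
  induction k with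
  | zero => intro d _ j h1 h2; omega
  | succ k ih =>
    intro d h j h1 h2
    simp only [colsIn, Bool.and_eq_true] at h
    rcases Nat.eq_or_lt_of_le h1 with h3 | h3
    · rw [← h3]; exact h.1
    · exact ih (d + 1) h.2 j (by omega) (by omega)

theorem evU_const (l : List ℕ) : constantCoeff (evU M l) = ((tot M l : ℕ) : ZMod M) := by
  induction l with
  | nil => simp [evU, tot]
  | cons a l ih =>
    have hU : constantCoeff (U : PowerSeries (ZMod M)) = 1 := by
      rw [← coeff_zero_eq_constantCoeff_apply, coeff_zero_U]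
    rw [evU, tot, ZMod.natCast_mod, Nat.cast_add, ← ih, map_add, map_mul, hU, one_mul,
      constantCoeff_C]

/-- hypotheses on the series: `A = E (A') * U^e` where `A' = U^m * A` -/
structure Ser (M b m e : ℕ) [NeZero b] (A : PowerSeries (ZMod M)) : Prop where
  /-- functional equation -/
  func : ∃ B : PowerSeries (ZMod M), A = E b B * U ^ e ∧ B * U ^ m = A
  /-- constant term -/
  const : constantCoeff A = 1

theorem section_eq (hM : 0 < M) {m e : ℕ} {A : PowerSeries (ZMod M)} (hA : Ser M b m e A)
    (P Q : List ℕ) (d : ℕ) (hd : d < b)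
    (hQ : evU M (col d (mulUn M b e (horner M b P))) = U ^ m * evU M Q) (n : ℕ) :
    coeff (b * n + d) (evU M P * A) = coeff n (evU M Q * A) := by
  obtain ⟨B, hB1, hB2⟩ := hA.func
  have h1 : evU M P * A = ev M b (mulUn M b e (horner M b P)) * E b B := by
    rw [ev_mulUn hM, ev_horner hM, hB1]
    ring
  rw [h1, coeff_E_rows B _ n d hd, hQ]
  congr 1
  rw [← hB2]
  ring

theorem chkN_all (hM : 0 < M) {m e : ℕ} {A : PowerSeries (ZMod M)} (hA : Ser M b m e A)
    (hb : 2 ≤ b) (good : ℕ → Bool) (N : List (List ℕ))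
    (h : ∀ P ∈ N, chkN M b m e good N P = true) :
    ∀ n, ∀ P ∈ N, ∃ v, good v = true ∧ coeff n (evU M P * A) = (v : ZMod M) := by
  intro n
  induction n using Nat.strong_induction_on with
  | _ n ih =>
    intro P hP
    have hc := h P hP
    simp only [chkN, Bool.and_eq_true] at hc
    rcases Nat.eq_zero_or_pos n with rfl | hn
    · refine ⟨tot M P, hc.1, ?_⟩
      rw [coeff_zero_eq_constantCoeff_apply, map_mul, hA.const, mul_one, evU_const]
    · have hb0 : 0 < b := by omega
      have hd : n % b < b := Nat.mod_lt n hb0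
      have h1 := colsIn_spec m _ N b 0 hc.2 (n % b) (Nat.zero_le _) (by omega)
      obtain ⟨Q, hQ, hQ2⟩ := inN_spec (M := M) m _ N h1
      have h2 := section_eq hM hA P Q (n % b) hd hQ2 (n / b)
      rw [Nat.div_add_mod] at h2
      rw [h2]
      exact ih (n / b) (Nat.div_lt_self hn (by omega)) Q hQ

theorem chkZ_all (hM : 0 < M) {m e : ℕ} {A : PowerSeries (ZMod M)} (hA : Ser M b m e A)
    (hb : 2 ≤ b) (good : ℕ → Bool) (Z N : List (List ℕ))
    (h : check M b m e good Z N = true) :
    ∀ n, 1 ≤ n → ∀ P ∈ Z, ∃ v, good v = true ∧ coeff n (evU M P * A) = (v : ZMod M) := by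
  simp only [check, Bool.and_eq_true, List.all_eq_true] at h
  have hN := chkN_all hM hA hb good N h.1
  intro n
  induction n using Nat.strong_induction_on with
  | _ n ih =>
    intro hn P hP
    have hc := h.2 P hP
    simp only [chkZ, Bool.and_eq_true] at hc
    have hb0 : 0 < b := by omega
    have hd : n % b < b := Nat.mod_lt n hb0
    rcases Nat.eq_zero_or_pos (n % b) with h0 | h0
    · obtain ⟨Q, hQ, hQ2⟩ := inN_spec (M := M) m _ Z hc.1
      have h2 := section_eq hM hA P Q 0 hb0 hQ2 (n / b)
      rw [← h0, Nat.div_add_mod] at h2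
      rw [h2]
      apply ih (n / b) (Nat.div_lt_self hn (by omega)) _ Q hQ
      have h3 := Nat.div_add_mod n b
      rcases Nat.eq_zero_or_pos (n / b) with h4 | h4
      · rw [h4, h0] at h3; omega
      · exact h4
    · have h1 := colsIn_spec m _ N (b - 1) 1 hc.2 (n % b) h0 (by omega)
      obtain ⟨Q, hQ, hQ2⟩ := inN_spec (M := M) m _ N h1
      have h2 := section_eq hM hA P Q (n % b) hd hQ2 (n / b)
      rw [Nat.div_add_mod] at h2
      rw [h2]
      exact hN (n / b) Q hQ

/-- the series of `S b m` satisfies the hypotheses -/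
theorem ser_S (hb : 2 ≤ b) (m : ℕ) (g : PowerSeries (ZMod M))
    (hg : g = (U ^ b * (1 - X ^ b)) ^ m * E b g) (h0 : coeff 0 g = 1) : Ser M b m (b * m) g := by
  refine ⟨⟨(1 - X) ^ m * g, ?_, ?_⟩, ?_⟩
  · rw [map_mul, map_pow, map_sub, map_one, E_X]
    conv_lhs => rw [hg]
    rw [mul_pow, ← pow_mul]
    ring
  · calc (1 - X) ^ m * g * U ^ m = (U * (1 - X)) ^ m * g := by rw [mul_pow]; ring
      _ = g := by rw [U_mul, one_pow, one_mul]
  · rw [← coeff_zero_eq_constantCoeff_apply, h0]

/-- variant with a factor `(1-X)^pre` -/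
theorem ser_pre (hb : 2 ≤ b) (m pre ext : ℕ) (g : PowerSeries (ZMod M))
    (hg : g = (U ^ b * (1 - X ^ b)) ^ m * E b g) (h0 : coeff 0 g = 1)
    (hpre : ((1 - X) ^ pre : PowerSeries (ZMod M)) = (1 - X ^ b) ^ pre * U ^ ext) :
    Ser M b m (b * m + ext) ((1 - X) ^ pre * g) := by
  refine ⟨⟨(1 - X) ^ m * ((1 - X) ^ pre * g), ?_, ?_⟩, ?_⟩
  · rw [map_mul, map_mul, map_pow, map_pow, map_sub, map_one, E_X]
    conv_lhs => rw [hg, hpre]
    rw [mul_pow, ← pow_mul]
    ring
  · calc (1 - X) ^ m * ((1 - X) ^ pre * g) * U ^ m = (U * (1 - X)) ^ m * ((1 - X) ^ pre * g) := by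
          rw [mul_pow]; ring
      _ = (1 - X) ^ pre * g := by rw [U_mul, one_pow, one_mul]
  · rw [map_mul, ← coeff_zero_eq_constantCoeff_apply (φ := g), h0, map_pow]
    simp

end

end Pool.Agent.Q35.Auto
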