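import Mathlib
import Pool.Agent.Q35.Auto

/-!
Kernel friendly variants of the checks in `Auto`.
-/

namespace Pool.Agent.Q35.Auto

open PowerSeries Pool.Agent.Q35

/-- continuation passing version of `sufs` -/
def sufsK {α : Type} (M c : ℕ) : ℕ → List ℕ → (List ℕ → ℕ → α) → α
  | 0, _, κ => κ [] 0
  | k + 1, r, κ => sufsK M c k r.tail fun o s =>
    force ((c + (M - s)) % M) fun x => force ((r.headD 0 + s) % M) fun y => κ (x :: o) y

theorem sufsK_eq {α : Type} (M c : ℕ) : ∀ (k : ℕ) (r : List ℕ) (κ : List ℕ → ℕ → α),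
    sufsK M c k r κ = κ (sufs M c k r).1 (sufs M c k r).2 := by
  intro k
  induction k with
  | zero => intro r κ; rfl
  | succ k ih =>
    intro r κ
    simp only [sufsK, ih, sufs, force_eq]

/-- fast `mulU` -/
def mulU' (M b : ℕ) : ℕ → List (List ℕ) → List (List ℕ)
  | c, [] => [List.replicate b c]
  | c, r :: l => sufsK M c b r fun x y => x :: mulU' M b y l

theorem mulU'_eq (M b : ℕ) (l : List (List ℕ)) : ∀ c, mulU' M b c l = mulU M b c l := by
  induction l with
  | nil => intro c; rfl
  | cons r l ih =>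
    intro c
    simp only [mulU', sufsK_eq, mulU, ih]

/-- forces a list of numbers -/
def forceN {α : Type} : List ℕ → (List ℕ → α) → α
  | [], k => k []
  | a :: l, k => force a fun a' => forceN l fun l' => k (a' :: l')

theorem forceN_eq {α : Type} (l : List ℕ) : ∀ (k : List ℕ → α), forceN l k = k l := by
  induction l with
  | nil => intro k; rfl
  | cons a l ih => intro k; simp only [forceN, force_eq, ih]

/-- forces a list of rows -/
def forceL {α : Type} : List (List ℕ) → (List (List ℕ) → α) → α
  | [], k => k []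
  | r :: l, k => forceN r fun r' => forceL l fun l' => k (r' :: l')

theorem forceL_eq {α : Type} (l : List (List ℕ)) : ∀ (k : List (List ℕ) → α),
    forceL l k = k l := by
  induction l with
  | nil => intro k; rfl
  | cons a l ih => intro k; simp only [forceL, forceN_eq, ih]

/-- fast `mulUn` -/
def mulUn' (M b : ℕ) : ℕ → List (List ℕ) → List (List ℕ)
  | 0, f => f
  | n + 1, f => forceL (mulU' M b 0 f) fun f' => mulUn' M b n f'

theorem mulUn_comm (M b n : ℕ) (f : List (List ℕ)) :
    mulUn M b n (mulU M b 0 f) = mulU M b 0 (mulUn M b n f) := by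
  induction n with
  | zero => rfl
  | succ n ih => rw [mulUn, ih, mulUn]

theorem mulUn'_eq (M b n : ℕ) : ∀ f : List (List ℕ), mulUn' M b n f = mulUn M b n f := by
  induction n with
  | zero => intro f; rfl
  | succ n ih =>
    intro f
    rw [mulUn', forceL_eq, ih, mulU'_eq, mulUn_comm, mulUn]

/-- fast `horner` -/
def horner' (M b : ℕ) : List ℕ → List (List ℕ)
  | [] => []
  | a :: l => forceL (horner' M b l) fun h => addHead M a (mulU' M b 0 h)

theorem horner'_eq (M b : ℕ) (l : List ℕ) : horner' M b l = horner M b l := by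
  induction l with
  | nil => rfl
  | cons a l ih => rw [horner', forceL_eq, mulU'_eq, ih, horner]

/-- fast `chkN` -/
def chkN' (M b m e : ℕ) (good : ℕ → Bool) (N : List (List ℕ)) (P : List ℕ) : Bool :=
  good (tot M P) && forceL (mulUn' M b e (horner' M b P)) fun rows => colsIn m rows N 0 b

theorem chkN'_eq (M b m e : ℕ) (good : ℕ → Bool) (N : List (List ℕ)) (P : List ℕ) :
    chkN' M b m e good N P = chkN M b m e good N P := by
  rw [chkN', chkN, forceL_eq, mulUn'_eq, horner'_eq]

/-- fast `chkZ` -/
def chkZ' (M b m e : ℕ) (Z N : List (List ℕ)) (P : List ℕ) : Bool :=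
  forceL (mulUn' M b e (horner' M b P)) fun rows =>
    inN m (col 0 rows) Z && colsIn m rows N 1 (b - 1)

theorem chkZ'_eq (M b m e : ℕ) (Z N : List (List ℕ)) (P : List ℕ) :
    chkZ' M b m e Z N P = chkZ M b m e Z N P := by
  rw [chkZ', chkZ, forceL_eq, mulUn'_eq, horner'_eq]

/-- fast check -/
def check' (M b m e : ℕ) (good : ℕ → Bool) (Z N : List (List ℕ)) : Bool :=
  N.all (chkN' M b m e good N) && Z.all (chkZ' M b m e Z N)

theorem check'_eq (M b m e : ℕ) (good : ℕ → Bool) (Z N : List (List ℕ)) :
    check' M b m e good Z N = check M b m e good Z N := by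
  unfold check' check
  have h1 : chkN' M b m e good N = chkN M b m e good N := funext (chkN'_eq M b m e good N)
  have h2 : chkZ' M b m e Z N = chkZ M b m e Z N := funext (chkZ'_eq M b m e Z N)
  rw [h1, h2]

/-- first step with another power of `U` -/
theorem first_step {M b : ℕ} [NeZero b] (hM : 0 < M) {m e : ℕ} (A B f : PowerSeries (ZMod M))
    (hf : f = E b B * U ^ e) (hB : B * U ^ m = A) (N : List (List ℕ))
    (h : colsIn m (mulUn M b e (horner M b [1])) N 0 b = true) (n : ℕ) :
    ∃ Q ∈ N, coeff n f = coeff (n / b) (evU M Q * A) := by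
  have hb0 : 0 < b := Nat.pos_of_ne_zero (NeZero.ne b)
  have hd : n % b < b := Nat.mod_lt n hb0
  have h1 := colsIn_spec m _ N b 0 h (n % b) (Nat.zero_le _) (by omega)
  obtain ⟨Q, hQ, hQ2⟩ := inN_spec (M := M) m _ N h1
  refine ⟨Q, hQ, ?_⟩
  have h2 : f = ev M b (mulUn M b e (horner M b [1])) * E b B := by
    rw [ev_mulUn hM, ev_horner hM, hf]
    simp [evU]
    ring
  have h3 := coeff_E_rows (M := M) B (mulUn M b e (horner M b [1])) (n / b) (n % b) hd
  rw [Nat.div_add_mod] at h3
  rw [h2, h3, hQ2, ← hB]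
  congr 1
  ring

end Pool.Agent.Q35.Auto
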