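import Mathlib
import Pool.Agent.Q35.AutoFast

/-!
Table driven variant of the automaton check.
-/

namespace Pool.Agent.Q35.Auto

open PowerSeries Pool.Agent.Q35

/-- `a * t + r` modulo `M` -/
def addMul (M a : ℕ) : List ℕ → List ℕ → List ℕ
  | [], r => r
  | t :: ts, [] => force ((a * t) % M) fun x => x :: addMul M a ts []
  | t :: ts, y :: ys => force ((a * t + y) % M) fun x => x :: addMul M a ts ys

/-- linear combination -/
def lc (M : ℕ) : List ℕ → List (List ℕ) → List ℕ
  | a :: P, t :: T => forceN (lc M P T) fun r => addMul M a t r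
  | _, _ => []

/-- comparison of the columns with a table entry -/
def colsEq (m : ℕ) (rows : List (List ℕ)) : ℕ → List (List ℕ) → Bool
  | _, [] => true
  | d, t :: ts =>
    forceN (col d rows) (fun c => allZ (c.take m) && eqT (c.drop m) t) && colsEq m rows (d + 1) ts

/-- comparison of all table entries -/
def tabCheck (M b m : ℕ) : List (List ℕ) → List (List (List ℕ)) → Bool
  | _, [] => true
  | rows, t :: ts =>
    Nat.beq t.length b && colsEq m rows 0 t &&
      forceL (mulU' M b 0 rows) fun rows' => tabCheck M b m rows' ts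

/-- all sections `d < k` of a state lie in `N` -/
def secsIn (M : ℕ) (Tab : List (List (List ℕ))) (P : List ℕ) (N : List (List ℕ)) : ℕ → ℕ → Bool
  | _, 0 => true
  | d, k + 1 =>
    forceN (lc M P (Tab.map fun t => t.getD d [])) (fun c => memT c N) &&
      secsIn M Tab P N (d + 1) k

/-- check of a state of class `N` -/
def chkNT (M b : ℕ) (good : ℕ → Bool) (Tab : List (List (List ℕ))) (N : List (List ℕ))
    (P : List ℕ) : Bool :=
  good (tot M P) && Nat.ble P.length Tab.length && secsIn M Tab P N 0 b

/-- check of a state of class `Z` -/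
def chkZT (M b : ℕ) (Tab : List (List (List ℕ))) (Z N : List (List ℕ)) (P : List ℕ) : Bool :=
  Nat.ble P.length Tab.length && secsIn M Tab P Z 0 1 && secsIn M Tab P N 1 (b - 1)

section

variable {M b : ℕ} [NeZero b]

theorem evU_addMul (a : ℕ) : ∀ t r : List ℕ,
    evU M (addMul M a t r) = C (a : ZMod M) * evU M t + evU M r := by
  intro t
  induction t with
  | nil => intro r; simp [addMul, evU]
  | cons x t ih =>
    intro r
    cases r with
    | nil =>
      simp only [addMul, force_eq, evU, ih, ZMod.natCast_mod, Nat.cast_mul, map_mul, add_zero]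
      ring
    | cons y r =>
      simp only [addMul, force_eq, evU, ih, ZMod.natCast_mod, Nat.cast_mul, Nat.cast_add, map_add,
        map_mul]
      ring

/-- sections of power series -/
noncomputable def sec (b d : ℕ) (F : PowerSeries (ZMod M)) : PowerSeries (ZMod M) :=
  mk fun n => coeff (b * n + d) F

omit [NeZero b] in
theorem sec_add (d : ℕ) (F G : PowerSeries (ZMod M)) :
    sec b d (F + G) = sec b d F + sec b d G := by
  ext n; simp [sec]

omit [NeZero b] in
theorem sec_zero (d : ℕ) : sec b d (0 : PowerSeries (ZMod M)) = 0 := by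
  ext n; simp [sec]

omit [NeZero b] in
theorem sec_C_mul (d : ℕ) (a : ZMod M) (F : PowerSeries (ZMod M)) :
    sec b d (C a * F) = C a * sec b d F := by
  ext n; simp [sec]

theorem sec_ev (d : ℕ) (hd : d < b) (rows : List (List ℕ)) :
    sec b d (ev M b rows) = evU M (col d rows) := by
  ext n
  have := coeff_E_rows (M := M) (b := b) 1 rows n d hd
  rw [map_one, mul_one, mul_one] at this
  rw [sec, coeff_mk, this]

theorem sec_state (hM : 0 < M) (e d : ℕ) (hd : d < b) (P : List ℕ) :
    evU M (col d (mulUn M b e (horner M b P))) = sec b d (U ^ e * evU M P) := by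
  rw [← sec_ev d hd, ev_mulUn hM, ev_horner hM]

theorem sec_lc (m d : ℕ) : ∀ (P : List ℕ) (T : List (List ℕ)) (e : ℕ), P.length ≤ T.length →
    (∀ i, (h : i < T.length) → sec b d (U ^ (e + i) : PowerSeries (ZMod M)) = U ^ m * evU M T[i]) →
    sec b d (U ^ e * evU M P) = U ^ m * evU M (lc M P T) := by
  intro P
  induction P with
  | nil =>
    intro T e _ _
    have : lc M [] T = [] := by cases T <;> rfl
    rw [this]
    simp [evU, sec_zero]
  | cons a P ih =>
    intro T e hl h
    cases T with
    | nil => simp at hl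
    | cons t T =>
      rw [lc, forceN_eq, evU_addMul, evU]
      have h1 : U ^ e * (C (a : ZMod M) + U * evU M P) =
          C (a : ZMod M) * U ^ e + U ^ (e + 1) * evU M P := by ring
      rw [h1, sec_add, sec_C_mul]
      have h0 := h 0 (by simp)
      rw [add_zero] at h0
      simp only [List.getElem_cons_zero] at h0
      rw [h0, ih T (e + 1) (by simpa using hl)]
      · ring
      · intro i hi
        have := h (i + 1) (by simpa using hi)
        simp only [List.getElem_cons_succ] at this
        rw [← this]
        congr 2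
        ring

theorem colsEq_spec (m : ℕ) (rows : List (List ℕ)) : ∀ (t : List (List ℕ)) (d : ℕ),
    colsEq m rows d t = true → ∀ j, (h : j < t.length) →
    evU M (col (d + j) rows) = U ^ m * evU M t[j] := by
  intro t
  induction t with
  | nil => intro d _ j h; simp at h
  | cons x t ih =>
    intro d hc j hj
    simp only [colsEq, forceN_eq, Bool.and_eq_true] at hc
    obtain ⟨⟨h1, h2⟩, h3⟩ := hc
    cases j with
    | zero =>
      simp only [add_zero, List.getElem_cons_zero]
      rw [take_drop m _ h1, eqT_spec _ _ h2]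
    | succ j =>
      have := ih (d + 1) h3 j (by simpa using hj)
      simp only [List.getElem_cons_succ]
      rw [← this]
      congr 2
      ring

theorem tabCheck_spec (hM : 0 < M) (m : ℕ) : ∀ (Tab : List (List (List ℕ)))
    (rows : List (List ℕ)) (e : ℕ), ev M b rows = U ^ e → tabCheck M b m rows Tab = true →
    ∀ d, d < b → ∀ i, (h : i < Tab.length) →
    sec b d (U ^ (e + i) : PowerSeries (ZMod M)) = U ^ m * evU M (Tab[i].getD d []) := by
  intro Tab
  induction Tab with
  | nil => intro rows e _ _ d _ i h; simp at h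
  | cons t Tab ih =>
    intro rows e hrows hc d hd i hi
    simp only [tabCheck, forceL_eq, Bool.and_eq_true, Nat.beq_eq] at hc
    obtain ⟨⟨h1, h2⟩, h3⟩ := hc
    cases i with
    | zero =>
      have h4 := colsEq_spec (M := M) m rows t 0 h2 d (by omega)
      rw [zero_add] at h4
      simp only [add_zero, List.getElem_cons_zero]
      rw [List.getD_eq_getElem _ _ (by omega), ← h4, ← hrows, sec_ev d hd]
    | succ i =>
      have h5 : ev M b (mulU' M b 0 rows) = U ^ (e + 1) := by
        rw [mulU'_eq, ev_mulU hM, hrows]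
        simp only [Nat.cast_zero, map_zero, zero_mul, zero_add]
        rw [pow_succ]; ring
      have := ih _ (e + 1) h5 h3 d hd i (by simpa using hi)
      simp only [List.getElem_cons_succ]
      rw [← this]
      congr 2
      ring

/-- what the table provides -/
def TabOK (M b m e : ℕ) [NeZero b] (Tab : List (List (List ℕ))) : Prop :=
  ∀ d, d < b → ∀ i, (h : i < Tab.length) →
    sec b d (U ^ (e + i) : PowerSeries (ZMod M)) = U ^ m * evU M (Tab[i].getD d [])

theorem tabOK_of (hM : 0 < M) (m e : ℕ) (Tab : List (List (List ℕ)))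
    (h : tabCheck M b m (mulUn' M b e [[1]]) Tab = true) : TabOK M b m e Tab := by
  have hb : ∃ k, b = k + 1 := ⟨b - 1, by have := NeZero.ne b; omega⟩
  apply tabCheck_spec hM m Tab _ e _ h
  rw [mulUn'_eq, ev_mulUn hM]
  have h0 := ev_horner (M := M) (b := b) hM [1]
  have h1 : ev M b (horner M b [1]) = ev M b [[1]] := by
    rw [horner, ev_addHead, horner, mulU]
    have := ev_addHead (M := M) (b := b) 1 []
    rw [addHead] at this
    rw [this]
    congr 1
    simp only [ev]
    rw [rowS_replicate 0 b b le_rfl]
    simp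
  rw [← h1, h0]
  simp [evU]

theorem secsIn_spec (Tab : List (List (List ℕ))) (P : List ℕ) (N : List (List ℕ)) (k : ℕ) :
    ∀ d, secsIn M Tab P N d k = true → ∀ j, d ≤ j → j < d + k →
    memT (lc M P (Tab.map fun t => t.getD j [])) N = true := by
  induction k with
  | zero => intro d _ j h1 h2; omega
  | succ k ih =>
    intro d h j h1 h2
    simp only [secsIn, forceN_eq, Bool.and_eq_true] at h
    rcases Nat.eq_or_lt_of_le h1 with h3 | h3
    · rw [← h3]; exact h.1
    · exact ih (d + 1) h.2 j (by omega) (by omega)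

theorem sec_tab (m e : ℕ) (Tab : List (List (List ℕ)))
    (hT : TabOK M b m e Tab) (P : List ℕ) (hP : P.length ≤ Tab.length) (d : ℕ) (hd : d < b) :
    sec b d (U ^ e * evU M P) = U ^ m * evU M (lc M P (Tab.map fun t => t.getD d [])) := by
  apply sec_lc
  · simpa using hP
  · intro i hi
    have hi' : i < Tab.length := by simpa using hi
    rw [hT d hd i hi']
    simp

theorem chkNT_all (hM : 0 < M) {m e : ℕ} {A : PowerSeries (ZMod M)} (hA : Ser M b m e A)
    (hb : 2 ≤ b) (good : ℕ → Bool) (Tab : List (List (List ℕ))) (hT : TabOK M b m e Tab)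
    (N : List (List ℕ)) (h : ∀ P ∈ N, chkNT M b good Tab N P = true) :
    ∀ n, ∀ P ∈ N, ∃ v, good v = true ∧ coeff n (evU M P * A) = (v : ZMod M) := by
  intro n
  induction n using Nat.strong_induction_on with
  | _ n ih =>
    intro P hP
    have hc := h P hP
    simp only [chkNT, Bool.and_eq_true, Nat.ble_eq] at hc
    rcases Nat.eq_zero_or_pos n with rfl | hn
    · refine ⟨tot M P, hc.1.1, ?_⟩
      rw [coeff_zero_eq_constantCoeff_apply, map_mul, hA.const, mul_one, evU_const]
    · have hb0 : 0 < b := by omega
      have hd : n % b < b := Nat.mod_lt n hb0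
      have h1 := secsIn_spec (M := M) Tab P N b 0 hc.2 (n % b) (Nat.zero_le _) (by omega)
      obtain ⟨Q, hQ, hQ2⟩ := memT_spec (M := M) _ N h1
      have h3 := sec_tab m e Tab hT P hc.1.2 (n % b) hd
      have h2 := section_eq hM hA P Q (n % b) hd (by rw [sec_state hM e _ hd, h3, hQ2]) (n / b)
      rw [Nat.div_add_mod] at h2
      rw [h2]
      exact ih (n / b) (Nat.div_lt_self hn (by omega)) Q hQ

theorem chkZT_all (hM : 0 < M) {m e : ℕ} {A : PowerSeries (ZMod M)} (hA : Ser M b m e A)
    (hb : 2 ≤ b) (good : ℕ → Bool) (Tab : List (List (List ℕ))) (hT : TabOK M b m e Tab)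
    (Z N : List (List ℕ)) (h : ∀ P ∈ N, chkNT M b good Tab N P = true)
    (hz : ∀ P ∈ Z, chkZT M b Tab Z N P = true) :
    ∀ n, 1 ≤ n → ∀ P ∈ Z, ∃ v, good v = true ∧ coeff n (evU M P * A) = (v : ZMod M) := by
  have hN := chkNT_all hM hA hb good Tab hT N h
  intro n
  induction n using Nat.strong_induction_on with
  | _ n ih =>
    intro hn P hP
    have hc := hz P hP
    simp only [chkZT, Bool.and_eq_true, Nat.ble_eq] at hc
    have hb0 : 0 < b := by omega
    have hd : n % b < b := Nat.mod_lt n hb0
    rcases Nat.eq_zero_or_pos (n % b) with h0 | h0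
    · have h1 := secsIn_spec (M := M) Tab P Z 1 0 hc.1.2 0 le_rfl (by omega)
      obtain ⟨Q, hQ, hQ2⟩ := memT_spec (M := M) _ Z h1
      have h3 := sec_tab m e Tab hT P hc.1.1 0 hb0
      have h2 := section_eq hM hA P Q 0 hb0 (by rw [sec_state hM e _ hb0, h3, hQ2]) (n / b)
      rw [← h0, Nat.div_add_mod] at h2
      rw [h2]
      apply ih (n / b) (Nat.div_lt_self hn (by omega)) _ Q hQ
      have h3 := Nat.div_add_mod n b
      rcases Nat.eq_zero_or_pos (n / b) with h4 | h4
      · rw [h4, h0] at h3; omega
      · exact h4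
    · have h1 := secsIn_spec (M := M) Tab P N (b - 1) 1 hc.2 (n % b) h0 (by omega)
      obtain ⟨Q, hQ, hQ2⟩ := memT_spec (M := M) _ N h1
      have h3 := sec_tab m e Tab hT P hc.1.1 (n % b) hd
      have h2 := section_eq hM hA P Q (n % b) hd (by rw [sec_state hM e _ hd, h3, hQ2]) (n / b)
      rw [Nat.div_add_mod] at h2
      rw [h2]
      exact hN (n / b) Q hQ

end

end Pool.Agent.Q35.Auto
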