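import Mathlib
import Pool.Agent.Q35.Col

/-!
The 2-adic valuation of `S 4 t n` when `4 ∣ t`.
-/

namespace Pool.Agent.Q35

open PowerSeries

/-- the logarithmic coefficients modulo `4` -/
def lf (n : ℕ) : ℤ :=
  if n = 0 then 0 else if padicValNat 2 n % 2 = 0 then 2 else
    if (n / 2 ^ padicValNat 2 n) % 4 = 1 then 1 else -1

/-- the periodic part -/
def df (n : ℕ) : ℤ :=
  if n % 8 = 1 then 2 else if n % 8 = 2 then 1 else if n % 8 = 3 then 2 else
    if n % 8 = 5 then 2 else if n % 8 = 6 then -1 else if n % 8 = 7 then 2 else 0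

theorem lf_mul_four (k : ℕ) : lf (4 * k) = lf k := by
  have : Fact (Nat.Prime 2) := ⟨Nat.prime_two⟩
  unfold lf
  by_cases hk : k = 0
  · subst hk; rfl
  · have h4 : padicValNat 2 (4 * k) = 2 + padicValNat 2 k := by
      rw [show 4 * k = 2 ^ 2 * k by ring, padicValNat.mul (by norm_num) hk, padicValNat.prime_pow]
    rw [if_neg hk, if_neg (by omega), h4, pow_add]
    have : 4 * k / (2 ^ 2 * 2 ^ padicValNat 2 k) = k / 2 ^ padicValNat 2 k := by
      rw [show (4 : ℕ) * k = 2 ^ 2 * k by ring, Nat.mul_div_mul_left _ _ (by norm_num)]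
    rw [this]
    have h2 : (2 + padicValNat 2 k) % 2 = padicValNat 2 k % 2 := by omega
    rw [h2]

theorem lf_df (n : ℕ) : lf n = df n + if 4 ∣ n then lf (n / 4) else 0 := by
  have : Fact (Nat.Prime 2) := ⟨Nat.prime_two⟩
  by_cases h : 4 ∣ n
  · obtain ⟨k, rfl⟩ := h
    rw [if_pos (dvd_mul_right 4 k), lf_mul_four, Nat.mul_div_cancel_left k (by norm_num)]
    have : df (4 * k) = 0 := by
      unfold df
      have : (4 * k) % 8 = 0 ∨ (4 * k) % 8 = 4 := by omega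
      rcases this with h | h <;> rw [h] <;> norm_num
    rw [this, zero_add]
  · rw [if_neg h, add_zero]
    have hn : n ≠ 0 := by rintro rfl; exact h (dvd_zero 4)
    rcases Nat.even_or_odd' n with ⟨k, hk | hk⟩
    · have hv : padicValNat 2 n = 1 := by
        rw [hk, padicValNat.mul (by norm_num) (by omega), padicValNat.self (by norm_num),
          padicValNat.eq_zero_of_not_dvd (by omega)]
      unfold lf
      rw [if_neg hn, hv, if_neg (by norm_num)]
      have h3 : n % 8 = 2 ∨ n % 8 = 6 := by omega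
      rcases h3 with h4 | h4
      · rw [if_pos (by omega)]
        unfold df; rw [h4]; norm_num
      · rw [if_neg (by omega)]
        unfold df; rw [h4]; norm_num
    · have hv : padicValNat 2 n = 0 := by
        apply padicValNat.eq_zero_of_not_dvd; omega
      unfold lf
      rw [if_neg hn, hv, if_pos (by norm_num)]
      have h3 : n % 8 = 1 ∨ n % 8 = 3 ∨ n % 8 = 5 ∨ n % 8 = 7 := by omega
      rcases h3 with h4 | h4 | h4 | h4 <;> unfold df <;> rw [h4] <;> norm_num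

/-- the series with coefficients `lf` -/
noncomputable def L (R : Type*) [CommRing R] : PowerSeries R := mk fun n => (lf n : R)

/-- the series with coefficients `df` -/
noncomputable def D (R : Type*) [CommRing R] : PowerSeries R := mk fun n => (df n : R)

variable (R : Type*) [CommRing R]

theorem L_eq : L R = D R + E 4 (L R) := by
  ext n
  rw [map_add, coeff_E, L, D, coeff_mk, coeff_mk, lf_df]
  push_cast
  congr 1
  split_ifs
  · rw [coeff_mk]
  · simp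

theorem D_eq : D R * (1 - X ^ 8) =
    2 * X + X ^ 2 + 2 * X ^ 3 + 2 * X ^ 5 - X ^ 6 + 2 * X ^ 7 := by
  ext n
  rw [mul_sub, mul_one, map_sub, coeff_mul_X_pow']
  have hR : coeff n (2 * X + X ^ 2 + 2 * X ^ 3 + 2 * X ^ 5 - X ^ 6 + 2 * X ^ 7 : PowerSeries R) =
      2 * (if n = 1 then 1 else 0) + (if n = 2 then 1 else 0) + 2 * (if n = 3 then 1 else 0) +
      2 * (if n = 5 then 1 else 0) - (if n = 6 then 1 else 0) + 2 * (if n = 7 then 1 else 0) := by
    have h2 : (2 : PowerSeries R) = C 2 := rfl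
    simp only [h2, map_add, map_sub, coeff_C_mul, coeff_X_pow, coeff_X]
  rw [hR]
  rcases Nat.lt_or_ge n 8 with h | h
  · rw [if_neg (by omega)]
    interval_cases n <;> simp [D, df]
  · rw [if_pos h]
    have e1 : (n - 8) % 8 = n % 8 := by omega
    have : coeff (n - 8) (D R) = coeff n (D R) := by
      rw [D, coeff_mk, coeff_mk]
      unfold df
      rw [e1]
    rw [this, sub_self]
    have g1 : ¬ n = 1 := by omega
    have g2 : ¬ n = 2 := by omega
    have g3 : ¬ n = 3 := by omega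
    have g5 : ¬ n = 5 := by omega
    have g6 : ¬ n = 6 := by omega
    have g7 : ¬ n = 7 := by omega
    simp only [if_neg g1, if_neg g2, if_neg g3, if_neg g5, if_neg g6, if_neg g7]
    ring

theorem func32 : (1 + 8 * L (ZMod 32)) =
    (U ^ 4 * (1 - X ^ 4)) ^ 4 * E 4 (1 + 8 * L (ZMod 32)) := by
  have h32 : (32 : PowerSeries (ZMod 32)) = 0 := by
    have : (32 : PowerSeries (ZMod 32)) = C 32 := rfl
    rw [this, show (32 : ZMod 32) = 0 from by decide, map_zero]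
  have hL := L_eq (ZMod 32)
  have hD := D_eq (ZMod 32)
  have hU : (U : PowerSeries (ZMod 32)) ^ 16 * (1 - X) ^ 16 = 1 := by
    rw [← mul_pow, U_mul, one_pow]
  set Lf := L (ZMod 32)
  set Df := D (ZMod 32)
  have hE : E 4 (1 + 8 * Lf) = 1 + 8 * E 4 Lf := by
    rw [map_add, map_one, map_mul]
    congr 2
    exact map_ofNat (E 4) 8
  rw [hE]
  set M := E 4 Lf
  -- the key identity
  have key : ((1 + 8 * Lf) * (1 - X) ^ 16 - (1 - X ^ 4) ^ 4 * (1 + 8 * M)) * (1 - X ^ 8) = 0 := by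
    have e1 : ((1 - X) ^ 16 - (1 - X ^ 4) ^ 4 : PowerSeries (ZMod 32)) = 4 * ((-4) * X ^ 1 +
      (30) * X ^ 2 + (-140) * X ^ 3 + (456) * X ^ 4 + (-1092) * X ^ 5 + (2002) * X ^ 6 +
      (-2860) * X ^ 7 + (3216) * X ^ 8 + (-2860) * X ^ 9 + (2002) * X ^ 10 + (-1092) * X ^ 11 +
      (456) * X ^ 12 + (-140) * X ^ 13 + (30) * X ^ 14 + (-4) * X ^ 15) := by ring
    have e2 : (((1 - X) ^ 16 - (1 - X ^ 4) ^ 4) * (1 - X ^ 8) + 8 * (2 * X + X ^ 2 + 2 * X ^ 3 +
      2 * X ^ 5 - X ^ 6 + 2 * X ^ 7) * (1 - X) ^ 16 : PowerSeries (ZMod 32)) = 32 * (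
      (-4) * X ^ 2 + (39) * X ^ 3 + (-201) * X ^ 4 + (694) * X ^ 5 + (-1767) * X ^ 6 +
      (3529) * X ^ 7 + (-5818) * X ^ 8 + (8332) * X ^ 9 + (-10895) * X ^ 10 + (13466) * X ^ 11 +
      (-15808) * X ^ 12 + (17240) * X ^ 13 + (-16913) * X ^ 14 + (14486) * X ^ 15 +
      (-10566) * X ^ 16 + (6420) * X ^ 17 + (-3177) * X ^ 18 + (1247) * X ^ 19 + (-375) * X ^ 20 +
      (82) * X ^ 21 + (-12) * X ^ 22 + (1) * X ^ 23) := by ring
    have e3 : ((1 + 8 * Lf) * (1 - X) ^ 16 - (1 - X ^ 4) ^ 4 * (1 + 8 * M)) * (1 - X ^ 8) =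
        (((1 - X) ^ 16 - (1 - X ^ 4) ^ 4) * (1 - X ^ 8) + 8 * (Df * (1 - X ^ 8)) * (1 - X) ^ 16) +
        8 * M * ((1 - X) ^ 16 - (1 - X ^ 4) ^ 4) * (1 - X ^ 8) := by
      rw [hL]; ring
    rw [e3, hD, e2, e1, h32]
    have e4 : ∀ Y : PowerSeries (ZMod 32), 8 * M * (4 * Y) * (1 - X ^ 8) = 32 * (M * Y * (1 - X ^ 8)) := by
      intro Y; ring
    rw [e4, h32]
    ring
  have hu : IsUnit ((1 - X ^ 8 : PowerSeries (ZMod 32)) ^ 1) := isUnit_one_sub_X_pow 8 1 (by norm_num)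
  rw [pow_one] at hu
  have key2 := (hu.mul_left_eq_zero).mp key
  have key3 : (1 + 8 * Lf) * (1 - X) ^ 16 = (1 - X ^ 4) ^ 4 * (1 + 8 * M) := sub_eq_zero.mp key2
  calc (1 + 8 * Lf) = (1 + 8 * Lf) * (U ^ 16 * (1 - X) ^ 16) := by rw [hU, mul_one]
    _ = U ^ 16 * ((1 + 8 * Lf) * (1 - X) ^ 16) := by ring
    _ = _ := by rw [key3]; ring

theorem S44 (n : ℕ) (hn : 1 ≤ n) : (S 4 4 n : ℤ) ≡ 8 * lf n [ZMOD 32] := by
  have h := S_spec (R := ZMod 32) (b := 4) (by norm_num) 4 (1 + 8 * L (ZMod 32)) func32 (by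
    have h8 : (8 : PowerSeries (ZMod 32)) = C 8 := rfl
    rw [h8, map_add, coeff_C_mul, L, coeff_mk]
    simp [lf]) n
  have h8 : (8 : PowerSeries (ZMod 32)) = C 8 := rfl
  rw [h8, map_add, coeff_C_mul, L, coeff_mk, coeff_one, if_neg (by omega), zero_add] at h
  have h5 := (ZMod.intCast_eq_intCast_iff (S 4 4 n : ℤ) (8 * lf n) 32).mp (by push_cast; exact h)
  exact_mod_cast h5

/-- powers -/
theorem pow_two_form (Z : PowerSeries ℤ) (b : ℕ) : ∃ K : PowerSeries ℤ,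
    (1 + 8 * Z) ^ (2 ^ b) = 1 + 2 ^ (b + 3) * (Z + 4 * K) := by
  induction b with
  | zero => exact ⟨0, by ring⟩
  | succ b ih =>
    obtain ⟨K, hK⟩ := ih
    refine ⟨K + 2 ^ b * (Z + 4 * K) ^ 2, ?_⟩
    rw [pow_succ, pow_mul, hK]
    ring

theorem pow_odd_form (Z : PowerSeries ℤ) (b c : ℕ) : ∃ K : PowerSeries ℤ,
    (1 + 2 ^ (b + 3) * Z) ^ c = 1 + 2 ^ (b + 3) * (c * Z + 4 * K) := by
  induction c with
  | zero => exact ⟨0, by simp⟩
  | succ c ih =>
    obtain ⟨K, hK⟩ := ih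
    refine ⟨K + 2 ^ (b + 1) * (c * Z + 4 * K) * Z, ?_⟩
    rw [pow_succ, hK]
    push_cast
    ring

theorem S_four (b c n : ℕ) (hn : 1 ≤ n) :
    ∃ k : ℤ, (S 4 (4 * (2 ^ b * c)) n : ℤ) = 2 ^ (b + 3) * (c * lf n + 4 * k) := by
  obtain ⟨g, hg, h0⟩ := exists_S (R := ℤ) (b := 4) (by norm_num) 4
  obtain ⟨h1, h2⟩ := pow_S 4 (2 ^ b * c) g hg h0
  have hS := S_spec (R := ℤ) (b := 4) (by norm_num) (4 * (2 ^ b * c)) _ h1 h2 n
  -- write `g = 1 + 8 (L + 4 K)`
  have hk : ∀ n : ℕ, ∃ k : ℤ, coeff n g = coeff n (1 + 8 * L ℤ) + 32 * k := by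
    intro n
    have h8 : (8 : PowerSeries ℤ) = C 8 := rfl
    rcases Nat.eq_zero_or_pos n with rfl | hn
    · refine ⟨0, ?_⟩
      rw [h0, h8, map_add, coeff_C_mul, L, coeff_mk]
      simp [lf]
    · have h3 := S44 n hn
      rw [S_spec (R := ℤ) (b := 4) (by norm_num) 4 g hg h0 n] at h3
      obtain ⟨k, hk⟩ := h3.dvd
      refine ⟨-k, ?_⟩
      rw [h8, map_add, coeff_C_mul, L, coeff_mk, coeff_one, if_neg (by omega)]
      simp only [Int.cast_id]
      linarith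
  choose kf hkf using hk
  have hgK : g = 1 + 8 * (L ℤ + 4 * mk kf) := by
    ext n
    have e : (1 + 8 * (L ℤ + 4 * mk kf) : PowerSeries ℤ) = (1 + 8 * L ℤ) + C 32 * mk kf := by
      have : (C 32 : PowerSeries ℤ) = 32 := rfl
      rw [this]; ring
    rw [e, map_add, coeff_C_mul, coeff_mk, hkf]
  obtain ⟨K1, hK1⟩ := pow_two_form (L ℤ + 4 * mk kf) b
  obtain ⟨K2, hK2⟩ := pow_odd_form (L ℤ + 4 * mk kf + 4 * K1) b c
  have hfin : g ^ (2 ^ b * c) = 1 + C (2 ^ (b + 3)) * (C (c : ℤ) * L ℤ + C 4 * (C (c : ℤ) * (mk kf + K1) + K2)) := by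
    rw [pow_mul, hgK, hK1, hK2]
    have h4 : (C 4 : PowerSeries ℤ) = 4 := rfl
    have hp : (C (2 ^ (b + 3)) : PowerSeries ℤ) = 2 ^ (b + 3) := by
      rw [map_pow]; rfl
    have hc : (C (c : ℤ) : PowerSeries ℤ) = c := by
      exact map_natCast C c
    rw [h4, hp, hc]
    ring
  refine ⟨coeff n (C (c : ℤ) * (mk kf + K1) + K2), ?_⟩
  rw [hS, hfin, map_add, coeff_one, if_neg (by omega), zero_add, coeff_C_mul, map_add, coeff_C_mul,
    coeff_C_mul, L, coeff_mk]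
  simp

theorem padicValNat_of (x e : ℕ) (y : ℤ) (h : (x : ℤ) = 2 ^ e * y) (hy : y % 2 = 1) :
    padicValNat 2 x = e := by
  have : Fact (Nat.Prime 2) := ⟨Nat.prime_two⟩
  have hx : x ≠ 0 := by
    rintro rfl
    have : y = 0 := by
      have h2 : (2 : ℤ) ^ e * y = 0 := by rw [← h]; rfl
      rcases mul_eq_zero.mp h2 with h3 | h3
      · exact absurd h3 (pow_ne_zero _ (by norm_num))
      · exact h3
    omega
  have hd : (2 : ℤ) ^ e ∣ (x : ℤ) := ⟨y, h⟩
  have hnd : ¬ (2 : ℤ) ^ (e + 1) ∣ (x : ℤ) := by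
    rw [h, pow_succ]
    intro h3
    have := (mul_dvd_mul_iff_left (pow_ne_zero e (by norm_num : (2 : ℤ) ≠ 0))).mp h3
    omega
  have hd' : 2 ^ e ∣ x := by exact_mod_cast hd
  have hnd' : ¬ 2 ^ (e + 1) ∣ x := by exact_mod_cast hnd
  rw [padicValNat_dvd_iff_le hx] at hd' hnd'
  omega

/-- the exact valuation of `S 4 t n` for `4 ∣ t` -/
theorem val_S_four (t n : ℕ) (ht : t ≠ 0) (h2 : 2 ≤ padicValNat 2 t) (hn : 1 ≤ n) :
    padicValNat 2 (S 4 t n) =
      padicValNat 2 t + 1 + (if padicValNat 2 n % 2 = 0 then 1 else 0) := by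
  have : Fact (Nat.Prime 2) := ⟨Nat.prime_two⟩
  obtain ⟨c, hc⟩ : 2 ^ padicValNat 2 t ∣ t := pow_padicValNat_dvd
  have hodd : c % 2 = 1 := by
    by_contra h
    have h3 : 2 ^ (padicValNat 2 t + 1) ∣ t := by
      rw [pow_succ]
      conv_rhs => rw [hc]
      exact mul_dvd_mul_left _ (by omega)
    exact pow_succ_padicValNat_not_dvd ht h3
  obtain ⟨b, hb⟩ : ∃ b, padicValNat 2 t = b + 2 := ⟨padicValNat 2 t - 2, by omega⟩
  obtain ⟨k, hk⟩ := S_four b c n hn
  have ht4 : t = 4 * (2 ^ b * c) := by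
    rw [hb, pow_add] at hc
    rw [hc]
    ring
  rw [← ht4] at hk
  rw [hb]
  by_cases hv : padicValNat 2 n % 2 = 0
  · rw [if_pos hv]
    have hl : lf n = 2 := by
      unfold lf
      rw [if_neg (by omega), if_pos hv]
    rw [hl] at hk
    apply padicValNat_of _ (b + 2 + 1 + 1) (c + 2 * k)
    · rw [hk]; ring
    · omega
  · rw [if_neg hv]
    have hl : lf n = 1 ∨ lf n = -1 := by
      unfold lf
      rw [if_neg (by omega), if_neg hv]
      split_ifs
      · left; rfl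
      · right; rfl
    apply padicValNat_of _ (b + 2 + 1 + 0) (c * lf n + 4 * k)
    · rw [hk]
    · rcases hl with h | h <;> rw [h] <;> omega

end Pool.Agent.Q35
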