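import Mathlib
import Pool.Agent.Q35.Four

/-!
The 2-adic valuation of `S 4 m n` for `m` not congruent to `6` modulo `8`.
-/

namespace Pool.Agent.Q35

open PowerSeries

section gen

variable {R : Type*} [CommRing R]

theorem coeff_XE (f : PowerSeries R) (n d j : ℕ) (hd : d < 4) (hj : j < 4) :
    coeff (4 * n + d) (X ^ j * E 4 f) = if d = j then coeff n f else 0 := by
  rw [coeff_X_pow_mul']
  by_cases h : j ≤ 4 * n + d
  · rw [if_pos h, coeff_E]
    by_cases h2 : d = j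
    · subst h2
      rw [if_pos rfl, Nat.add_sub_cancel, if_pos (dvd_mul_right 4 n),
        Nat.mul_div_cancel_left n (by norm_num)]
    · rw [if_neg h2, if_neg]
      omega
  · rw [if_neg h, if_neg (by omega)]

/-- multiplicativity in `m` -/
theorem mul_S {b : ℕ} [NeZero b] (m t : ℕ) (g h : PowerSeries R)
    (hg : g = (U ^ b * (1 - X ^ b)) ^ m * E b g) (hh : h = (U ^ b * (1 - X ^ b)) ^ t * E b h) :
    g * h = (U ^ b * (1 - X ^ b)) ^ (m + t) * E b (g * h) := by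
  conv_lhs => rw [hg, hh]
  rw [pow_add, map_mul]
  ring

theorem mul_zero_coeff (g h : PowerSeries R) (hg : coeff 0 g = 1) (hh : coeff 0 h = 1) :
    coeff 0 (g * h) = 1 := by
  rw [coeff_zero_eq_constantCoeff_apply] at hg hh ⊢
  rw [map_mul, hg, hh, one_mul]

end gen

theorem split (P Q : PowerSeries ℤ) (p q : ℤ) (hP0 : coeff 0 P = 1) (hQ0 : coeff 0 Q = 1)
    (hP : ∀ n, 1 ≤ n → p ∣ coeff n P) (hQ : ∀ n, 1 ≤ n → q ∣ coeff n Q) (n : ℕ) (hn : 1 ≤ n) :
    ∃ r : ℤ, coeff n (P * Q) = coeff n P + coeff n Q + p * q * r := by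
  have form : ∀ (P : PowerSeries ℤ) (p : ℤ), coeff 0 P = 1 → (∀ n, 1 ≤ n → p ∣ coeff n P) →
      ∃ P' : PowerSeries ℤ, P = 1 + C p * P' := by
    intro P p h0 h
    have : ∀ n : ℕ, ∃ k : ℤ, coeff n P = coeff n (1 : PowerSeries ℤ) + p * k := by
      intro n
      rcases Nat.eq_zero_or_pos n with rfl | hn
      · exact ⟨0, by rw [h0]; simp⟩
      · obtain ⟨k, hk⟩ := h n hn
        exact ⟨k, by rw [hk, coeff_one, if_neg (by omega), zero_add]⟩
    choose k hk using this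
    refine ⟨mk k, ?_⟩
    ext n
    rw [map_add, coeff_C_mul, coeff_mk, hk]
  obtain ⟨P', hP'⟩ := form P p hP0 hP
  obtain ⟨Q', hQ'⟩ := form Q q hQ0 hQ
  refine ⟨coeff n (P' * Q'), ?_⟩
  have e : P * Q = C p * P' + C q * Q' + C (p * q) * (P' * Q') + 1 := by
    rw [hP', hQ', map_mul]; ring
  rw [e, map_add, map_add, map_add, coeff_C_mul, coeff_C_mul, coeff_C_mul]
  have e1 : coeff n P = p * coeff n P' := by
    rw [hP', map_add, coeff_C_mul, coeff_one, if_neg (by omega), zero_add]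
  have e2 : coeff n Q = q * coeff n Q' := by
    rw [hQ', map_add, coeff_C_mul, coeff_one, if_neg (by omega), zero_add]
  rw [e1, e2, coeff_one, if_neg (by omega), add_zero]

/-! ### The series for `m = -1` -/

section H

variable (f : PowerSeries ℤ) (hf : f = (1 - X) ^ 3 * E 4 f) (h0 : coeff 0 f = 1)

include hf

theorem digit (n d : ℕ) (hd : d < 4) : coeff (4 * n + d) f =
    (if d = 0 then 1 else if d = 1 then -3 else if d = 2 then 3 else -1) * coeff n f := by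
  have e : f = X ^ 0 * E 4 f + C (-3) * (X ^ 1 * E 4 f) + C 3 * (X ^ 2 * E 4 f) +
      C (-1) * (X ^ 3 * E 4 f) := by
    conv_lhs => rw [hf]
    have h3 : (C 3 : PowerSeries ℤ) = 3 := rfl
    rw [map_neg, map_neg, h3, map_one]
    ring
  conv_lhs => rw [e]
  rw [map_add, map_add, map_add, coeff_C_mul, coeff_C_mul, coeff_C_mul,
    coeff_XE f n d 0 hd (by norm_num), coeff_XE f n d 1 hd (by norm_num),
    coeff_XE f n d 2 hd (by norm_num), coeff_XE f n d 3 hd (by norm_num)]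
  interval_cases d <;> simp

include h0

theorem f_odd (n : ℕ) : coeff n f % 2 = 1 := by
  induction n using Nat.strong_induction_on with
  | _ n ih =>
    rcases Nat.eq_zero_or_pos n with rfl | hn
    · rw [h0]; rfl
    · have h1 := ih (n / 4) (by omega)
      have h2 := digit f hf (n / 4) (n % 4) (by omega)
      rw [Nat.div_add_mod] at h2
      rw [h2]
      split_ifs <;> omega

omit h0 in
theorem hk_four (k : ℕ) (hk : 1 ≤ k) :
    coeff (4 * k) f - coeff (4 * k - 1) f = coeff k f + coeff (k - 1) f ∧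
    coeff (4 * k) f + coeff (4 * k - 1) f = coeff k f - coeff (k - 1) f := by
  have h1 := digit f hf k 0 (by norm_num)
  have h2 := digit f hf (k - 1) 3 (by norm_num)
  have e : 4 * (k - 1) + 3 = 4 * k - 1 := by omega
  rw [e] at h2
  rw [add_zero] at h1
  norm_num at h1 h2
  rw [h1, h2]
  constructor <;> ring

theorem valH (n : ℕ) (hn : 1 ≤ n) :
    ((padicValNat 2 n % 4 = 0 → (coeff n f - coeff (n - 1) f) % 8 = 4) ∧
     (padicValNat 2 n % 4 = 1 → (coeff n f - coeff (n - 1) f) % 4 = 2) ∧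
     (padicValNat 2 n % 4 = 2 → (coeff n f - coeff (n - 1) f) % 4 = 2) ∧
     (padicValNat 2 n % 4 = 3 → (coeff n f - coeff (n - 1) f) = 0)) ∧
    ((padicValNat 2 n % 4 = 0 → (coeff n f + coeff (n - 1) f) % 4 = 2) ∧
     (padicValNat 2 n % 4 = 1 → (coeff n f + coeff (n - 1) f) = 0) ∧
     (padicValNat 2 n % 4 = 2 → (coeff n f + coeff (n - 1) f) % 8 = 4) ∧
     (padicValNat 2 n % 4 = 3 → (coeff n f + coeff (n - 1) f) % 4 = 2)) := by
  have : Fact (Nat.Prime 2) := ⟨Nat.prime_two⟩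
  induction n using Nat.strong_induction_on with
  | _ n ih =>
    obtain ⟨k, d, hd, rfl⟩ : ∃ k d, d < 4 ∧ n = 4 * k + d := ⟨n / 4, n % 4, by omega, by omega⟩
    have hodd := f_odd f hf h0 k
    have g0 := digit f hf k 0 (by norm_num)
    have g1 := digit f hf k 1 (by norm_num)
    have g2 := digit f hf k 2 (by norm_num)
    have g3 := digit f hf k 3 (by norm_num)
    norm_num at g0 g1 g2 g3
    interval_cases d
    · -- multiple of four
      rw [add_zero] at hn ⊢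
      have hk : 1 ≤ k := by omega
      have hv : padicValNat 2 (4 * k) = 2 + padicValNat 2 k := by
        rw [show 4 * k = 2 ^ 2 * k by ring, padicValNat.mul (by norm_num) (by omega),
          padicValNat.prime_pow]
      obtain ⟨e1, e2⟩ := hk_four f hf k hk
      rw [e1, e2, hv]
      obtain ⟨⟨a0, a1, a2, a3⟩, b0, b1, b2, b3⟩ := ih k (by omega) hk
      refine ⟨⟨fun h => b2 (by omega), fun h => b3 (by omega), fun h => b0 (by omega),
        fun h => b1 (by omega)⟩, fun h => a2 (by omega), fun h => a3 (by omega),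
        fun h => a0 (by omega), fun h => a1 (by omega)⟩
    · have hv : padicValNat 2 (4 * k + 1) = 0 := padicValNat.eq_zero_of_not_dvd (by omega)
      rw [Nat.add_sub_cancel, g1, g0, hv]
      omega
    · have hv : padicValNat 2 (4 * k + 2) = 1 := by
        rw [show 4 * k + 2 = 2 * (2 * k + 1) by ring, padicValNat.mul (by norm_num) (by omega),
          padicValNat.self (by norm_num), padicValNat.eq_zero_of_not_dvd (by omega)]
      rw [show 4 * k + 2 - 1 = 4 * k + 1 by omega, g1, g2, hv]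
      omega
    · have hv : padicValNat 2 (4 * k + 3) = 0 := padicValNat.eq_zero_of_not_dvd (by omega)
      rw [show 4 * k + 3 - 1 = 4 * k + 2 by omega, g2, g3, hv]
      omega

end H

theorem exists_f : ∃ f : PowerSeries ℤ, f = (1 - X) ^ 3 * E 4 f ∧ coeff 0 f = 1 := by
  apply exists_func (by norm_num)
  simp

/-- `(1-X) f` is the series for `m = -1` -/
theorem H_mul (f : PowerSeries ℤ) (hf : f = (1 - X) ^ 3 * E 4 f) (m : ℕ) (g : PowerSeries ℤ)
    (hg : g = (U ^ 4 * (1 - X ^ 4)) ^ (m + 1) * E 4 g) :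
    ((1 - X) * f) * g = (U ^ 4 * (1 - X ^ 4)) ^ m * E 4 (((1 - X) * f) * g) := by
  have h1 : (U ^ 4 * (1 - X ^ 4)) * ((1 - X) * f) = E 4 ((1 - X) * f) := by
    have h2 : (U : PowerSeries ℤ) ^ 4 * (1 - X) ^ 4 = 1 := by rw [← mul_pow, U_mul, one_pow]
    rw [map_mul, map_sub, map_one, E_X]
    conv_lhs => rw [hf]
    calc _ = (U ^ 4 * (1 - X) ^ 4) * ((1 - X ^ 4) * E 4 f) := by ring
      _ = _ := by rw [h2, one_mul]
  conv_lhs => rw [hg]
  rw [map_mul (E 4) ((1 - X) * f) g, ← h1, pow_succ]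
  ring

theorem coeff_H (f : PowerSeries ℤ) (n : ℕ) (hn : 1 ≤ n) :
    coeff n ((1 - X) * f) = coeff n f - coeff (n - 1) f := by
  obtain ⟨k, rfl⟩ : ∃ k, n = k + 1 := ⟨n - 1, by omega⟩
  rw [sub_mul, one_mul, map_sub, coeff_succ_X_mul, Nat.add_sub_cancel]

theorem coeff_H0 (f : PowerSeries ℤ) (h0 : coeff 0 f = 1) : coeff 0 ((1 - X) * f) = 1 := by
  rw [sub_mul, one_mul, map_sub, coeff_zero_X_mul, sub_zero, h0]

theorem even_H (f : PowerSeries ℤ) (hf : f = (1 - X) ^ 3 * E 4 f) (h0 : coeff 0 f = 1)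
    (n : ℕ) (hn : 1 ≤ n) : (2 : ℤ) ∣ coeff n ((1 - X) * f) := by
  rw [coeff_H f n hn]
  have h1 := f_odd f hf h0 n
  have h2 := f_odd f hf h0 (n - 1)
  omega

/-- `m ≡ 3 mod 4` -/
theorem val_three (m n : ℕ) (hm : m % 4 = 3) (hn : 1 ≤ n) : padicValNat 2 (S 4 m n) =
    if padicValNat 2 n % 4 = 0 then 2 else
      if padicValNat 2 n % 4 = 3 then padicValNat 2 (m + 1) + 1 else 1 := by
  have : Fact (Nat.Prime 2) := ⟨Nat.prime_two⟩
  obtain ⟨f, hf, h0⟩ := exists_f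
  obtain ⟨g, hg, hg0⟩ := exists_S (R := ℤ) (b := 4) (by norm_num) (m + 1)
  have hS := S_spec (R := ℤ) (b := 4) (by norm_num) m _ (H_mul f hf m g hg)
    (mul_zero_coeff _ _ (coeff_H0 f h0) hg0) n
  obtain ⟨c, hc⟩ : 2 ^ padicValNat 2 (m + 1) ∣ m + 1 := pow_padicValNat_dvd
  have hodd : c % 2 = 1 := by
    by_contra h
    have h3 : 2 ^ (padicValNat 2 (m + 1) + 1) ∣ m + 1 := by
      rw [pow_succ]
      conv_rhs => rw [hc]
      exact mul_dvd_mul_left _ (by omega)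
    exact pow_succ_padicValNat_not_dvd (by omega) h3
  have h2 : 2 ≤ padicValNat 2 (m + 1) := by
    rw [← padicValNat_dvd_iff_le (by omega)]
    omega
  obtain ⟨b, hb⟩ : ∃ b, padicValNat 2 (m + 1) = b + 2 := ⟨padicValNat 2 (m + 1) - 2, by omega⟩
  have ht4 : m + 1 = 4 * (2 ^ b * c) := by
    rw [hb, pow_add] at hc
    rw [hc]
    ring
  have hgn : ∀ n, 1 ≤ n → ∃ k : ℤ, coeff n g = 2 ^ (b + 3) * (c * lf n + 4 * k) := by
    intro n hn
    obtain ⟨k, hk⟩ := S_four b c n hn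
    refine ⟨k, ?_⟩
    rw [← ht4, S_spec (R := ℤ) (b := 4) (by norm_num) (m + 1) g hg hg0 n] at hk
    exact_mod_cast hk
  obtain ⟨r, hr⟩ := split _ g 2 (2 ^ (b + 3)) (coeff_H0 f h0) hg0 (even_H f hf h0)
    (fun n hn => by obtain ⟨k, hk⟩ := hgn n hn; exact ⟨_, hk⟩) n hn
  obtain ⟨k, hk⟩ := hgn n hn
  rw [hr, hk, coeff_H f n hn] at hS
  obtain ⟨⟨a0, a1, a2, a3⟩, -⟩ := valH f hf h0 n hn
  set w := coeff n f - coeff (n - 1) f with hw
  have hp : (2 : ℤ) ^ (b + 3) = 8 * 2 ^ b := by rw [pow_add]; ring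
  rw [hp] at hS
  by_cases c0 : padicValNat 2 n % 4 = 0
  · rw [if_pos c0]
    have h4 := a0 c0
    obtain ⟨y, hy⟩ : ∃ y, w = 8 * y + 4 := ⟨w / 8, by omega⟩
    apply padicValNat_of _ 2 (1 + 2 * (y + 2 ^ b * (c * lf n + 4 * k) + 2 * 2 ^ b * r))
    · rw [← Int.cast_natCast, Int.cast_id] at hS
      rw [hS, hy]; ring
    · omega
  rw [if_neg c0]
  by_cases c3 : padicValNat 2 n % 4 = 3
  · rw [if_pos c3]
    have h4 := a3 c3
    have hl : lf n = 1 ∨ lf n = -1 := by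
      unfold lf
      rw [if_neg (by omega), if_neg (by omega)]
      split_ifs
      · left; rfl
      · right; rfl
    rw [hb]
    apply padicValNat_of _ (b + 2 + 1) (c * lf n + 2 * (2 * k + r))
    · rw [← Int.cast_natCast, Int.cast_id] at hS
      rw [hS, h4, show b + 2 + 1 = b + 3 by ring, hp]; ring
    · rcases hl with h | h <;> rw [h] <;> omega
  · rw [if_neg c3]
    have h4 : w % 4 = 2 := by
      have : padicValNat 2 n % 4 = 1 ∨ padicValNat 2 n % 4 = 2 := by omega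
      rcases this with h | h
      · exact a1 h
      · exact a2 h
    obtain ⟨y, hy⟩ : ∃ y, w = 4 * y + 2 := ⟨w / 4, by omega⟩
    apply padicValNat_of _ 1 (1 + 2 * (y + 2 * 2 ^ b * (c * lf n + 4 * k) + 4 * 2 ^ b * r))
    · rw [← Int.cast_natCast, Int.cast_id] at hS
      rw [hS, hy]; ring
    · omega

/-! ### The case `m = 2` -/

/-- logarithmic coefficients modulo `8` -/
def lg (n : ℕ) : ℤ :=
  if n = 0 then 0 else if padicValNat 2 n % 2 = 0 then 2 * (n / 2 ^ padicValNat 2 n : ℕ) else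
    (n / 2 ^ padicValNat 2 n : ℕ)

/-- indicator of odd valuation -/
def io (n : ℕ) : ℤ := if n = 0 then 0 else if padicValNat 2 n % 2 = 0 then 0 else 1

/-- the non-recursive part of `lg` -/
def dg (n : ℕ) : ℤ := if n % 2 = 1 then 2 * n else if n % 4 = 2 then (n / 2 : ℕ) else 0

theorem val_four_mul (k : ℕ) (hk : k ≠ 0) : padicValNat 2 (4 * k) = 2 + padicValNat 2 k := by
  have : Fact (Nat.Prime 2) := ⟨Nat.prime_two⟩
  rw [show 4 * k = 2 ^ 2 * k by ring, padicValNat.mul (by norm_num) hk, padicValNat.prime_pow]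

theorem odd_four_mul (k : ℕ) (hk : k ≠ 0) :
    4 * k / 2 ^ padicValNat 2 (4 * k) = k / 2 ^ padicValNat 2 k := by
  rw [val_four_mul k hk, pow_add, show (4 : ℕ) * k = 2 ^ 2 * k by ring,
    Nat.mul_div_mul_left _ _ (by norm_num)]

theorem lg_mul_four (k : ℕ) : lg (4 * k) = lg k := by
  unfold lg
  by_cases hk : k = 0
  · subst hk; rfl
  · rw [if_neg hk, if_neg (by omega), odd_four_mul k hk, val_four_mul k hk]
    have h2 : (2 + padicValNat 2 k) % 2 = padicValNat 2 k % 2 := by omega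
    rw [h2]

theorem io_mul_four (k : ℕ) : io (4 * k) = io k := by
  unfold io
  by_cases hk : k = 0
  · subst hk; rfl
  · rw [if_neg hk, if_neg (by omega), val_four_mul k hk]
    have h2 : (2 + padicValNat 2 k) % 2 = padicValNat 2 k % 2 := by omega
    rw [h2]

theorem val_odd (n : ℕ) (h : n % 2 = 1) : padicValNat 2 n = 0 :=
  padicValNat.eq_zero_of_not_dvd (by omega)

theorem val_two_mod (n : ℕ) (h : n % 4 = 2) : padicValNat 2 n = 1 := by
  have : Fact (Nat.Prime 2) := ⟨Nat.prime_two⟩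
  obtain ⟨k, rfl⟩ : ∃ k, n = 2 * k := ⟨n / 2, by omega⟩
  rw [padicValNat.mul (by norm_num) (by omega), padicValNat.self (by norm_num),
    padicValNat.eq_zero_of_not_dvd (by omega)]

theorem lg_dg (n : ℕ) : lg n = dg n + if 4 ∣ n then lg (n / 4) else 0 := by
  by_cases h : 4 ∣ n
  · obtain ⟨k, rfl⟩ := h
    rw [if_pos (dvd_mul_right 4 k), lg_mul_four, Nat.mul_div_cancel_left k (by norm_num)]
    have : dg (4 * k) = 0 := by
      unfold dg
      rw [if_neg (by omega), if_neg (by omega)]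
    rw [this, zero_add]
  · rw [if_neg h, add_zero]
    have hn : n ≠ 0 := by rintro rfl; exact h (dvd_zero 4)
    by_cases h2 : n % 2 = 1
    · have hv := val_odd n h2
      unfold lg dg
      rw [if_neg hn, hv, if_pos (by norm_num), if_pos h2, pow_zero, Nat.div_one]
    · have h4 : n % 4 = 2 := by omega
      have hv := val_two_mod n h4
      unfold lg dg
      rw [if_neg hn, hv, if_neg (by norm_num), if_neg h2, if_pos h4, pow_one]

theorem io_eq (n : ℕ) : io n = (if n % 4 = 2 then 1 else 0) + if 4 ∣ n then io (n / 4) else 0 := by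
  by_cases h : 4 ∣ n
  · obtain ⟨k, rfl⟩ := h
    rw [if_pos (dvd_mul_right 4 k), io_mul_four, Nat.mul_div_cancel_left k (by norm_num),
      if_neg (by omega), zero_add]
  · rw [if_neg h, add_zero]
    have hn : n ≠ 0 := by rintro rfl; exact h (dvd_zero 4)
    by_cases h2 : n % 2 = 1
    · have hv := val_odd n h2
      unfold io
      rw [if_neg hn, hv, if_pos (by norm_num), if_neg (by omega)]
    · have h4 : n % 4 = 2 := by omega
      have hv := val_two_mod n h4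
      unfold io
      rw [if_neg hn, hv, if_neg (by norm_num), if_pos h4]

theorem lg_io (n : ℕ) : ∃ k : ℤ, lg n = io n + 2 * k := by
  have : Fact (Nat.Prime 2) := ⟨Nat.prime_two⟩
  by_cases hn : n = 0
  · subst hn; exact ⟨0, by simp [lg, io]⟩
  · have hodd : (n / 2 ^ padicValNat 2 n) % 2 = 1 := by
      by_contra h
      have h1 : 2 ^ (padicValNat 2 n + 1) ∣ n := by
        rw [pow_succ]
        obtain ⟨c, hc⟩ : 2 ^ padicValNat 2 n ∣ n := pow_padicValNat_dvd
        have h2 : n / 2 ^ padicValNat 2 n = c :=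
          Nat.div_eq_of_eq_mul_right (by positivity) hc
        rw [h2] at h
        conv_rhs => rw [hc]
        exact mul_dvd_mul_left _ (by omega)
      exact pow_succ_padicValNat_not_dvd hn h1
    unfold lg io
    rw [if_neg hn, if_neg hn]
    by_cases hv : padicValNat 2 n % 2 = 0
    · rw [if_pos hv, if_pos hv]; exact ⟨_, by ring⟩
    · rw [if_neg hv, if_neg hv]
      exact ⟨((n / 2 ^ padicValNat 2 n : ℕ) : ℤ) / 2, by omega⟩

/-- the series with coefficients `lg` -/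
noncomputable def L8 (R : Type*) [CommRing R] : PowerSeries R := mk fun n => (lg n : R)

/-- the series with coefficients `dg` -/
noncomputable def D8 (R : Type*) [CommRing R] : PowerSeries R := mk fun n => (dg n : R)

/-- the series with coefficients `io` -/
noncomputable def I8 (R : Type*) [CommRing R] : PowerSeries R := mk fun n => (io n : R)

variable (R : Type*) [CommRing R]

theorem L8_eq : L8 R = D8 R + E 4 (L8 R) := by
  ext n
  rw [map_add, coeff_E, L8, D8, coeff_mk, coeff_mk, lg_dg]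
  push_cast
  congr 1
  split_ifs
  · rw [coeff_mk]
  · simp

theorem I8_eq : I8 R = X ^ 2 * E 4 U + E 4 (I8 R) := by
  ext n
  obtain ⟨k, d, hd, rfl⟩ : ∃ k d, d < 4 ∧ n = 4 * k + d := ⟨n / 4, n % 4, by omega, by omega⟩
  rw [map_add, coeff_XE _ k d 2 hd (by norm_num), coeff_E, I8, coeff_mk, io_eq]
  push_cast
  congr 1
  · have h1 : coeff k (U : PowerSeries R) = 1 := by simp [U]
    rw [h1]
    by_cases h : d = 2
    · rw [if_pos h, if_pos (by omega)]
    · rw [if_neg h, if_neg (by omega)]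
  · split_ifs
    · rw [coeff_mk]
    · simp

theorem coeff_XU2 (k : ℕ) : coeff k (X * U ^ 2 : PowerSeries R) = k := by
  induction k with
  | zero => simp
  | succ k ih =>
    have h2 := U_mul (R := R)
    have e : (X * U ^ 2 : PowerSeries R) = X * (X * U ^ 2) + X * U := by
      linear_combination (X * U) * h2
    rw [e, map_add, coeff_succ_X_mul, coeff_succ_X_mul, ih]
    simp [U]

theorem coeff_U2 (k : ℕ) : coeff k (U ^ 2 : PowerSeries R) = (k : R) + 1 := by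
  have h := coeff_XU2 R (k + 1)
  rw [coeff_succ_X_mul] at h
  rw [h]; push_cast; ring

theorem D8_sec : D8 R = X ^ 1 * E 4 (C 8 * U ^ 2 - C 6 * U) + X ^ 2 * E 4 (C 2 * U ^ 2 - U) +
    X ^ 3 * E 4 (C 8 * U ^ 2 - C 2 * U) := by
  ext n
  obtain ⟨k, d, hd, rfl⟩ : ∃ k d, d < 4 ∧ n = 4 * k + d := ⟨n / 4, n % 4, by omega, by omega⟩
  rw [map_add, map_add, coeff_XE _ k d 1 hd (by norm_num), coeff_XE _ k d 2 hd (by norm_num),
    coeff_XE _ k d 3 hd (by norm_num), map_sub, map_sub, map_sub, coeff_C_mul, coeff_C_mul,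
    coeff_C_mul, coeff_C_mul, coeff_U2]
  have hu : coeff k (U : PowerSeries R) = 1 := by simp [U]
  rw [hu, D8, coeff_mk, dg]
  interval_cases d
  · rw [if_neg (by omega), if_neg (by omega)]; simp
  · rw [if_pos (by omega)]; push_cast; simp; ring
  · rw [if_neg (by omega), if_pos (by omega), show (4 * k + 2) / 2 = 2 * k + 1 by omega]
    push_cast; simp; ring
  · rw [if_pos (by omega)]; push_cast; simp; ring

theorem EU_mul : E 4 U * (1 - X ^ 4 : PowerSeries R) = 1 := by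
  have : (1 - X ^ 4 : PowerSeries R) = E 4 (1 - X) := by
    rw [map_sub, map_one, E_X]
  rw [this, ← map_mul, U_mul, map_one]

theorem D8_eq : D8 R * (1 - X ^ 4) ^ 2 = 2 * X * (1 + X ^ 2) ^ 3 + X ^ 2 * (1 + X ^ 4) := by
  have h1 := EU_mul R
  have h8 : (C 8 : PowerSeries R) = 8 := rfl
  have h6 : (C 6 : PowerSeries R) = 6 := rfl
  have h2 : (C 2 : PowerSeries R) = 2 := rfl
  have e8 : E 4 (8 : PowerSeries R) = 8 := map_ofNat (E 4) 8
  have e6 : E 4 (6 : PowerSeries R) = 6 := map_ofNat (E 4) 6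
  have e2 : E 4 (2 : PowerSeries R) = 2 := map_ofNat (E 4) 2
  rw [D8_sec, h8, h6, h2]
  simp only [map_sub, map_mul, map_pow, e8, e6, e2]
  generalize E 4 (U : PowerSeries R) = u at h1
  linear_combination (X * (8 * (u * (1 - X ^ 4) + 1) - 6 * (1 - X ^ 4)) +
    X ^ 2 * (2 * (u * (1 - X ^ 4) + 1) - (1 - X ^ 4)) +
    X ^ 3 * (8 * (u * (1 - X ^ 4) + 1) - 2 * (1 - X ^ 4))) * h1

theorem func32two : (1 + 4 * L8 (ZMod 32) + 8 * I8 (ZMod 32) ^ 2) =
    (U ^ 4 * (1 - X ^ 4)) ^ 2 * E 4 (1 + 4 * L8 (ZMod 32) + 8 * I8 (ZMod 32) ^ 2) := by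
  have h32 : (32 : PowerSeries (ZMod 32)) = 0 := by
    have : (32 : PowerSeries (ZMod 32)) = C 32 := rfl
    rw [this, show (32 : ZMod 32) = 0 from by decide, map_zero]
  have hL := L8_eq (ZMod 32)
  have hI := I8_eq (ZMod 32)
  have hD := D8_eq (ZMod 32)
  have hU := EU_mul (ZMod 32)
  have h16 : (16 : PowerSeries (ZMod 32)) * L8 (ZMod 32) = 16 * I8 (ZMod 32) := by
    have e16 : (16 : PowerSeries (ZMod 32)) = C 16 := rfl
    ext n
    rw [e16, coeff_C_mul, coeff_C_mul, L8, I8, coeff_mk, coeff_mk]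
    obtain ⟨k, hk⟩ := lg_io n
    rw [hk]
    push_cast
    have : (32 : ZMod 32) = 0 := by decide
    linear_combination (k : ZMod 32) * this
  set Lf := L8 (ZMod 32)
  set Df := D8 (ZMod 32)
  set If := I8 (ZMod 32)
  have h16' : (16 : PowerSeries (ZMod 32)) * E 4 Lf = 16 * E 4 If := by
    have := congrArg (E 4) h16
    rw [map_mul, map_mul] at this
    have e16 : E 4 (16 : PowerSeries (ZMod 32)) = 16 := map_ofNat (E 4) 16
    rwa [e16] at this
  have hE : E 4 (1 + 4 * Lf + 8 * If ^ 2) = 1 + 4 * E 4 Lf + 8 * (E 4 If) ^ 2 := by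
    have e4 : E 4 (4 : PowerSeries (ZMod 32)) = 4 := map_ofNat (E 4) 4
    have e8 : E 4 (8 : PowerSeries (ZMod 32)) = 8 := map_ofNat (E 4) 8
    rw [map_add, map_add, map_one, map_mul, map_mul, map_pow, e4, e8]
  rw [hE]
  generalize E 4 Lf = M at *
  generalize E 4 If = J at *
  generalize E 4 (U : PowerSeries (ZMod 32)) = u at *
  have hP : X ^ 2 * u * (1 - X ^ 4) = X ^ 2 := by rw [mul_assoc, hU, mul_one]
  have key : ((1 + 4 * Lf + 8 * If ^ 2) * (1 - X) ^ 8 -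
      (1 - X ^ 4) ^ 2 * (1 + 4 * M + 8 * J ^ 2)) * (1 - X ^ 4) ^ 2 = 0 := by
    have e1 : ((1 - X) ^ 8 * ((1 - X ^ 4) ^ 2 + 4 * (2 * X * (1 + X ^ 2) ^ 3 + X ^ 2 * (1 + X ^ 4)) +
        8 * X ^ 4) - (1 - X ^ 4) ^ 4 : PowerSeries (ZMod 32)) = 32 * ((-1) * X ^ 2 + (5) * X ^ 3 +
        (-14) * X ^ 4 + (29) * X ^ 5 + (-47) * X ^ 6 + (62) * X ^ 7 + (-68) * X ^ 8 +
        (62) * X ^ 9 + (-47) * X ^ 10 + (29) * X ^ 11 + (-14) * X ^ 12 + (5) * X ^ 13 +
        (-1) * X ^ 14) := by ring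
    have e2 : (4 * (1 - X) ^ 8 * (1 - X ^ 4) ^ 2 + 16 * X ^ 2 * (1 - X ^ 4) * (1 - X) ^ 8 -
        4 * (1 - X ^ 4) ^ 4 : PowerSeries (ZMod 32)) = 32 * ((-1) * X ^ 1 + (4) * X ^ 2 +
        (-11) * X ^ 3 + (23) * X ^ 4 + (-33) * X ^ 5 + (31) * X ^ 6 + (-11) * X ^ 7 +
        (-18) * X ^ 8 + (37) * X ^ 9 + (-38) * X ^ 10 + (23) * X ^ 11 + (-5) * X ^ 12 +
        (-3) * X ^ 13 + (3) * X ^ 14 + (-1) * X ^ 15) := by ring
    have e3 : ((1 - X) ^ 8 * (1 - X ^ 4) ^ 2 - (1 - X ^ 4) ^ 4 : PowerSeries (ZMod 32)) =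
        4 * ((-2) * X ^ 1 + (7) * X ^ 2 + (-14) * X ^ 3 + (18) * X ^ 4 + (-10) * X ^ 5 +
        (-7) * X ^ 6 + (26) * X ^ 7 + (-36) * X ^ 8 + (26) * X ^ 9 + (-7) * X ^ 10 +
        (-10) * X ^ 11 + (18) * X ^ 12 + (-14) * X ^ 13 + (7) * X ^ 14 + (-2) * X ^ 15) := by
      ring
    have e4 : ((1 + 4 * Lf + 8 * If ^ 2) * (1 - X) ^ 8 -
        (1 - X ^ 4) ^ 2 * (1 + 4 * M + 8 * J ^ 2)) * (1 - X ^ 4) ^ 2 =
        ((1 - X) ^ 8 * ((1 - X ^ 4) ^ 2 + 4 * (Df * (1 - X ^ 4) ^ 2) +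
        8 * (X ^ 2 * u * (1 - X ^ 4)) ^ 2) - (1 - X ^ 4) ^ 4) +
        M * (4 * (1 - X) ^ 8 * (1 - X ^ 4) ^ 2 - 4 * (1 - X ^ 4) ^ 4) +
        (16 * J) * (X ^ 2 * u * (1 - X ^ 4)) * (1 - X ^ 4) * (1 - X) ^ 8 +
        8 * J ^ 2 * ((1 - X) ^ 8 * (1 - X ^ 4) ^ 2 - (1 - X ^ 4) ^ 4) := by
      rw [hL, hI]; ring
    rw [e4, hD, hP, ← h16']
    have e5 : M * (4 * (1 - X) ^ 8 * (1 - X ^ 4) ^ 2 - 4 * (1 - X ^ 4) ^ 4) +
        (16 * M) * X ^ 2 * (1 - X ^ 4) * (1 - X) ^ 8 =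
        M * (4 * (1 - X) ^ 8 * (1 - X ^ 4) ^ 2 + 16 * X ^ 2 * (1 - X ^ 4) * (1 - X) ^ 8 -
        4 * (1 - X ^ 4) ^ 4) := by ring
    have e6 : (X ^ 2 : PowerSeries (ZMod 32)) ^ 2 = X ^ 4 := by ring
    rw [add_assoc ((1 - X) ^ 8 * _ - _) (M * _) _, e5, e2, e3, e6, e1, h32]
    have e7 : ∀ Y : PowerSeries (ZMod 32), 8 * J ^ 2 * (4 * Y) = 32 * (J ^ 2 * Y) := by
      intro Y; ring
    rw [e7, h32]
    ring
  have hu : IsUnit ((1 - X ^ 4 : PowerSeries (ZMod 32)) ^ 2) := isUnit_one_sub_X_pow 4 2 (by norm_num)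
  have key2 := (hu.mul_left_eq_zero).mp key
  have key3 := sub_eq_zero.mp key2
  have hU8 : (U : PowerSeries (ZMod 32)) ^ 8 * (1 - X) ^ 8 = 1 := by
    rw [← mul_pow, U_mul, one_pow]
  calc (1 + 4 * Lf + 8 * If ^ 2) = (1 + 4 * Lf + 8 * If ^ 2) * (U ^ 8 * (1 - X) ^ 8) := by
        rw [hU8, mul_one]
    _ = U ^ 8 * ((1 + 4 * Lf + 8 * If ^ 2) * (1 - X) ^ 8) := by ring
    _ = _ := by rw [key3]; ring

/-- the coefficients of the square of the indicator series -/
noncomputable def N8 (n : ℕ) : ℤ := coeff n (I8 ℤ ^ 2)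

theorem N8_cast (R : Type*) [CommRing R] (n : ℕ) : coeff n (I8 R ^ 2) = (N8 n : R) := by
  have h1 : I8 R = PowerSeries.map (Int.castRingHom R) (I8 ℤ) := by
    ext n
    rw [coeff_map, I8, I8, coeff_mk, coeff_mk]
    simp
  rw [h1, ← map_pow, coeff_map]
  rfl

theorem I8_sq : I8 ℤ ^ 2 = X ^ 0 * E 4 (X * U ^ 2 + I8 ℤ ^ 2) + X ^ 2 * E 4 (2 * U * I8 ℤ) := by
  have hI := I8_eq ℤ
  have e2 : E 4 (2 : PowerSeries ℤ) = 2 := map_ofNat (E 4) 2
  conv_lhs => rw [hI]
  simp only [map_add, map_mul, map_pow, E_X, e2]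
  ring

theorem N8_zero_of_odd (n : ℕ) (h : n % 2 = 1) : N8 n = 0 := by
  obtain ⟨k, d, hd, rfl⟩ : ∃ k d, d < 4 ∧ n = 4 * k + d := ⟨n / 4, n % 4, by omega, by omega⟩
  rw [N8, I8_sq, map_add, coeff_XE _ k d 0 hd (by norm_num), coeff_XE _ k d 2 hd (by norm_num),
    if_neg (by omega), if_neg (by omega), add_zero]

theorem N8_four (k : ℕ) : N8 (4 * k) = k + N8 k := by
  have h1 := coeff_XE (X * U ^ 2 + I8 ℤ ^ 2) k 0 0 (by norm_num) (by norm_num)
  have h2 := coeff_XE (2 * U * I8 ℤ) k 0 2 (by norm_num) (by norm_num)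
  rw [N8, I8_sq, map_add]
  rw [add_zero] at h1 h2
  rw [h1, h2, if_pos rfl, if_neg (by norm_num), add_zero, map_add, coeff_XU2]
  rfl

theorem N8_even (n : ℕ) (hn : 1 ≤ n) (hv : padicValNat 2 n % 2 = 0) (h2 : 2 ≤ padicValNat 2 n) :
    ∃ k : ℤ, N8 n = (n / 2 ^ padicValNat 2 n : ℕ) + 4 * k := by
  have : Fact (Nat.Prime 2) := ⟨Nat.prime_two⟩
  induction n using Nat.strong_induction_on with
  | _ n ih =>
    have h4 : 4 ∣ n := by
      have := (padicValNat_dvd_iff_le (p := 2) (show n ≠ 0 by omega)).mpr h2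
      simpa using this
    obtain ⟨k, rfl⟩ := h4
    have hk : k ≠ 0 := by rintro rfl; omega
    rw [N8_four, odd_four_mul k hk]
    rw [val_four_mul k hk] at hv
    by_cases hk2 : k % 2 = 1
    · rw [N8_zero_of_odd k hk2, val_odd k hk2]
      exact ⟨0, by simp⟩
    · have h3 : 2 ≤ padicValNat 2 k := by
        have h4 : padicValNat 2 k ≠ 0 := by
          intro h5
          rcases padicValNat.eq_zero_iff.mp h5 with h6 | h6 | h6
          · norm_num at h6
          · exact hk h6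
          · omega
        omega
      obtain ⟨j, hj⟩ := ih k (by omega) (by omega) (by omega) h3
      have h4 : 4 ∣ k := by
        have := (padicValNat_dvd_iff_le (p := 2) hk).mpr h3
        simpa using this
      obtain ⟨i, hi⟩ := h4
      refine ⟨i + j, ?_⟩
      rw [hj]
      have : (k : ℤ) = 4 * i := by exact_mod_cast hi
      rw [this]; ring

theorem S_two (n : ℕ) (hn : 1 ≤ n) : ∃ k : ℤ, (S 4 2 n : ℤ) = 4 * lg n + 8 * N8 n + 32 * k := by
  have e4 : (4 : PowerSeries (ZMod 32)) = C 4 := rfl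
  have e8 : (8 : PowerSeries (ZMod 32)) = C 8 := rfl
  have hc0 : coeff 0 (1 + 4 * L8 (ZMod 32) + 8 * I8 (ZMod 32) ^ 2) = 1 := by
    have h1 : constantCoeff (I8 (ZMod 32)) = 0 := by
      rw [← coeff_zero_eq_constantCoeff_apply, I8, coeff_mk]; simp [io]
    have h2 : constantCoeff (L8 (ZMod 32)) = 0 := by
      rw [← coeff_zero_eq_constantCoeff_apply, L8, coeff_mk]; simp [lg]
    rw [coeff_zero_eq_constantCoeff_apply, map_add, map_add, map_mul, map_mul, map_pow, h1, h2]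
    simp
  have h := S_spec (R := ZMod 32) (b := 4) (by norm_num) 2 _ func32two hc0 n
  rw [e4, e8, map_add, map_add, coeff_C_mul, coeff_C_mul, N8_cast, L8, coeff_mk, coeff_one,
    if_neg (by omega), zero_add] at h
  have h5 := (ZMod.intCast_eq_intCast_iff_dvd_sub (4 * lg n + 8 * N8 n) (S 4 2 n : ℤ) 32).mp (by
    push_cast; exact h.symm)
  obtain ⟨k, hk⟩ := h5
  exact ⟨k, by push_cast at hk; linarith⟩

theorem lg_odd (n : ℕ) (hn : 1 ≤ n) (hv : padicValNat 2 n % 2 = 1) : lg n % 2 = 1 := by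
  obtain ⟨k, hk⟩ := lg_io n
  rw [hk, io, if_neg (by omega), if_neg (by omega)]
  omega

theorem oddpart (n : ℕ) (hn : 1 ≤ n) : (n / 2 ^ padicValNat 2 n) % 2 = 1 := by
  have : Fact (Nat.Prime 2) := ⟨Nat.prime_two⟩
  by_contra h
  have h1 : 2 ^ (padicValNat 2 n + 1) ∣ n := by
    rw [pow_succ]
    obtain ⟨c, hc⟩ : 2 ^ padicValNat 2 n ∣ n := pow_padicValNat_dvd
    have h2 : n / 2 ^ padicValNat 2 n = c := Nat.div_eq_of_eq_mul_right (by positivity) hc
    rw [h2] at h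
    conv_rhs => rw [hc]
    exact mul_dvd_mul_left _ (by omega)
  exact pow_succ_padicValNat_not_dvd (by omega) h1

/-- `m ≡ 2 mod 8` -/
theorem val_two (m n : ℕ) (hm : m % 8 = 2) (hn : 1 ≤ n) : padicValNat 2 (S 4 m n) =
    if padicValNat 2 n = 0 then 3 else if padicValNat 2 n % 2 = 1 then 2 else 4 := by
  obtain ⟨t, rfl⟩ : ∃ t, m = 2 + 4 * (2 ^ 1 * t) := ⟨m / 8, by omega⟩
  obtain ⟨g, hg, hg0⟩ := exists_S (R := ℤ) (b := 4) (by norm_num) 2
  obtain ⟨h, hh, hh0⟩ := exists_S (R := ℤ) (b := 4) (by norm_num) (4 * (2 ^ 1 * t))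
  have hS := S_spec (R := ℤ) (b := 4) (by norm_num) _ _ (mul_S 2 (4 * (2 ^ 1 * t)) g h hg hh)
    (mul_zero_coeff _ _ hg0 hh0) n
  have hgn : ∀ n, 1 ≤ n → ∃ k : ℤ, coeff n g = 4 * lg n + 8 * N8 n + 32 * k := by
    intro n hn
    obtain ⟨k, hk⟩ := S_two n hn
    refine ⟨k, ?_⟩
    rw [S_spec (R := ℤ) (b := 4) (by norm_num) 2 g hg hg0 n] at hk
    exact_mod_cast hk
  have hhn : ∀ n, 1 ≤ n → ∃ k : ℤ, coeff n h = 16 * (t * lf n + 4 * k) := by
    intro n hn
    obtain ⟨k, hk⟩ := S_four 1 t n hn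
    refine ⟨k, ?_⟩
    rw [S_spec (R := ℤ) (b := 4) (by norm_num) _ h hh hh0 n] at hk
    norm_num at hk
    linarith
  obtain ⟨r, hr⟩ := split g h 4 16 hg0 hh0
    (fun n hn => by obtain ⟨k, hk⟩ := hgn n hn; exact ⟨lg n + 2 * N8 n + 8 * k, by rw [hk]; ring⟩)
    (fun n hn => by obtain ⟨k, hk⟩ := hhn n hn; exact ⟨_, hk⟩) n hn
  obtain ⟨k1, hk1⟩ := hgn n hn
  obtain ⟨k2, hk2⟩ := hhn n hn
  rw [hr, hk1, hk2, ← Int.cast_natCast, Int.cast_id] at hS
  have hodd := oddpart n hn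
  by_cases h0 : padicValNat 2 n = 0
  · rw [if_pos h0]
    have hn2 : n % 2 = 1 := by
      rw [h0] at hodd; simpa using hodd
    rw [N8_zero_of_odd n hn2] at hS
    have hl : lg n = 2 * n := by
      unfold lg
      rw [if_neg (by omega), h0, if_pos (by norm_num), pow_zero, Nat.div_one]
    have hl2 : lf n = 2 := by
      unfold lf
      rw [if_neg (by omega), h0, if_pos (by norm_num)]
    rw [hl, hl2] at hS
    apply padicValNat_of _ 3 (n + 4 * k1 + 4 * t + 8 * k2 + 8 * r)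
    · rw [hS]; ring
    · omega
  rw [if_neg h0]
  by_cases h1 : padicValNat 2 n % 2 = 1
  · rw [if_pos h1]
    have hl := lg_odd n hn h1
    apply padicValNat_of _ 2 (lg n + 2 * (N8 n + 4 * k1 + 2 * (t * lf n + 4 * k2) + 8 * r))
    · rw [hS]; ring
    · omega
  · rw [if_neg h1]
    obtain ⟨j, hj⟩ := N8_even n hn (by omega) (by omega)
    have hl : lg n = 2 * (n / 2 ^ padicValNat 2 n : ℕ) := by
      unfold lg
      rw [if_neg (by omega), if_pos (by omega)]
    have hl2 : lf n = 2 := by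
      unfold lf
      rw [if_neg (by omega), if_pos (by omega)]
    rw [hj, hl, hl2] at hS
    apply padicValNat_of _ 4 ((n / 2 ^ padicValNat 2 n : ℕ) +
      2 * (j + k1 + t + 2 * k2 + 2 * r))
    · rw [hS]; ring
    · omega

/-- `m ≡ 1 mod 4` -/
theorem val_one (m n : ℕ) (hm : m % 4 = 1) (hn : 1 ≤ n) : padicValNat 2 (S 4 m n) =
    if padicValNat 2 n % 4 = 0 ∨ padicValNat 2 n % 4 = 3 then 2 else 1 := by
  obtain ⟨t, ht⟩ : ∃ t, m + 1 = 2 + 4 * (2 ^ 0 * t) := ⟨m / 4, by omega⟩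
  obtain ⟨f, hf, h0⟩ := exists_f
  obtain ⟨g, hg, hg0⟩ := exists_S (R := ℤ) (b := 4) (by norm_num) 2
  obtain ⟨h, hh, hh0⟩ := exists_S (R := ℤ) (b := 4) (by norm_num) (4 * (2 ^ 0 * t))
  have hmul := mul_S 2 (4 * (2 ^ 0 * t)) g h hg hh
  rw [← ht] at hmul
  have hS := S_spec (R := ℤ) (b := 4) (by norm_num) m _ (H_mul f hf m _ hmul)
    (mul_zero_coeff _ _ (coeff_H0 f h0) (mul_zero_coeff _ _ hg0 hh0)) n
  have hgn : ∀ n, 1 ≤ n → ∃ k : ℤ, coeff n g = 4 * lg n + 8 * k := by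
    intro n hn
    obtain ⟨k, hk⟩ := S_two n hn
    refine ⟨N8 n + 4 * k, ?_⟩
    rw [S_spec (R := ℤ) (b := 4) (by norm_num) 2 g hg hg0 n] at hk
    rw [hk]; ring
  have hhn : ∀ n, 1 ≤ n → ∃ k : ℤ, coeff n h = 8 * k := by
    intro n hn
    obtain ⟨k, hk⟩ := S_four 0 t n hn
    refine ⟨t * lf n + 4 * k, ?_⟩
    rw [S_spec (R := ℤ) (b := 4) (by norm_num) _ h hh hh0 n] at hk
    norm_num at hk
    linarith
  have hgh : ∀ n, 1 ≤ n → ∃ k : ℤ, coeff n (g * h) = 4 * lg n + 8 * k := by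
    intro n hn
    obtain ⟨r, hr⟩ := split g h 4 8 hg0 hh0
      (fun n hn => by obtain ⟨k, hk⟩ := hgn n hn; exact ⟨lg n + 2 * k, by rw [hk]; ring⟩)
      (fun n hn => by obtain ⟨k, hk⟩ := hhn n hn; exact ⟨_, hk⟩) n hn
    obtain ⟨k1, hk1⟩ := hgn n hn
    obtain ⟨k2, hk2⟩ := hhn n hn
    exact ⟨k1 + k2 + 4 * r, by rw [hr, hk1, hk2]; ring⟩
  obtain ⟨r, hr⟩ := split _ (g * h) 2 4 (coeff_H0 f h0) (mul_zero_coeff _ _ hg0 hh0)
    (even_H f hf h0)
    (fun n hn => by obtain ⟨k, hk⟩ := hgh n hn; exact ⟨lg n + 2 * k, by rw [hk]; ring⟩) n hn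
  obtain ⟨k, hk⟩ := hgh n hn
  rw [hr, hk, coeff_H f n hn, ← Int.cast_natCast, Int.cast_id] at hS
  obtain ⟨⟨a0, a1, a2, a3⟩, -⟩ := valH f hf h0 n hn
  set w := coeff n f - coeff (n - 1) f with hw
  by_cases c0 : padicValNat 2 n % 4 = 0
  · rw [if_pos (Or.inl c0)]
    have h4 := a0 c0
    obtain ⟨y, hy⟩ : ∃ y, w = 8 * y + 4 := ⟨w / 8, by omega⟩
    have hl : lg n = 2 * (n / 2 ^ padicValNat 2 n : ℕ) := by
      unfold lg
      rw [if_neg (by omega), if_pos (by omega)]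
    apply padicValNat_of _ 2 (1 + 2 * (y + (n / 2 ^ padicValNat 2 n : ℕ) + k + r))
    · rw [hS, hy, hl]; ring
    · omega
  by_cases c3 : padicValNat 2 n % 4 = 3
  · rw [if_pos (Or.inr c3)]
    have h4 := a3 c3
    have hl := lg_odd n hn (by omega)
    apply padicValNat_of _ 2 (lg n + 2 * (k + r))
    · rw [hS, h4]; ring
    · omega
  · rw [if_neg (by omega)]
    have h4 : w % 4 = 2 := by
      have : padicValNat 2 n % 4 = 1 ∨ padicValNat 2 n % 4 = 2 := by omega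
      rcases this with h | h
      · exact a1 h
      · exact a2 h
    obtain ⟨y, hy⟩ : ∃ y, w = 4 * y + 2 := ⟨w / 4, by omega⟩
    apply padicValNat_of _ 1 (1 + 2 * (y + lg n + 2 * k + 2 * r))
    · rw [hS, hy]; ring
    · omega

/-- the valuation depends only on the valuation of `n`, and eventually periodically -/
theorem val_all (m : ℕ) (hm : 1 ≤ m) (h6 : m % 8 ≠ 6) : ∃ h : ℕ → ℕ,
    (∀ k, 1 ≤ k → h (k + 4) = h k) ∧ ∀ n, 1 ≤ n → padicValNat 2 (S 4 m n) = h (padicValNat 2 n) := by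
  by_cases c0 : m % 4 = 0
  · refine ⟨fun k => padicValNat 2 m + 1 + (if k % 2 = 0 then 1 else 0), ?_, ?_⟩
    · intro k _
      have : (k + 4) % 2 = k % 2 := by omega
      simp only [this]
    · intro n hn
      have h2 : 2 ≤ padicValNat 2 m := by
        have : Fact (Nat.Prime 2) := ⟨Nat.prime_two⟩
        rw [← padicValNat_dvd_iff_le (by omega)]
        omega
      exact val_S_four m n (by omega) h2 hn
  by_cases c1 : m % 4 = 1
  · refine ⟨fun k => if k % 4 = 0 ∨ k % 4 = 3 then 2 else 1, ?_, ?_⟩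
    · intro k _
      have : (k + 4) % 4 = k % 4 := by omega
      simp only [this]
    · intro n hn
      exact val_one m n c1 hn
  by_cases c2 : m % 4 = 3
  · refine ⟨fun k => if k % 4 = 0 then 2 else if k % 4 = 3 then padicValNat 2 (m + 1) + 1 else 1,
      ?_, ?_⟩
    · intro k _
      have : (k + 4) % 4 = k % 4 := by omega
      simp only [this]
    · intro n hn
      exact val_three m n c2 hn
  · refine ⟨fun k => if k = 0 then 3 else if k % 2 = 1 then 2 else 4, ?_, ?_⟩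
    · intro k hk
      have : (k + 4) % 2 = k % 2 := by omega
      change (if k + 4 = 0 then 3 else if (k + 4) % 2 = 1 then 2 else 4) =
        (if k = 0 then 3 else if k % 2 = 1 then 2 else 4)
      rw [if_neg (by omega), if_neg (show ¬ k = 0 by omega), this]
    · intro n hn
      exact val_two m n (by omega) hn

end Pool.Agent.Q35
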