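import Mathlib
import Pool.Agent.Q35.Col

/-!
The lattice `Λ` of series `g (c + v Q(2v))`, `v = x/(1-x)`, and the two section operators on it
(base 2).
-/

namespace Pool.Agent.Q35.Lam

open PowerSeries Pool.Agent.Q35 Matrix

variable {R : Type*} [CommRing R]

/-- multiplication by `y` in the basis `1, y` over polynomials in `Y` -/
noncomputable def My (R : Type*) [CommRing R] : Matrix (Fin 2) (Fin 2) (Polynomial R) :=
  !![0, 2 * Polynomial.X; 1, 2 * Polynomial.X]

/-- multiplication by `1 + 2 v` in the basis `1, v` -/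
noncomputable def Nw (R : Type*) [CommRing R] : Matrix (Fin 2) (Fin 2) (Polynomial R) :=
  !![1, Polynomial.X; 2, 1 + 2 * Polynomial.X]

/-- decomposition -/
noncomputable def dec (Q : Polynomial R) : Fin 2 → Polynomial R :=
  (Polynomial.aeval (My R) Q) *ᵥ ![1, 0]

/-- the pair `(a, b)` -/
noncomputable def ab (s : R × Polynomial R) : Fin 2 → Polynomial R :=
  ![Polynomial.C s.1 + Polynomial.X * dec s.2 1, dec s.2 0 + 2 * Polynomial.X * dec s.2 1]

/-- after multiplication by `w^m` -/
noncomputable def abm (m : ℕ) (s : R × Polynomial R) : Fin 2 → Polynomial R :=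
  (Nw R ^ m) *ᵥ ab s

/-- the section operators -/
noncomputable def T (m : ℕ) (d : Fin 2) (s : R × Polynomial R) : R × Polynomial R :=
  ((abm m s d).coeff 0, 2 * (abm m s d).divX + abm m s 1)

/-- `v = x/(1-x)` -/
noncomputable def v : PowerSeries R := X * U

/-- sections of power series -/
noncomputable def sec (d : ℕ) (F : PowerSeries R) : PowerSeries R :=
  mk fun n => coeff (2 * n + d) F

/-- the series represented by `(c, Q)` -/
noncomputable def rep (g : PowerSeries R) (s : R × Polynomial R) : PowerSeries R :=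
  g * (C s.1 + v * Polynomial.aeval (2 * v : PowerSeries R) s.2)

theorem one_add_v : (1 : PowerSeries R) + v = U := by
  have := U_mul (R := R)
  unfold v
  linear_combination -this

/-- `v = V + x (1 + V)` with `V = E v` -/
theorem v_eq : (v : PowerSeries R) = E 2 v + X * E 2 (1 + v) := by
  have h1 : (1 - X ^ 2 : PowerSeries R) * E 2 U = 1 := by
    have : (1 - X ^ 2 : PowerSeries R) = E 2 (1 - X) := by rw [map_sub, map_one, E_X]
    rw [this, ← map_mul, mul_U, map_one]
  have hU : (U : PowerSeries R) = (1 + X) * E 2 U := by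
    have h2 := U_mul (R := R)
    calc (U : PowerSeries R) = U * ((1 - X ^ 2) * E 2 U) := by rw [h1, mul_one]
      _ = (U * (1 - X)) * ((1 + X) * E 2 U) := by ring
      _ = _ := by rw [h2, one_mul]
  rw [one_add_v, v, map_mul, E_X]
  conv_lhs => rw [hU]
  ring

theorem v_sq : (v : PowerSeries R) ^ 2 = E 2 v * (1 + 2 * v) := by
  have h1 : (1 - X ^ 2 : PowerSeries R) * E 2 U = 1 := by
    have : (1 - X ^ 2 : PowerSeries R) = E 2 (1 - X) := by rw [map_sub, map_one, E_X]
    rw [this, ← map_mul, mul_U, map_one]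
  have h2 := U_mul (R := R)
  -- multiply by the unit (1-X^2)
  have h3 : (v : PowerSeries R) ^ 2 = (v ^ 2 * (1 - X ^ 2)) * E 2 U := by
    rw [mul_assoc, h1, mul_one]
  have h4 : (v : PowerSeries R) ^ 2 * (1 - X ^ 2) = X ^ 2 * (1 + 2 * v) := by
    unfold v
    have h5 : (U : PowerSeries R) = 1 + X * U := by linear_combination h2
    have h6 : ((X * U) ^ 2 * (1 - X ^ 2) : PowerSeries R) =
        X ^ 2 * (U * (1 - X)) * (U * (1 + X)) := by ring
    rw [h6, h2]
    linear_combination (X : PowerSeries R) ^ 2 * h2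
  rw [h3, h4]
  have h6 : E 2 (v : PowerSeries R) = X ^ 2 * E 2 U := by
    rw [v, map_mul, E_X]
  rw [h6]
  ring

/-- the evaluation `Φ(α, β) = α(Y) + β(Y) t` -/
noncomputable def Phi (t : PowerSeries R) (u : Fin 2 → Polynomial R) : PowerSeries R :=
  E 2 (Polynomial.aeval (2 * v : PowerSeries R) (u 0)) +
    E 2 (Polynomial.aeval (2 * v : PowerSeries R) (u 1)) * t

theorem Phi_add (t : PowerSeries R) (u w : Fin 2 → Polynomial R) :
    Phi t (u + w) = Phi t u + Phi t w := by
  simp only [Phi, Pi.add_apply, map_add]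
  ring

theorem Phi_smul (t : PowerSeries R) (p : Polynomial R) (u : Fin 2 → Polynomial R) :
    Phi t (p • u) = E 2 (Polynomial.aeval (2 * v : PowerSeries R) p) * Phi t u := by
  simp only [Phi, Pi.smul_apply, smul_eq_mul, map_mul]
  ring

theorem Phi_My (u : Fin 2 → Polynomial R) :
    Phi (2 * v) (My R *ᵥ u) = 2 * v * Phi (2 * v) u := by
  have h : (v : PowerSeries R) ^ 2 = E 2 v * (1 + 2 * v) := v_sq
  have h0 : (My R *ᵥ u) 0 = 2 * Polynomial.X * u 1 := by
    simp [My, Matrix.mulVec, dotProduct]
  have h1 : (My R *ᵥ u) 1 = u 0 + 2 * Polynomial.X * u 1 := by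
    simp [My, Matrix.mulVec, dotProduct]
  simp only [Phi, h0, h1, map_add, map_mul, Polynomial.aeval_X, map_ofNat]
  linear_combination (-4 * E 2 (Polynomial.aeval (2 * v : PowerSeries R) (u 1))) * h

theorem Phi_aeval (Q : Polynomial R) (u : Fin 2 → Polynomial R) :
    Phi (2 * v) ((Polynomial.aeval (My R) Q) *ᵥ u) =
      Polynomial.aeval (2 * v : PowerSeries R) Q * Phi (2 * v) u := by
  induction Q using Polynomial.induction_on' generalizing u with
  | add p q hp hq =>
    rw [map_add, Matrix.add_mulVec, Phi_add, hp, hq, map_add, add_mul]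
  | monomial n a =>
    induction n generalizing u with
    | zero =>
      rw [Polynomial.monomial_zero_left, Polynomial.aeval_C, Polynomial.aeval_C]
      have : (algebraMap R (Matrix (Fin 2) (Fin 2) (Polynomial R)) a) *ᵥ u =
          (Polynomial.C a) • u := by
        ext i
        simp [Matrix.algebraMap_eq_diagonal, Matrix.mulVec_diagonal, Pi.algebraMap_apply]
      rw [this, Phi_smul, Polynomial.aeval_C]
      congr 1
      have h1 : (algebraMap R (PowerSeries R)) a = C a := rfl
      rw [h1, E_C]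
    | succ n ih =>
      have h1 : (Polynomial.monomial (n + 1) a : Polynomial R) =
          Polynomial.X * Polynomial.monomial n a := by
        rw [Polynomial.X_mul_monomial]
      rw [h1, map_mul, Polynomial.aeval_X, ← Matrix.mulVec_mulVec, Phi_My, ih, map_mul,
        Polynomial.aeval_X]
      ring

theorem Phi_Nw (u : Fin 2 → Polynomial R) :
    Phi v (Nw R *ᵥ u) = (1 + 2 * v) * Phi v u := by
  have h : (v : PowerSeries R) ^ 2 = E 2 v * (1 + 2 * v) := v_sq
  have h0 : (Nw R *ᵥ u) 0 = u 0 + Polynomial.X * u 1 := by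
    simp [Nw, Matrix.mulVec, dotProduct]
  have h1 : (Nw R *ᵥ u) 1 = 2 * u 0 + (1 + 2 * Polynomial.X) * u 1 := by
    simp [Nw, Matrix.mulVec, dotProduct]
  simp only [Phi, h0, h1, map_add, map_mul, map_one, Polynomial.aeval_X, map_ofNat]
  linear_combination (-2 * E 2 (Polynomial.aeval (2 * v : PowerSeries R) (u 1))) * h

theorem Phi_Nw_pow (m : ℕ) (u : Fin 2 → Polynomial R) :
    Phi v (Nw R ^ m *ᵥ u) = (1 + 2 * v) ^ m * Phi v u := by
  induction m with
  | zero => simp
  | succ m ih =>
    rw [pow_succ', ← Matrix.mulVec_mulVec, Phi_Nw, ih, pow_succ]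
    ring

theorem Phi_ab (s : R × Polynomial R) :
    Phi v (ab s) = C s.1 + v * Polynomial.aeval (2 * v : PowerSeries R) s.2 := by
  have h : (v : PowerSeries R) ^ 2 = E 2 v * (1 + 2 * v) := v_sq
  have h1 := Phi_aeval s.2 (![1, 0] : Fin 2 → Polynomial R)
  have h2 : Phi (2 * v) (![1, 0] : Fin 2 → Polynomial R) = 1 := by
    simp [Phi]
  rw [h2, mul_one] at h1
  rw [← h1]
  change Phi v (ab s) = C s.1 + v * Phi (2 * v) (dec s.2)
  have hC : E 2 (Polynomial.aeval (2 * v : PowerSeries R) (Polynomial.C s.1)) = C s.1 := by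
    rw [Polynomial.aeval_C]
    have h1 : (algebraMap R (PowerSeries R)) s.1 = C s.1 := rfl
    rw [h1, E_C]
  simp only [Phi, ab, Matrix.cons_val_zero, Matrix.cons_val_one, map_add, map_mul, hC,
    Polynomial.aeval_X, map_ofNat]
  linear_combination (-2 * E 2 (Polynomial.aeval (2 * v : PowerSeries R) (dec s.2 1))) * h

theorem w_eq : (U ^ 2 * (1 - X ^ 2) : PowerSeries R) = 1 + 2 * v := by
  have h2 := U_mul (R := R)
  unfold v
  linear_combination (U * (1 + X) + 1) * h2

theorem sec_E_add (F G : PowerSeries R) : sec 0 (E 2 F + X * E 2 G) = F ∧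
    sec 1 (E 2 F + X * E 2 G) = G := by
  constructor
  · ext n
    rw [sec, coeff_mk, add_zero, map_add, coeff_E, if_pos (dvd_mul_right 2 n),
      Nat.mul_div_cancel_left n (by norm_num)]
    have : coeff (2 * n) (X * E 2 G) = 0 := by
      rcases Nat.eq_zero_or_pos n with rfl | hn
      · rw [mul_zero, coeff_zero_X_mul]
      · obtain ⟨k, hk⟩ : ∃ k, 2 * n = k + 1 := ⟨2 * n - 1, by omega⟩
        rw [hk, coeff_succ_X_mul, coeff_E, if_neg (by omega)]
    rw [this, add_zero]
  · ext n
    rw [sec, coeff_mk, map_add, coeff_E, if_neg (by omega), zero_add, coeff_succ_X_mul, coeff_E,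
      if_pos (dvd_mul_right 2 n), Nat.mul_div_cancel_left n (by norm_num)]

theorem aeval_divX (p : Polynomial R) : Polynomial.aeval (2 * v : PowerSeries R) p =
    C (p.coeff 0) + v * Polynomial.aeval (2 * v : PowerSeries R) (2 * p.divX) := by
  conv_lhs => rw [← Polynomial.X_mul_divX_add p]
  rw [map_add, map_mul, Polynomial.aeval_X, Polynomial.aeval_C, map_mul, map_ofNat]
  have h1 : (algebraMap R (PowerSeries R)) (p.coeff 0) = C (p.coeff 0) := rfl
  rw [h1]
  ring

/-- the sections of a represented series are represented -/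
theorem sec_rep (m : ℕ) (g : PowerSeries R) (hg : g = (U ^ 2 * (1 - X ^ 2)) ^ m * E 2 g)
    (d : Fin 2) (s : R × Polynomial R) : sec (d : ℕ) (rep g s) = rep g (T m d s) := by
  have h1 : rep g s = E 2 g * Phi v (abm m s) := by
    rw [abm, Phi_Nw_pow, Phi_ab, ← w_eq, rep]
    conv_lhs => rw [hg]
    ring
  set a := abm m s 0 with ha
  set b := abm m s 1 with hb
  set A := Polynomial.aeval (2 * v : PowerSeries R) a with hA
  set B := Polynomial.aeval (2 * v : PowerSeries R) b with hB
  have h2 : rep g s = E 2 (g * (A + B * v)) + X * E 2 (g * (B * (1 + v))) := by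
    rw [h1, Phi]
    change E 2 g * (E 2 A + E 2 B * v) = _
    have hv := v_eq (R := R)
    simp only [map_mul, map_add, map_one] at hv ⊢
    linear_combination (E 2 g * E 2 B) * hv
  obtain ⟨h3, h4⟩ := sec_E_add (g * (A + B * v)) (g * (B * (1 + v)))
  rw [← h2] at h3 h4
  have e0 : g * (A + B * v) = rep g (T m 0 s) := by
    rw [rep, T]
    simp only [map_add]
    rw [← ha, ← hb, ← hB, hA, aeval_divX a]
    ring
  have e1 : g * (B * (1 + v)) = rep g (T m 1 s) := by
    rw [rep, T]
    simp only [map_add]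
    rw [← hb, ← hB]
    have := aeval_divX b
    rw [← hB] at this
    calc g * (B * (1 + v)) = g * (B + v * B) := by ring
      _ = g * ((C (b.coeff 0) + v * Polynomial.aeval (2 * v : PowerSeries R) (2 * b.divX)) +
          v * B) := by rw [← this]
      _ = _ := by ring
  fin_cases d
  · change sec 0 (rep g s) = _
    rw [h3, e0]; rfl
  · change sec 1 (rep g s) = _
    rw [h4, e1]; rfl

theorem const_rep (g : PowerSeries R) (h0 : coeff 0 g = 1) (s : R × Polynomial R) :
    coeff 0 (rep g s) = s.1 := by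
  rw [coeff_zero_eq_constantCoeff_apply] at h0 ⊢
  rw [rep, map_mul, h0, one_mul, map_add, map_mul]
  have : constantCoeff (v : PowerSeries R) = 0 := by
    rw [v, map_mul]; simp
  rw [this]
  simp

end Pool.Agent.Q35.Lam
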