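import Mathlib
import Pool.Agent.Q35.Lam
import Pool.Agent.Q35.AutoTab

/-!
Additivity, base change and list arithmetic for the section operators `T`.
-/

namespace Pool.Agent.Q35.Lam

open PowerSeries Pool.Agent.Q35 Pool.Agent.Q35.Auto Matrix

section alg

variable {R S : Type*} [CommRing R] [CommRing S]

theorem dec_add (P Q : Polynomial R) : dec (P + Q) = dec P + dec Q := by
  rw [dec, map_add, Matrix.add_mulVec]; rfl

theorem dec_C (a : R) : dec (Polynomial.C a) = ![Polynomial.C a, 0] := by
  rw [dec, Polynomial.aeval_C]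
  ext i
  fin_cases i <;>
  simp [Matrix.algebraMap_eq_diagonal, Matrix.mulVec_diagonal, Pi.algebraMap_apply]

theorem dec_X_mul (Q : Polynomial R) : dec (Polynomial.X * Q) =
    ![2 * Polynomial.X * dec Q 1, dec Q 0 + 2 * Polynomial.X * dec Q 1] := by
  rw [dec, map_mul, Polynomial.aeval_X, ← Matrix.mulVec_mulVec]
  change My R *ᵥ dec Q = _
  ext i
  fin_cases i <;>
  simp [My, Matrix.mulVec, dotProduct]

theorem dec_map (φ : R →+* S) (Q : Polynomial R) (i : Fin 2) :
    dec (Q.map φ) i = (dec Q i).map φ := by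
  induction Q using Polynomial.induction_on' generalizing i with
  | add p q hp hq =>
    rw [Polynomial.map_add, dec_add, dec_add, Pi.add_apply, Pi.add_apply, hp, hq,
      Polynomial.map_add]
  | monomial n a =>
    induction n generalizing i with
    | zero =>
      rw [Polynomial.monomial_zero_left, Polynomial.map_C, dec_C, dec_C]
      fin_cases i <;> simp
    | succ n ih =>
      have h1 : (Polynomial.monomial (n + 1) a : Polynomial R) =
          Polynomial.X * Polynomial.monomial n a := by
        rw [Polynomial.X_mul_monomial]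
      rw [h1, Polynomial.map_mul, Polynomial.map_X, dec_X_mul, dec_X_mul]
      have i0 := ih 0
      have i1 := ih 1
      fin_cases i
      · change 2 * Polynomial.X * dec ((Polynomial.monomial n a).map φ) 1 =
          (2 * Polynomial.X * dec (Polynomial.monomial n a) 1).map φ
        rw [i1]; simp
      · change dec ((Polynomial.monomial n a).map φ) 0 +
          2 * Polynomial.X * dec ((Polynomial.monomial n a).map φ) 1 =
          (dec (Polynomial.monomial n a) 0 + 2 * Polynomial.X *
            dec (Polynomial.monomial n a) 1).map φ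
        rw [i0, i1]; simp

theorem ab_add (s t : R × Polynomial R) : ab (s + t) = ab s + ab t := by
  ext1 i
  fin_cases i
  · change Polynomial.C (s + t).1 + Polynomial.X * dec (s + t).2 1 =
      (Polynomial.C s.1 + Polynomial.X * dec s.2 1) + (Polynomial.C t.1 + Polynomial.X * dec t.2 1)
    rw [Prod.snd_add, dec_add, Pi.add_apply, Prod.fst_add, map_add]
    ring
  · change dec (s + t).2 0 + 2 * Polynomial.X * dec (s + t).2 1 =
      (dec s.2 0 + 2 * Polynomial.X * dec s.2 1) + (dec t.2 0 + 2 * Polynomial.X * dec t.2 1)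
    rw [Prod.snd_add, dec_add, Pi.add_apply, Pi.add_apply]
    ring

theorem abm_add (m : ℕ) (s t : R × Polynomial R) : abm m (s + t) = abm m s + abm m t := by
  rw [abm, ab_add, Matrix.mulVec_add]; rfl

theorem divX_add' (p q : Polynomial R) : (p + q).divX = p.divX + q.divX := by
  ext n
  simp [Polynomial.coeff_divX]

theorem T_add (m : ℕ) (d : Fin 2) (s t : R × Polynomial R) :
    T m d (s + t) = T m d s + T m d t := by
  rw [T, abm_add]
  apply Prod.ext
  · simp [T]
  · simp only [T, Pi.add_apply, divX_add', Prod.snd_add]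
    ring

/-- `T` as an additive map -/
noncomputable def TA (R : Type*) [CommRing R] (m : ℕ) (d : Fin 2) :
    R × Polynomial R →+ R × Polynomial R :=
  AddMonoidHom.mk' (T m d) (T_add m d)

/-- base change -/
noncomputable def mp (φ : R →+* S) : R × Polynomial R →+ S × Polynomial S :=
  AddMonoidHom.mk' (fun s => (φ s.1, s.2.map φ)) (by
    intro a b
    apply Prod.ext <;> simp)

theorem mp_apply (φ : R →+* S) (s : R × Polynomial R) : mp φ s = (φ s.1, s.2.map φ) := rfl

theorem ab_mp (φ : R →+* S) (s : R × Polynomial R) (i : Fin 2) :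
    ab (mp φ s) i = (ab s i).map φ := by
  rw [mp_apply]
  fin_cases i <;> simp [ab, dec_map]

theorem Nw_map (φ : R →+* S) : (Nw R).map (Polynomial.mapRingHom φ) = Nw S := by
  ext i j
  fin_cases i <;> fin_cases j <;> simp [Nw]

theorem abm_mp (m : ℕ) (φ : R →+* S) (s : R × Polynomial R) (i : Fin 2) :
    abm m (mp φ s) i = (abm m s i).map φ := by
  have h1 : abm m (mp φ s) = (Polynomial.mapRingHom φ) ∘ (abm m s) := by
    rw [abm, abm, ← Nw_map φ, ← Matrix.map_pow]
    have : ab (mp φ s) = (Polynomial.mapRingHom φ) ∘ (ab s) := by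
      ext1 j
      rw [ab_mp]; rfl
    rw [this]
    ext1 j
    rw [Function.comp_apply]
    exact (RingHom.map_mulVec (Polynomial.mapRingHom φ) (Nw R ^ m) (ab s) j).symm
  rw [h1]; rfl

theorem divX_map' (φ : R →+* S) (p : Polynomial R) : (p.map φ).divX = p.divX.map φ := by
  ext n
  simp [Polynomial.coeff_divX]

theorem T_mp (m : ℕ) (d : Fin 2) (φ : R →+* S) (s : R × Polynomial R) :
    T m d (mp φ s) = mp φ (T m d s) := by
  rw [T, abm_mp, abm_mp, divX_map', Polynomial.coeff_map, mp_apply φ (T m d s)]
  apply Prod.ext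
  · rfl
  · simp only [T, Polynomial.map_add, Polynomial.map_mul, Polynomial.map_ofNat]

/-! ### characteristic two -/

theorem dec_two (h2 : (2 : R) = 0) (Q : Polynomial R) :
    dec Q = ![Polynomial.C (Q.coeff 0), Polynomial.C (Q.coeff 1)] := by
  have h2' : (2 : Polynomial R) = 0 := by
    have : (2 : Polynomial R) = Polynomial.C 2 := rfl
    rw [this, h2, map_zero]
  have key : ∀ P : Polynomial R, dec P 0 = Polynomial.C (P.coeff 0) := by
    intro P
    conv_lhs => rw [← Polynomial.X_mul_divX_add P]
    rw [dec_add, dec_X_mul, dec_C, h2']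
    simp
  conv_lhs => rw [← Polynomial.X_mul_divX_add Q]
  rw [dec_add, dec_X_mul, dec_C, h2', key]
  ext i
  fin_cases i <;> simp

theorem Nw_two (h2 : (2 : R) = 0) (k : ℕ) : Nw R ^ (2 * k + 1) = !![1, Polynomial.X; 0, 1] := by
  have h2' : (2 : Polynomial R) = 0 := by
    have : (2 : Polynomial R) = Polynomial.C 2 := rfl
    rw [this, h2, map_zero]
  have h1 : Nw R = !![1, Polynomial.X; 0, 1] := by
    rw [Nw, h2', zero_mul, add_zero]
  have h3 : Nw R ^ 2 = 1 := by
    rw [h1, sq]
    ext i j
    fin_cases i <;> fin_cases j <;> simp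
    rw [← two_mul, h2, zero_mul]
  rw [pow_succ, pow_mul, h3, one_pow, one_mul, h1]

theorem T_two (h2 : (2 : R) = 0) (k : ℕ) (s : R × Polynomial R) :
    T (2 * k + 1) 1 s = (s.2.coeff 0, Polynomial.C (s.2.coeff 0)) ∧
    T (2 * k + 1) 0 s = (s.1, Polynomial.C (s.2.coeff 0)) := by
  have h2' : (2 : Polynomial R) = 0 := by
    have : (2 : Polynomial R) = Polynomial.C 2 := rfl
    rw [this, h2, map_zero]
  have h1 : abm (2 * k + 1) s = ![Polynomial.C s.1 + Polynomial.X *
      Polynomial.C (s.2.coeff 1) + Polynomial.X * Polynomial.C (s.2.coeff 0),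
      Polynomial.C (s.2.coeff 0)] := by
    rw [abm, Nw_two h2, ab, dec_two h2, h2']
    ext i
    fin_cases i <;> simp [Matrix.mulVec, dotProduct]
  constructor
  · rw [T, h1, h2']
    apply Prod.ext
    · simp
    · simp
  · rw [T, h1, h2']
    apply Prod.ext
    · simp
    · simp

end alg

/-! ### lists -/

/-- `a + b` modulo `N` -/
def addL (N : ℕ) (k l : List ℕ) : List ℕ := addMul N 1 k l

/-- product modulo `N` -/
def mulL (N : ℕ) : List ℕ → List ℕ → List ℕ
  | [], _ => []
  | a :: k, l => forceN (mulL N k l) fun r => addMul N a l (0 :: r)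

/-- `a :: l` except that `0 :: []` becomes `[]` -/
def consT : ℕ → List ℕ → List ℕ
  | 0, [] => []
  | b + 1, [] => [b + 1]
  | a, c :: r => a :: c :: r

/-- removes trailing zeros -/
def trim : List ℕ → List ℕ
  | [] => []
  | a :: l => consT a (trim l)

/-- the decomposition -/
def decL (N : ℕ) : List ℕ → List ℕ × List ℕ
  | [] => ([], [])
  | a :: l =>
    match decL N l with
    | (p, q) => forceN (0 :: addMul N 2 q []) fun y => (addL N [a] y, addL N p y)

/-- matrix times vector -/
def app (N : ℕ) (A : (List ℕ × List ℕ) × (List ℕ × List ℕ)) (u : List ℕ × List ℕ) :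
    List ℕ × List ℕ :=
  (trim (addL N (mulL N u.1 A.1.1) (mulL N u.2 A.2.1)),
    trim (addL N (mulL N u.1 A.1.2) (mulL N u.2 A.2.2)))

/-- the section operator on lists; `A` is the matrix of the multiplication by `w^m` -/
def TL (N : ℕ) (A : (List ℕ × List ℕ) × (List ℕ × List ℕ)) (d : Fin 2) (c : ℕ) (Q : List ℕ) :
    ℕ × List ℕ :=
  match decL N Q with
  | (p, q) =>
    match app N A (addL N [c] (0 :: q), addL N p (0 :: addMul N 2 q [])) with
    | (a, b) =>
      match d with
      | 0 => (a.headD 0, trim (addL N (addMul N 2 a.tail []) b))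
      | 1 => (b.headD 0, trim (addL N (addMul N 2 b.tail []) b))

section sem

variable {N : ℕ}

/-- the polynomial of a list -/
noncomputable def ofL (N : ℕ) : List ℕ → Polynomial (ZMod N)
  | [] => 0
  | a :: l => Polynomial.C (a : ZMod N) + Polynomial.X * ofL N l

theorem ofL_addMul (a : ℕ) : ∀ t r : List ℕ,
    ofL N (addMul N a t r) = Polynomial.C (a : ZMod N) * ofL N t + ofL N r := by
  intro t
  induction t with
  | nil => intro r; simp [addMul, ofL]
  | cons x t ih =>
    intro r
    cases r with
    | nil =>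
      simp only [addMul, force_eq, ofL, ih, ZMod.natCast_mod, Nat.cast_mul, map_mul, add_zero]
      ring
    | cons y r =>
      simp only [addMul, force_eq, ofL, ih, ZMod.natCast_mod, Nat.cast_mul, Nat.cast_add, map_add,
        map_mul]
      ring

theorem ofL_addL (k l : List ℕ) : ofL N (addL N k l) = ofL N k + ofL N l := by
  rw [addL, ofL_addMul, Nat.cast_one, map_one, one_mul]

theorem ofL_mulL (k l : List ℕ) : ofL N (mulL N k l) = ofL N k * ofL N l := by
  induction k with
  | nil => simp [mulL, ofL]
  | cons a k ih =>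
    simp only [mulL, forceN_eq, ofL_addMul, ofL, ih, Nat.cast_zero, map_zero]
    ring

theorem ofL_trim (l : List ℕ) : ofL N (trim l) = ofL N l := by
  induction l with
  | nil => rfl
  | cons a l ih =>
    rw [trim, ofL, ← ih]
    generalize trim l = t
    cases t with
    | nil =>
      cases a with
      | zero => simp [ofL, consT]
      | succ b => simp [ofL, consT]
    | cons c r => cases a <;> simp [ofL, consT]

theorem ofL_double (q : List ℕ) : ofL N (addMul N 2 q []) = 2 * ofL N q := by
  rw [ofL_addMul]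
  simp only [ofL, add_zero, Nat.cast_ofNat]
  rfl

theorem ofL_decL (l : List ℕ) : dec (ofL N l) = ![ofL N (decL N l).1, ofL N (decL N l).2] := by
  induction l with
  | nil =>
    have : (ofL N [] : Polynomial (ZMod N)) = Polynomial.C 0 := by rw [map_zero]; rfl
    rw [this, dec_C]
    ext i
    fin_cases i <;> simp [decL, ofL]
  | cons a l ih =>
    rw [ofL, dec_add, dec_C, dec_X_mul, ih]
    have hd : decL N (a :: l) = (addL N [a] (0 :: addMul N 2 (decL N l).2 []),
        addL N (decL N l).1 (0 :: addMul N 2 (decL N l).2 [])) := by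
      simp only [decL, forceN_eq]
    rw [hd]
    ext1 i
    fin_cases i
    · simp [ofL_addL, ofL, ofL_double]
      ring
    · simp [ofL_addL, ofL, ofL_double]
      ring

/-- the matrix of a pair of columns -/
noncomputable def toM (N : ℕ) (A : (List ℕ × List ℕ) × (List ℕ × List ℕ)) :
    Matrix (Fin 2) (Fin 2) (Polynomial (ZMod N)) :=
  !![ofL N A.1.1, ofL N A.2.1; ofL N A.1.2, ofL N A.2.2]

theorem app_spec (A : (List ℕ × List ℕ) × (List ℕ × List ℕ)) (u : List ℕ × List ℕ) :
    toM N A *ᵥ ![ofL N u.1, ofL N u.2] = ![ofL N (app N A u).1, ofL N (app N A u).2] := by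
  ext1 i
  fin_cases i
  · simp [toM, Matrix.mulVec, dotProduct, app, ofL_trim, ofL_addL, ofL_mulL]
    ring
  · simp [toM, Matrix.mulVec, dotProduct, app, ofL_trim, ofL_addL, ofL_mulL]
    ring

theorem comp_spec (A B C : (List ℕ × List ℕ) × (List ℕ × List ℕ))
    (h : (app N A B.1, app N A B.2) = C) : toM N A * toM N B = toM N C := by
  subst h
  have h1 := app_spec (N := N) A B.1
  have h2 := app_spec (N := N) A B.2
  ext1 i j
  have c1 := congrFun h1 i
  have c2 := congrFun h2 i
  rw [Matrix.mulVec, dotProduct, Fin.sum_univ_two] at c1 c2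
  rw [Matrix.mul_apply, Fin.sum_univ_two]
  fin_cases i <;> fin_cases j <;> simpa [toM] using (by first | exact c1 | exact c2)

/-- the pair of a list -/
noncomputable def pr (N : ℕ) (c : ℕ) (Q : List ℕ) : ZMod N × Polynomial (ZMod N) :=
  ((c : ZMod N), ofL N Q)

theorem ofL_head (a : List ℕ) : (ofL N a).coeff 0 = ((a.headD 0 : ℕ) : ZMod N) := by
  cases a with
  | nil => simp [ofL]
  | cons x a => simp [ofL]

theorem ofL_tail (a : List ℕ) : (ofL N a).divX = ofL N a.tail := by
  cases a with
  | nil => simp [ofL]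
  | cons x a =>
    rw [ofL, List.tail_cons]
    ext n
    rw [Polynomial.coeff_divX, Polynomial.coeff_add, Polynomial.coeff_C_succ, zero_add,
      Polynomial.coeff_X_mul]

theorem TL_spec (m : ℕ) (A : (List ℕ × List ℕ) × (List ℕ × List ℕ))
    (hA : toM N A = Nw (ZMod N) ^ m) (d : Fin 2) (c : ℕ) (Q : List ℕ) :
    T m d (pr N c Q) = pr N (TL N A d c Q).1 (TL N A d c Q).2 := by
  have h1 : abm m (pr N c Q) = ![ofL N (app N A (addL N [c] (0 :: (decL N Q).2),
      addL N (decL N Q).1 (0 :: addMul N 2 (decL N Q).2 []))).1,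
      ofL N (app N A (addL N [c] (0 :: (decL N Q).2),
      addL N (decL N Q).1 (0 :: addMul N 2 (decL N Q).2 []))).2] := by
    rw [abm, ← hA, ← app_spec]
    congr 1
    rw [ab]
    change ![Polynomial.C (c : ZMod N) + Polynomial.X * dec (ofL N Q) 1,
      dec (ofL N Q) 0 + 2 * Polynomial.X * dec (ofL N Q) 1] = _
    rw [ofL_decL]
    ext1 i
    fin_cases i
    · simp [ofL_addL, ofL]
    · simp [ofL_addL, ofL, ofL_double]
      ring
  rw [T, h1]
  fin_cases d
  · apply Prod.ext
    · simp [TL, pr, ofL_head]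
    · simp [TL, pr, ofL_tail, ofL_trim, ofL_addL, ofL_double]
  · apply Prod.ext
    · simp [TL, pr, ofL_head]
    · simp [TL, pr, ofL_tail, ofL_trim, ofL_addL, ofL_double]

end sem

end Pool.Agent.Q35.Lam
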