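import Mathlib
import Pool.Agent.Q35.LamList

/-!
Base 4 sections via two base 2 steps, and the sections of `g * U * A(2v)`.
-/

namespace Pool.Agent.Q35.Lam

open PowerSeries Pool.Agent.Q35 Pool.Agent.Q35.Auto Matrix

section alg

variable {R S : Type*} [CommRing R] [CommRing S]

/-- general form of the section formula -/
theorem sec_base (m : ℕ) (h : PowerSeries R) (d : Fin 2) (s : R × Polynomial R) :
    sec (d : ℕ) ((U ^ 2 * (1 - X ^ 2)) ^ m * E 2 h *
      (C s.1 + v * Polynomial.aeval (2 * v : PowerSeries R) s.2)) = rep h (T m d s) := by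
  have h1 : (U ^ 2 * (1 - X ^ 2)) ^ m * E 2 h *
      (C s.1 + v * Polynomial.aeval (2 * v : PowerSeries R) s.2) = E 2 h * Phi v (abm m s) := by
    rw [abm, Phi_Nw_pow, Phi_ab, ← w_eq]
    ring
  rw [h1]
  set a := abm m s 0 with ha
  set b := abm m s 1 with hb
  set A := Polynomial.aeval (2 * v : PowerSeries R) a with hA
  set B := Polynomial.aeval (2 * v : PowerSeries R) b with hB
  have h2 : E 2 h * Phi v (abm m s) = E 2 (h * (A + B * v)) + X * E 2 (h * (B * (1 + v))) := by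
    rw [Phi]
    change E 2 h * (E 2 A + E 2 B * v) = _
    have hv := v_eq (R := R)
    simp only [map_mul, map_add, map_one] at hv ⊢
    linear_combination (E 2 h * E 2 B) * hv
  obtain ⟨h3, h4⟩ := sec_E_add (h * (A + B * v)) (h * (B * (1 + v)))
  rw [h2]
  have e0 : h * (A + B * v) = rep h (T m 0 s) := by
    rw [rep, T]
    simp only [map_add]
    rw [← ha, ← hb, ← hB, hA, aeval_divX a]
    ring
  have e1 : h * (B * (1 + v)) = rep h (T m 1 s) := by
    rw [rep, T]
    simp only [map_add]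
    rw [← hb, ← hB]
    have := aeval_divX b
    rw [← hB] at this
    calc h * (B * (1 + v)) = h * (B + v * B) := by ring
      _ = h * ((C (b.coeff 0) + v * Polynomial.aeval (2 * v : PowerSeries R) (2 * b.divX)) +
          v * B) := by rw [← this]
      _ = _ := by ring
  fin_cases d
  · change sec 0 _ = _
    rw [h3, e0]; rfl
  · change sec 1 _ = _
    rw [h4, e1]; rfl

/-- the section operators for series `h U A(2v)` -/
noncomputable def TU (m : ℕ) (d : Fin 2) (A : Polynomial R) : Polynomial R :=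
  dec ((1 + Polynomial.X) ^ m * A) 0 + 2 * Polynomial.X * dec ((1 + Polynomial.X) ^ m * A) 1 +
    2 * ((d : ℕ) : Polynomial R) * dec ((1 + Polynomial.X) ^ m * A) 1

/-- the series `h U A(2v)` -/
noncomputable def ru (h : PowerSeries R) (A : Polynomial R) : PowerSeries R :=
  h * (U * Polynomial.aeval (2 * v : PowerSeries R) A)

theorem sec_ru (m : ℕ) (h : PowerSeries R) (d : Fin 2) (A : Polynomial R) :
    sec (d : ℕ) ((U ^ 2 * (1 - X ^ 2)) ^ m * E 2 h *
      (U * Polynomial.aeval (2 * v : PowerSeries R) A)) = ru h (TU m d A) := by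
  set a := dec ((1 + Polynomial.X) ^ m * A) 0 with ha
  set b := dec ((1 + Polynomial.X) ^ m * A) 1 with hb
  have h1 : (U ^ 2 * (1 - X ^ 2)) ^ m * Polynomial.aeval (2 * v : PowerSeries R) A =
      E 2 (Polynomial.aeval (2 * v : PowerSeries R) a) +
      E 2 (Polynomial.aeval (2 * v : PowerSeries R) b) * (2 * v) := by
    have h2 := Phi_aeval ((1 + Polynomial.X) ^ m * A) (![1, 0] : Fin 2 → Polynomial R)
    have h3 : Phi (2 * v) (![1, 0] : Fin 2 → Polynomial R) = 1 := by
      simp [Phi]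
    have h4 : Polynomial.aeval (2 * v : PowerSeries R) ((1 + Polynomial.X) ^ m * A) =
        (U ^ 2 * (1 - X ^ 2)) ^ m * Polynomial.aeval (2 * v : PowerSeries R) A := by
      rw [map_mul, map_pow, map_add, map_one, Polynomial.aeval_X, ← w_eq]
    rw [h3, mul_one, h4] at h2
    rw [← h2]
    rfl
  have hU : (U : PowerSeries R) = (1 + X) * E 2 U := by
    have h1 : (1 - X ^ 2 : PowerSeries R) * E 2 U = 1 := by
      have : (1 - X ^ 2 : PowerSeries R) = E 2 (1 - X) := by rw [map_sub, map_one, E_X]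
      rw [this, ← map_mul, mul_U, map_one]
    have h2 := U_mul (R := R)
    calc (U : PowerSeries R) = U * ((1 - X ^ 2) * E 2 U) := by rw [h1, mul_one]
      _ = (U * (1 - X)) * ((1 + X) * E 2 U) := by ring
      _ = _ := by rw [h2, one_mul]
  set Av := Polynomial.aeval (2 * v : PowerSeries R) a with hA
  set Bv := Polynomial.aeval (2 * v : PowerSeries R) b with hB
  have hXv : (X * (1 + v) : PowerSeries R) = v := by rw [one_add_v]; rfl
  have h5 : (U ^ 2 * (1 - X ^ 2)) ^ m * E 2 h * (U * Polynomial.aeval (2 * v : PowerSeries R) A) =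
      E 2 (h * (U * (Av + 2 * v * Bv + X * (1 + v) * (2 * Bv)))) +
      X * E 2 (h * (U * (Av + 2 * v * Bv + 2 * (1 + v) * Bv))) := by
    have e1 : (U ^ 2 * (1 - X ^ 2)) ^ m * E 2 h * (U * Polynomial.aeval (2 * v : PowerSeries R) A) =
        E 2 h * U * ((U ^ 2 * (1 - X ^ 2)) ^ m * Polynomial.aeval (2 * v : PowerSeries R) A) := by
      ring
    rw [e1, h1]
    have hv := v_eq (R := R)
    have e2 : E 2 (2 : PowerSeries R) = 2 := map_ofNat (E 2) 2
    simp only [map_mul, map_add, map_one, E_X, e2] at hv ⊢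
    conv_lhs => rw [hU]
    linear_combination (E 2 h * ((1 + X) * E 2 U) * E 2 Bv * 2) * hv
  rw [h5, hXv]
  obtain ⟨h3, h4⟩ := sec_E_add (h * (U * (Av + 2 * v * Bv + v * (2 * Bv))))
    (h * (U * (Av + 2 * v * Bv + 2 * (1 + v) * Bv)))
  fin_cases d
  · change sec 0 _ = _
    rw [h3, ru, TU, ← ha, ← hb]
    simp only [map_add, map_mul, Polynomial.aeval_X, map_natCast, map_ofNat]
    rw [← hA, ← hB]
    simp
    ring
  · change sec 1 _ = _
    rw [h4, ru, TU, ← ha, ← hb]
    simp only [map_add, map_mul, Polynomial.aeval_X, map_natCast, map_ofNat]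
    rw [← hA, ← hB]
    simp
    ring

/-- a section with digit `1` is of the form `h U A(2v)` -/
theorem rep_T_one (m : ℕ) (h : PowerSeries R) (s : R × Polynomial R) :
    rep h (T m 1 s) = ru h (abm m s 1) := by
  rw [rep, T, ru, ← one_add_v]
  simp only [map_add]
  have := aeval_divX (abm m s 1)
  calc _ = h * ((C ((abm m s 1).coeff 0) +
        v * Polynomial.aeval (2 * v : PowerSeries R) (2 * (abm m s 1).divX)) +
          v * Polynomial.aeval (2 * v : PowerSeries R) (abm m s 1)) := by ring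
    _ = h * (Polynomial.aeval (2 * v : PowerSeries R) (abm m s 1) +
          v * Polynomial.aeval (2 * v : PowerSeries R) (abm m s 1)) := by rw [← this]
    _ = _ := by ring

/-! ### base four -/

theorem four_eq (m : ℕ) (g : PowerSeries R) (hg : g = (U ^ 4 * (1 - X ^ 4)) ^ m * E 4 g) :
    g = (U ^ 2 * (1 - X ^ 2)) ^ (2 * m) * E 2 ((U ^ 2 * (1 - X ^ 2)) ^ m * E 2 g) := by
  have h1 : (1 - X ^ 2 : PowerSeries R) * E 2 U = 1 := by
    have : (1 - X ^ 2 : PowerSeries R) = E 2 (1 - X) := by rw [map_sub, map_one, E_X]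
    rw [this, ← map_mul, mul_U, map_one]
  have h2 : E 2 (E 2 g) = E 4 g := E_mul 2 2 g
  have h3 : E 2 (1 - X ^ 2 : PowerSeries R) = 1 - X ^ 4 := by
    rw [map_sub, map_one, map_pow, E_X]; ring
  rw [map_mul, map_pow, map_mul, h2, h3, map_pow]
  have h4 : ((U ^ 2 * (1 - X ^ 2)) ^ (2 * m) * (E 2 U ^ 2 * (1 - X ^ 4)) ^ m : PowerSeries R) =
      (U ^ 4 * (1 - X ^ 4)) ^ m := by
    rw [pow_mul, ← mul_pow]
    congr 1
    calc ((U ^ 2 * (1 - X ^ 2)) ^ 2 * (E 2 U ^ 2 * (1 - X ^ 4)) : PowerSeries R) =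
        U ^ 4 * ((1 - X ^ 2) * E 2 U) ^ 2 * (1 - X ^ 4) := by ring
      _ = _ := by rw [h1]; ring
  rw [← mul_assoc, h4]
  exact hg

theorem four_rep (m : ℕ) (g : PowerSeries R) (hg : g = (U ^ 4 * (1 - X ^ 4)) ^ m * E 4 g)
    (d0 d1 : Fin 2) (s : R × Polynomial R) :
    sec (d1 : ℕ) (sec (d0 : ℕ) (rep g s)) = rep g (T m d1 (T (2 * m) d0 s)) := by
  have h1 : rep g s = (U ^ 2 * (1 - X ^ 2)) ^ (2 * m) * E 2 ((U ^ 2 * (1 - X ^ 2)) ^ m * E 2 g) *
      (C s.1 + v * Polynomial.aeval (2 * v : PowerSeries R) s.2) := by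
    rw [rep, ← four_eq m g hg]
  rw [h1, sec_base, rep, sec_base]

theorem four_ru (m : ℕ) (g : PowerSeries R) (hg : g = (U ^ 4 * (1 - X ^ 4)) ^ m * E 4 g)
    (d0 d1 : Fin 2) (A : Polynomial R) :
    sec (d1 : ℕ) (sec (d0 : ℕ) (ru g A)) = ru g (TU m d1 (TU (2 * m) d0 A)) := by
  have h1 : ru g A = (U ^ 2 * (1 - X ^ 2)) ^ (2 * m) * E 2 ((U ^ 2 * (1 - X ^ 2)) ^ m * E 2 g) *
      (U * Polynomial.aeval (2 * v : PowerSeries R) A) := by
    rw [ru, ← four_eq m g hg]
  rw [h1, sec_ru, ru, sec_ru]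

theorem four_rep_ru (m : ℕ) (g : PowerSeries R) (hg : g = (U ^ 4 * (1 - X ^ 4)) ^ m * E 4 g)
    (s : R × Polynomial R) :
    sec 0 (sec 1 (rep g s)) = ru g (TU m 0 (abm (2 * m) s 1)) := by
  have h1 : rep g s = (U ^ 2 * (1 - X ^ 2)) ^ (2 * m) * E 2 ((U ^ 2 * (1 - X ^ 2)) ^ m * E 2 g) *
      (C s.1 + v * Polynomial.aeval (2 * v : PowerSeries R) s.2) := by
    rw [rep, ← four_eq m g hg]
  have h2 := sec_base (2 * m) ((U ^ 2 * (1 - X ^ 2)) ^ m * E 2 g) 1 s
  change sec 1 _ = _ at h2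
  rw [h1, h2, rep_T_one, ru]
  exact sec_ru m g 0 _

/-! ### properties of `TU` -/

theorem dec_C_mul (c : R) (Q : Polynomial R) (i : Fin 2) :
    dec (Polynomial.C c * Q) i = Polynomial.C c * dec Q i := by
  rw [dec, map_mul, Polynomial.aeval_C, ← Matrix.mulVec_mulVec]
  have : ∀ u : Fin 2 → Polynomial R,
      (algebraMap R (Matrix (Fin 2) (Fin 2) (Polynomial R)) c) *ᵥ u = (Polynomial.C c) • u := by
    intro u
    ext i
    simp [Matrix.algebraMap_eq_diagonal, Matrix.mulVec_diagonal, Pi.algebraMap_apply]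
  rw [this]
  rfl

theorem TU_add (m : ℕ) (d : Fin 2) (A B : Polynomial R) : TU m d (A + B) = TU m d A + TU m d B := by
  simp only [TU, mul_add, dec_add, Pi.add_apply]
  ring

theorem TU_C_mul (m : ℕ) (d : Fin 2) (c : R) (A : Polynomial R) :
    TU m d (Polynomial.C c * A) = Polynomial.C c * TU m d A := by
  have h : (1 + Polynomial.X) ^ m * (Polynomial.C c * A) =
      Polynomial.C c * ((1 + Polynomial.X) ^ m * A) := by ring
  simp only [TU, h, dec_C_mul]
  ring

theorem TU_map (φ : R →+* S) (m : ℕ) (d : Fin 2) (A : Polynomial R) :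
    TU m d (A.map φ) = (TU m d A).map φ := by
  have h : (1 + Polynomial.X) ^ m * A.map φ = ((1 + Polynomial.X) ^ m * A).map φ := by
    simp
  rw [TU, h, dec_map, dec_map, TU]
  simp only [Polynomial.map_add, Polynomial.map_mul, Polynomial.map_X,
    Polynomial.map_ofNat, Polynomial.map_natCast]

theorem dec_X_sq (P : Polynomial R) (i : Fin 2) :
    dec (Polynomial.X ^ 2 * P) i = 2 * Polynomial.X * dec ((1 + Polynomial.X) * P) i := by
  rw [sq, mul_assoc, dec_X_mul, dec_X_mul, add_mul, one_mul, dec_add, dec_X_mul]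
  fin_cases i
  · simp
  · simp
    ring

end alg

end Pool.Agent.Q35.Lam
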