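import Mathlib

/-!
The double Lambert series `Y(q) = ∑_{m,n ≥ 1} (-q)^(2mn+m) / ((1-q^(2m-1)) (1+q^n))` is odd.

Expanding the denominators, the coefficient of `q^k` is a sum over the quadruples `(A, c, b, e)`
of positive integers with `A, c` odd, `e` even, `e < c` and `A c + b e = 2k - 1`, weighted by
`(-1)^((A-1)/2 + b)`.  For `k` even this sum vanishes by elementary bijections.
-/

namespace Pool.Agent.Q35.Lam44

/-- quadruples `(A, c, b, e)` of positive integers, `A, c` odd, `e` even, `A c + b e = N` -/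
def T (N : ℕ) : Finset (ℕ × ℕ × ℕ × ℕ) :=
  ((Finset.range (N + 1)) ×ˢ (Finset.range (N + 1)) ×ˢ (Finset.range (N + 1)) ×ˢ
    (Finset.range (N + 1))).filter
    fun x => x.1 % 2 = 1 ∧ x.2.1 % 2 = 1 ∧ 1 ≤ x.2.2.1 ∧ x.2.2.2 % 2 = 0 ∧ 1 ≤ x.2.2.2 ∧
      x.1 * x.2.1 + x.2.2.1 * x.2.2.2 = N

theorem mem_T (N A c b e : ℕ) : (A, c, b, e) ∈ T N ↔
    A % 2 = 1 ∧ c % 2 = 1 ∧ 1 ≤ b ∧ e % 2 = 0 ∧ 1 ≤ e ∧ A * c + b * e = N := by
  rw [T, Finset.mem_filter]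
  constructor
  · exact fun h => h.2
  · intro h
    refine ⟨?_, h⟩
    obtain ⟨h1, h2, h3, h4, h5, h6⟩ := h
    have hA : 1 ≤ A := by omega
    have hc : 1 ≤ c := by omega
    simp only [Finset.mem_product, Finset.mem_range]
    refine ⟨?_, ?_, ?_, ?_⟩
    · have : A * 1 ≤ A * c := Nat.mul_le_mul_left A hc
      omega
    · have : 1 * c ≤ A * c := Nat.mul_le_mul_right c hA
      omega
    · have : b * 1 ≤ b * e := Nat.mul_le_mul_left b h5
      omega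
    · have : 1 * e ≤ b * e := Nat.mul_le_mul_right e h3
      omega

/-- the sign `(-1)^((A-1)/2)` for odd `A` -/
def chi (A : ℕ) : ℤ := (-1) ^ (A / 2)

theorem chi_mod (A : ℕ) : chi A = if A % 4 = 1 then 1 else if A % 4 = 3 then -1 else chi A := by
  unfold chi
  split_ifs with h1 h3
  · obtain ⟨k, hk⟩ : ∃ k, A = 4 * k + 1 := ⟨A / 4, by omega⟩
    rw [hk, show (4 * k + 1) / 2 = 2 * k by omega, pow_mul]
    simp
  · obtain ⟨k, hk⟩ : ∃ k, A = 4 * k + 3 := ⟨A / 4, by omega⟩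
    rw [hk, show (4 * k + 3) / 2 = 2 * k + 1 by omega, pow_succ, pow_mul]
    simp
  · rfl

theorem chi_neg {A c b e N : ℕ} (hA : A % 2 = 1) (hc : c % 2 = 1) (hb : b % 2 = 0)
    (he : e % 2 = 0) (h : A * c + b * e = N) (hN : N % 4 = 3) : chi A = -chi c := by
  have h1 : A % 4 = 1 ∨ A % 4 = 3 := by omega
  have h2 : c % 4 = 1 ∨ c % 4 = 3 := by omega
  obtain ⟨b', rfl⟩ : ∃ b', b = 2 * b' := ⟨b / 2, by omega⟩
  obtain ⟨e', rfl⟩ : ∃ e', e = 2 * e' := ⟨e / 2, by omega⟩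
  have h3 : (A * c) % 4 = 3 := by
    have : 2 * b' * (2 * e') = 4 * (b' * e') := by ring
    omega
  rw [Nat.mul_mod] at h3
  rw [chi_mod A, chi_mod c]
  rcases h1 with h1 | h1 <;> rcases h2 with h2 | h2 <;> rw [h1, h2] at h3 <;> norm_num at h3
  · rw [h1, h2]; norm_num
  · rw [h1, h2]; norm_num

/-- sums over the even part -/
def SE (N : ℕ) (P : ℕ → ℕ → ℕ → ℕ → Prop) [∀ A c b e, Decidable (P A c b e)] : ℤ :=
  ∑ x ∈ (T N).filter (fun x => x.2.2.1 % 2 = 0 ∧ P x.1 x.2.1 x.2.2.1 x.2.2.2), chi x.1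

theorem tau (N : ℕ) (hN : N % 4 = 3) (P : ℕ → ℕ → ℕ → ℕ → Prop)
    [∀ A c b e, Decidable (P A c b e)] : SE N P = -SE N (fun A c b e => P c A b e) := by
  unfold SE
  rw [← Finset.sum_neg_distrib]
  apply Finset.sum_nbij' (fun x => (x.2.1, x.1, x.2.2.1, x.2.2.2))
    (fun x => (x.2.1, x.1, x.2.2.1, x.2.2.2))
  · rintro ⟨A, c, b, e⟩ hx
    rw [Finset.mem_filter, mem_T] at hx ⊢
    obtain ⟨⟨h1, h2, h3, h4, h5, h6⟩, h7, h8⟩ := hx
    exact ⟨⟨h2, h1, h3, h4, h5, by rw [← h6]; simp only; ring⟩, h7, h8⟩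
  · rintro ⟨A, c, b, e⟩ hx
    rw [Finset.mem_filter, mem_T] at hx ⊢
    obtain ⟨⟨h1, h2, h3, h4, h5, h6⟩, h7, h8⟩ := hx
    exact ⟨⟨h2, h1, h3, h4, h5, by rw [← h6]; simp only; ring⟩, h7, h8⟩
  · rintro ⟨A, c, b, e⟩ _; rfl
  · rintro ⟨A, c, b, e⟩ _; rfl
  · rintro ⟨A, c, b, e⟩ hx
    rw [Finset.mem_filter, mem_T] at hx
    obtain ⟨⟨h1, h2, h3, h4, h5, h6⟩, h7, h8⟩ := hx
    exact chi_neg h1 h2 h7 h4 h6 hN

theorem swp (N : ℕ) (P : ℕ → ℕ → ℕ → ℕ → Prop)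
    [∀ A c b e, Decidable (P A c b e)] : SE N P = SE N (fun A c b e => P A c e b) := by
  unfold SE
  apply Finset.sum_nbij' (fun x => (x.1, x.2.1, x.2.2.2, x.2.2.1))
    (fun x => (x.1, x.2.1, x.2.2.2, x.2.2.1))
  · rintro ⟨A, c, b, e⟩ hx
    rw [Finset.mem_filter, mem_T] at hx ⊢
    obtain ⟨⟨h1, h2, h3, h4, h5, h6⟩, h7, h8⟩ := hx
    exact ⟨⟨h1, h2, h5, h7, h3, by rw [← h6]; simp only; ring⟩, h4, h8⟩
  · rintro ⟨A, c, b, e⟩ hx
    rw [Finset.mem_filter, mem_T] at hx ⊢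
    obtain ⟨⟨h1, h2, h3, h4, h5, h6⟩, h7, h8⟩ := hx
    exact ⟨⟨h1, h2, h5, h7, h3, by rw [← h6]; simp only; ring⟩, h4, h8⟩
  · rintro ⟨A, c, b, e⟩ _; rfl
  · rintro ⟨A, c, b, e⟩ _; rfl
  · rintro ⟨A, c, b, e⟩ _; rfl

theorem beta (N : ℕ) :
    ∑ x ∈ (T N).filter (fun x => x.2.2.1 % 2 = 1 ∧ x.2.2.2 < x.2.1), chi x.1 =
      SE N (fun A _ b _ => A < b) := by
  unfold SE
  apply Finset.sum_nbij' (fun x => (x.1, x.2.1 - x.2.2.2, x.2.2.1 + x.1, x.2.2.2))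
    (fun x => (x.1, x.2.1 + x.2.2.2, x.2.2.1 - x.1, x.2.2.2))
  · rintro ⟨A, c, b, e⟩ hx
    rw [Finset.mem_filter, mem_T] at hx ⊢
    obtain ⟨⟨h1, h2, h3, h4, h5, h6⟩, h7, h8⟩ := hx
    simp only at h7 h8 ⊢
    obtain ⟨k, rfl⟩ : ∃ k, c = e + k := ⟨c - e, by omega⟩
    refine ⟨⟨h1, by omega, by omega, h4, h5, ?_⟩, by omega, by omega⟩
    rw [Nat.add_sub_cancel_left, ← h6]; ring
  · rintro ⟨A, c, b, e⟩ hx
    rw [Finset.mem_filter, mem_T] at hx ⊢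
    obtain ⟨⟨h1, h2, h3, h4, h5, h6⟩, h7, h8⟩ := hx
    simp only at h7 h8 ⊢
    obtain ⟨k, rfl⟩ : ∃ k, b = A + k := ⟨b - A, by omega⟩
    refine ⟨⟨h1, by omega, by omega, h4, h5, ?_⟩, by omega, by omega⟩
    rw [Nat.add_sub_cancel_left, ← h6]; ring
  · rintro ⟨A, c, b, e⟩ hx
    rw [Finset.mem_filter, mem_T] at hx
    obtain ⟨-, h7, h8⟩ := hx
    simp only at h7 h8 ⊢
    rw [Nat.sub_add_cancel h8.le, Nat.add_sub_cancel]
  · rintro ⟨A, c, b, e⟩ hx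
    rw [Finset.mem_filter, mem_T] at hx
    obtain ⟨-, h7, h8⟩ := hx
    simp only at h7 h8 ⊢
    rw [Nat.sub_add_cancel h8.le, Nat.add_sub_cancel]
  · rintro ⟨A, c, b, e⟩ _; rfl

theorem SE_split (N : ℕ) (P Q : ℕ → ℕ → ℕ → ℕ → Prop) [∀ A c b e, Decidable (P A c b e)]
    [∀ A c b e, Decidable (Q A c b e)] :
    SE N P = SE N (fun A c b e => P A c b e ∧ Q A c b e) +
      SE N (fun A c b e => P A c b e ∧ ¬ Q A c b e) := by
  unfold SE
  rw [← Finset.sum_filter_add_sum_filter_not _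
    (fun x : ℕ × ℕ × ℕ × ℕ => Q x.1 x.2.1 x.2.2.1 x.2.2.2), Finset.filter_filter,
    Finset.filter_filter]
  simp only [and_assoc]

theorem SE_congr (N : ℕ) (P Q : ℕ → ℕ → ℕ → ℕ → Prop) [∀ A c b e, Decidable (P A c b e)]
    [∀ A c b e, Decidable (Q A c b e)]
    (h : ∀ A c b e, A % 2 = 1 → c % 2 = 1 → b % 2 = 0 → e % 2 = 0 → (P A c b e ↔ Q A c b e)) :
    SE N P = SE N Q := by
  unfold SE
  congr 1
  apply Finset.filter_congr
  rintro ⟨A, c, b, e⟩ hx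
  rw [mem_T] at hx
  simp only
  constructor
  · rintro ⟨h1, h2⟩
    exact ⟨h1, (h A c b e hx.1 hx.2.1 h1 hx.2.2.2.1).mp h2⟩
  · rintro ⟨h1, h2⟩
    exact ⟨h1, (h A c b e hx.1 hx.2.1 h1 hx.2.2.2.1).mpr h2⟩

theorem key (N : ℕ) (hN : N % 4 = 3) :
    SE N (fun A _ b _ => A < b) = SE N (fun _ c _ e => e < c) := by
  have h0 : SE N (fun _ _ _ _ => True) = 0 := by
    have := tau N hN (fun _ _ _ _ => True)
    linarith
  have h1 := SE_split N (fun _ _ _ _ => True) (fun A _ b _ => A < b)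
  rw [h0] at h1
  have e1 : SE N (fun A _ b _ => True ∧ A < b) = SE N (fun A _ b _ => A < b) :=
    SE_congr N _ _ (fun A c b e _ _ _ _ => by simp)
  have e2 : SE N (fun A _ b _ => True ∧ ¬ A < b) = -SE N (fun _ c b _ => b < c) := by
    have ht : SE N (fun A _ b _ => True ∧ ¬ A < b) = -SE N (fun _ c b _ => True ∧ ¬ c < b) :=
      tau N hN (fun A _ b _ => True ∧ ¬ A < b)
    have hc' : SE N (fun _ c b _ => True ∧ ¬ c < b) = SE N (fun _ c b _ => b < c) :=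
      SE_congr N _ _ (fun A c b e _ hc hb _ => by
        constructor
        · rintro ⟨-, h⟩; omega
        · intro h; exact ⟨trivial, by omega⟩)
    rw [ht, hc']
  have e3 : SE N (fun _ c b _ => b < c) = SE N (fun _ c _ e => e < c) :=
    swp N (fun _ c b _ => b < c)
  rw [e1, e2, e3] at h1
  linarith

/-- the weighted sum over the quadruples with `e < c` vanishes for `N ≡ 3 mod 4` -/
theorem main (N : ℕ) (hN : N % 4 = 3) :
    ∑ x ∈ (T N).filter (fun x => x.2.2.2 < x.2.1), chi x.1 * (-1) ^ x.2.2.1 = 0 := by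
  rw [← Finset.sum_filter_add_sum_filter_not _ (fun x : ℕ × ℕ × ℕ × ℕ => x.2.2.1 % 2 = 0),
    Finset.filter_filter, Finset.filter_filter]
  have h1 : ∑ x ∈ (T N).filter (fun x => x.2.2.2 < x.2.1 ∧ x.2.2.1 % 2 = 0),
      chi x.1 * (-1) ^ x.2.2.1 = SE N (fun _ c _ e => e < c) := by
    unfold SE
    apply Finset.sum_congr
    · apply Finset.filter_congr
      intro x _
      exact and_comm
    · rintro ⟨A, c, b, e⟩ hx
      rw [Finset.mem_filter] at hx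
      have hb : b % 2 = 0 := hx.2.1
      have : Even b := Nat.even_iff.mpr hb
      simp only
      rw [this.neg_one_pow, mul_one]
  have h2 : ∑ x ∈ (T N).filter (fun x => x.2.2.2 < x.2.1 ∧ ¬ x.2.2.1 % 2 = 0),
      chi x.1 * (-1) ^ x.2.2.1 = -SE N (fun A _ b _ => A < b) := by
    rw [← beta, ← Finset.sum_neg_distrib]
    apply Finset.sum_congr
    · apply Finset.filter_congr
      intro x _
      constructor
      · rintro ⟨h1, h2⟩; exact ⟨by omega, h1⟩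
      · rintro ⟨h1, h2⟩; exact ⟨h2, by omega⟩
    · rintro ⟨A, c, b, e⟩ hx
      rw [Finset.mem_filter] at hx
      have hb : b % 2 = 1 := hx.2.1
      have : Odd b := Nat.odd_iff.mpr hb
      simp only
      rw [this.neg_one_pow]
      ring
  rw [h1, h2, key N hN]
  ring

/-! ### the exponents -/

/-- the exponent of a term of the expanded series -/
def ex (x : (ℕ × ℕ) × (ℕ × ℕ)) : ℕ :=
  2 * (x.1.1 + 1) * (x.1.2 + 1) + (x.1.1 + 1) + (2 * x.1.1 + 1) * x.2.1 + (x.1.2 + 1) * x.2.2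

/-- the sign of a term of the expanded series -/
def cf (x : (ℕ × ℕ) × (ℕ × ℕ)) : ℤ := (-1) ^ (x.1.1 + 1 + x.2.2)

theorem le_ex (x : (ℕ × ℕ) × (ℕ × ℕ)) : (x.1.1 + x.1.2) + (x.2.1 + x.2.2) ≤ ex x := by
  obtain ⟨⟨m, n⟩, s, t⟩ := x
  simp only [ex]
  nlinarith [Nat.zero_le (m * n), Nat.zero_le (m * s), Nat.zero_le (n * t)]

/-- the fibers of `ex` -/
def fib (y : ℕ) : Finset ((ℕ × ℕ) × (ℕ × ℕ)) :=
  (((Finset.range (y + 1)) ×ˢ (Finset.range (y + 1))) ×ˢ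
    ((Finset.range (y + 1)) ×ˢ (Finset.range (y + 1)))).filter fun x => ex x = y

theorem mem_fib (y : ℕ) (x : (ℕ × ℕ) × (ℕ × ℕ)) : x ∈ fib y ↔ ex x = y := by
  rw [fib, Finset.mem_filter]
  constructor
  · exact fun h => h.2
  · intro h
    refine ⟨?_, h⟩
    have := le_ex x
    simp only [Finset.mem_product, Finset.mem_range]
    refine ⟨⟨?_, ?_⟩, ?_, ?_⟩ <;> omega

theorem fib_sum (y : ℕ) (hy : y % 2 = 0) : ∑ x ∈ fib y, cf x = 0 := by
  rcases Nat.eq_zero_or_pos y with rfl | hpos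
  · have : fib 0 = ∅ := by
      rw [Finset.eq_empty_iff_forall_notMem]
      rintro ⟨⟨m, n⟩, s, t⟩ hx
      rw [mem_fib] at hx
      simp only [ex] at hx
      omega
    rw [this, Finset.sum_empty]
  · rw [← main (2 * y - 1) (by omega)]
    apply Finset.sum_nbij' (fun x => (2 * x.1.1 + 1, 2 * x.1.2 + 2 * x.2.1 + 3, x.2.2 + 1,
        2 * x.1.2 + 2))
      (fun x => ((x.1 / 2, x.2.2.2 / 2 - 1), ((x.2.1 - x.2.2.2) / 2, x.2.2.1 - 1)))
    · rintro ⟨⟨m, n⟩, s, t⟩ hx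
      rw [mem_fib] at hx
      rw [Finset.mem_filter, mem_T]
      simp only [ex] at hx ⊢
      refine ⟨⟨by omega, by omega, by omega, by omega, by omega, ?_⟩, by omega⟩
      have : (2 * m + 1) * (2 * n + 2 * s + 3) + (t + 1) * (2 * n + 2) + 1 = 2 * y := by
        rw [← hx]; ring
      omega
    · rintro ⟨A, c, b, e⟩ hx
      rw [Finset.mem_filter, mem_T] at hx
      obtain ⟨⟨h1, h2, h3, h4, h5, h6⟩, h7⟩ := hx
      rw [mem_fib]
      simp only at h7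
      obtain ⟨m, rfl⟩ : ∃ m, A = 2 * m + 1 := ⟨A / 2, by omega⟩
      obtain ⟨n, rfl⟩ : ∃ n, e = 2 * n + 2 := ⟨e / 2 - 1, by omega⟩
      obtain ⟨s, rfl⟩ : ∃ s, c = 2 * n + 2 * s + 3 := ⟨(c - (2 * n + 2)) / 2, by omega⟩
      obtain ⟨t, rfl⟩ : ∃ t, b = t + 1 := ⟨b - 1, by omega⟩
      have e1 : (2 * m + 1) / 2 = m := by omega
      have e2 : (2 * n + 2) / 2 - 1 = n := by omega
      have e3 : (2 * n + 2 * s + 3 - (2 * n + 2)) / 2 = s := by omega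
      simp only [e1, e2, e3, Nat.add_sub_cancel, ex]
      have : (2 * m + 1) * (2 * n + 2 * s + 3) + (t + 1) * (2 * n + 2) + 1 =
          2 * (2 * (m + 1) * (n + 1) + (m + 1) + (2 * m + 1) * s + (n + 1) * t) := by ring
      omega
    · rintro ⟨⟨m, n⟩, s, t⟩ _
      simp only [Prod.mk.injEq]
      refine ⟨⟨by omega, by omega⟩, by omega, by omega⟩
    · rintro ⟨A, c, b, e⟩ hx
      rw [Finset.mem_filter, mem_T] at hx
      obtain ⟨⟨h1, h2, h3, h4, h5, h6⟩, h7⟩ := hx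
      simp only at h7
      simp only [Prod.mk.injEq]
      refine ⟨by omega, by omega, by omega, by omega⟩
    · rintro ⟨⟨m, n⟩, s, t⟩ _
      simp only [cf, chi]
      rw [show (2 * m + 1) / 2 = m by omega, ← pow_add]
      congr 1
      ring

/-! ### the analytic part -/

section analytic

variable (q : ℂ) (hq : ‖q‖ < 1)

include hq

theorem summ : Summable (fun x : (ℕ × ℕ) × (ℕ × ℕ) => ‖(cf x : ℂ) * q ^ ex x‖) := by
  have hg := summable_geometric_of_lt_one (norm_nonneg q) hq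
  have h2 : Summable (fun x : ℕ × ℕ => ‖q‖ ^ x.1 * ‖q‖ ^ x.2) :=
    hg.mul_of_nonneg hg (fun n => pow_nonneg (norm_nonneg q) n)
      (fun n => pow_nonneg (norm_nonneg q) n)
  have h4 : Summable (fun x : (ℕ × ℕ) × (ℕ × ℕ) => (‖q‖ ^ x.1.1 * ‖q‖ ^ x.1.2) *
      (‖q‖ ^ x.2.1 * ‖q‖ ^ x.2.2)) :=
    h2.mul_of_nonneg h2 (fun x => by positivity) (fun x => by positivity)
  refine Summable.of_nonneg_of_le (fun x => norm_nonneg _) (fun x => ?_) h4
  rw [norm_mul, norm_pow, ← pow_add, ← pow_add, ← pow_add]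
  have h5 : ‖((cf x : ℤ) : ℂ)‖ = 1 := by
    simp [cf]
  rw [h5, one_mul]
  exact pow_le_pow_of_le_one (norm_nonneg q) hq.le (le_ex x)

theorem inner (m n : ℕ) : ∑' y : ℕ × ℕ, (cf ((m, n), y) : ℂ) * q ^ ex ((m, n), y) =
    (-q) ^ (2 * (m + 1) * (n + 1) + (m + 1)) / ((1 + q ^ (n + 1)) * (1 - q ^ (2 * m + 1))) := by
  have ha : ‖q ^ (2 * m + 1)‖ < 1 := by
    rw [norm_pow]
    exact pow_lt_one₀ (norm_nonneg q) hq (by omega)
  have hb : ‖-q ^ (n + 1)‖ < 1 := by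
    rw [norm_neg, norm_pow]
    exact pow_lt_one₀ (norm_nonneg q) hq (by omega)
  have h1 : Summable (fun s : ℕ => ‖(q ^ (2 * m + 1)) ^ s‖) := by
    simp only [norm_pow _ _]
    exact summable_geometric_of_lt_one (by positivity) (by rwa [norm_pow] at ha)
  have h2 : Summable (fun t : ℕ => ‖(-q ^ (n + 1)) ^ t‖) := by
    have : (fun t : ℕ => ‖(-q ^ (n + 1)) ^ t‖) = fun t : ℕ => ‖-q ^ (n + 1)‖ ^ t := by
      funext t; rw [norm_pow]
    rw [this]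
    exact summable_geometric_of_lt_one (norm_nonneg _) hb
  have h3 := tsum_mul_tsum_of_summable_norm h1 h2
  rw [tsum_geometric_of_norm_lt_one ha, tsum_geometric_of_norm_lt_one hb] at h3
  have h4 : ∀ y : ℕ × ℕ, (cf ((m, n), y) : ℂ) * q ^ ex ((m, n), y) =
      (-q) ^ (2 * (m + 1) * (n + 1) + (m + 1)) *
        ((q ^ (2 * m + 1)) ^ y.1 * (-q ^ (n + 1)) ^ y.2) := by
    rintro ⟨s, t⟩
    simp only [cf, ex]
    rw [neg_pow q (2 * (m + 1) * (n + 1) + (m + 1)), neg_pow (q ^ (n + 1)) t, ← pow_mul, ← pow_mul,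
      pow_add q (2 * (m + 1) * (n + 1) + (m + 1) + (2 * m + 1) * s),
      pow_add q (2 * (m + 1) * (n + 1) + (m + 1)), pow_add (-1 : ℂ) (2 * (m + 1) * (n + 1))]
    have h5 : (-1 : ℂ) ^ (2 * (m + 1) * (n + 1)) = 1 := by
      rw [mul_assoc, pow_mul]; simp
    rw [h5]
    push_cast
    rw [pow_add (-1 : ℂ) (m + 1) t]
    ring
  simp only [h4]
  rw [tsum_mul_left, ← h3, sub_neg_eq_add]
  rw [div_eq_mul_inv, mul_inv]
  ring

theorem expand : ∑' p : ℕ × ℕ, (-q) ^ (2 * (p.1 + 1) * (p.2 + 1) + (p.1 + 1)) /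
    ((1 + q ^ (p.2 + 1)) * (1 - q ^ (2 * p.1 + 1))) =
    ∑' x : (ℕ × ℕ) × (ℕ × ℕ), (cf x : ℂ) * q ^ ex x := by
  rw [(summ q hq).of_norm.tsum_prod]
  apply tsum_congr
  rintro ⟨m, n⟩
  rw [inner q hq m n]

end analytic

/-- the frozen statement -/
theorem odd (q : ℂ) (hq : ‖q‖ < 1) :
    (∑' p : ℕ × ℕ, (-(-q)) ^ (2 * (p.1 + 1) * (p.2 + 1) + (p.1 + 1)) /
      ((1 + (-q) ^ (p.2 + 1)) * (1 - (-q) ^ (2 * p.1 + 1)))) =
    -(∑' p : ℕ × ℕ, (-q) ^ (2 * (p.1 + 1) * (p.2 + 1) + (p.1 + 1)) /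
      ((1 + q ^ (p.2 + 1)) * (1 - q ^ (2 * p.1 + 1)))) := by
  have hq' : ‖-q‖ < 1 := by rwa [norm_neg]
  rw [expand q hq, expand (-q) hq', eq_neg_iff_add_eq_zero,
    ← (summ (-q) hq').of_norm.tsum_add (summ q hq).of_norm]
  have hs := ((summ (-q) hq').of_norm.add (summ q hq).of_norm).hasSum
  have h1 := hs.tsum_fiberwise ex
  refine h1.unique ?_
  have h2 : (fun y => ∑' x : ex ⁻¹' {y}, ((cf x.1 : ℂ) * (-q) ^ ex x.1 + (cf x.1 : ℂ) * q ^ ex x.1)) =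
      fun _ => 0 := by
    funext y
    have hset : ex ⁻¹' {y} = ((fib y : Finset ((ℕ × ℕ) × (ℕ × ℕ))) : Set ((ℕ × ℕ) × (ℕ × ℕ))) := by
      ext x
      rw [Set.mem_preimage, Set.mem_singleton_iff, Finset.mem_coe, mem_fib]
    rw [tsum_congr_set_coe (fun x => (cf x : ℂ) * (-q) ^ ex x + (cf x : ℂ) * q ^ ex x) hset,
      Finset.tsum_subtype' (fib y) (fun x => (cf x : ℂ) * (-q) ^ ex x + (cf x : ℂ) * q ^ ex x)]
    rcases Nat.even_or_odd y with hy | hy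
    · have h3 : ∀ x ∈ fib y, (cf x : ℂ) * (-q) ^ ex x + (cf x : ℂ) * q ^ ex x =
          (cf x : ℂ) * (2 * q ^ y) := by
        intro x hx
        rw [mem_fib] at hx
        rw [hx, hy.neg_pow]
        ring
      rw [Finset.sum_congr rfl h3, ← Finset.sum_mul, ← Int.cast_sum,
        fib_sum y (Nat.even_iff.mp hy), Int.cast_zero, zero_mul]
    · apply Finset.sum_eq_zero
      intro x hx
      rw [mem_fib] at hx
      rw [hx, hy.neg_pow]
      ring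
  rw [h2]
  exact hasSum_zero

end Pool.Agent.Q35.Lam44
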