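import Mathlib
import Pool.Agent.Q35.Lib

/-!
Powers of the Thue-Morse product: block recursions and valuations.
-/

namespace Pool.Agent.Q35.Thue

open PowerSeries Matrix Pool.Agent.Q35

/-- integer indexed coefficients -/
noncomputable def A (f : PowerSeries ℤ) (i : ℤ) : ℤ := cz f i

/-- window of coefficients -/
noncomputable def Wv (m : ℕ) (f : PowerSeries ℤ) (i : ℤ) : Fin m → ℤ := fun j => cz f (i - (j : ℕ))

theorem cz_pow (m : ℕ) : ∀ (g : PowerSeries ℤ) (i : ℤ), cz ((1 - X) ^ m * g) i =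
    ∑ r ∈ Finset.range (m + 1), (-1) ^ r * (m.choose r : ℤ) * cz g (i - r) := by
  induction m with
  | zero => intro g i; simp
  | succ m ih =>
    intro g i
    rw [pow_succ, mul_assoc, ih ((1 - X) * g) i]
    simp only [cz_one_sub_X_mul, mul_sub]
    rw [Finset.sum_sub_distrib, Finset.sum_range_succ' _ (m + 1)]
    have h1 : ∑ r ∈ Finset.range (m + 1), (-1) ^ (r + 1) * ((m + 1).choose (r + 1) : ℤ) *
        cz g (i - ((r + 1 : ℕ) : ℤ)) = ∑ r ∈ Finset.range (m + 1),
        (-1) ^ (r + 1) * (m.choose (r + 1) : ℤ) * cz g (i - ((r + 1 : ℕ) : ℤ)) -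
        ∑ r ∈ Finset.range (m + 1), (-1) ^ r * (m.choose r : ℤ) * cz g (i - r - 1) := by
      rw [← Finset.sum_sub_distrib]
      apply Finset.sum_congr rfl
      intro r _
      have e : i - ((r + 1 : ℕ) : ℤ) = i - r - 1 := by push_cast; ring
      rw [e, Nat.choose_succ_succ]
      push_cast
      ring
    have h2 : ∑ r ∈ Finset.range (m + 1), (-1) ^ r * (m.choose r : ℤ) * cz g (i - r) =
        ∑ r ∈ Finset.range (m + 1), (-1) ^ (r + 1) * (m.choose (r + 1) : ℤ) *
          cz g (i - ((r + 1 : ℕ) : ℤ)) + (-1) ^ 0 * ((m + 1).choose 0 : ℤ) * cz g (i - (0 : ℕ)) := by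
      have h3 := Finset.sum_range_succ' (fun r : ℕ => (-1) ^ r * (m.choose r : ℤ) * cz g (i - r))
        (m + 1)
      rw [Finset.sum_range_succ] at h3
      rw [Nat.choose_succ_self] at h3
      simp only [Nat.choose_zero_right, Nat.cast_zero, mul_zero, zero_mul, add_zero] at h3 ⊢
      linarith
    rw [h1, h2]
    ring

theorem cz_E_two (g : PowerSeries ℤ) (i : ℤ) (s : ℕ) :
    cz (E 2 g) (2 * i - s) = if s % 2 = 0 then cz g (i - (s / 2 : ℕ)) else 0 := by
  split_ifs with h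
  · have : 2 * i - (s : ℤ) = ((2 : ℕ) : ℤ) * (i - ((s / 2 : ℕ) : ℤ)) := by
      push_cast
      omega
    rw [this, cz_E]
  · apply cz_E_ne
    push_cast
    omega

/-- even window matrix -/
def M0 (m : ℕ) : Matrix (Fin m) (Fin m) ℤ := fun j l =>
  if (j : ℕ) ≤ 2 * l then (-1) ^ (j : ℕ) * (m.choose (2 * l - j) : ℤ) else 0

/-- odd window matrix -/
def M1 (m : ℕ) : Matrix (Fin m) (Fin m) ℤ := fun j l =>
  if (j : ℕ) ≤ 2 * l + 1 then (-1) ^ ((j : ℕ) + 1) * (m.choose (2 * l + 1 - j) : ℤ) else 0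

theorem sum_half (m j : ℕ) (hj : j < m) (F : ℕ → ℤ) :
    ∑ r ∈ Finset.range (m + 1), (-1) ^ r * (m.choose r : ℤ) *
      (if (j + r) % 2 = 0 then F ((j + r) / 2) else 0) =
    ∑ l : Fin m, (if j ≤ 2 * (l : ℕ) then (-1) ^ j * (m.choose (2 * l - j) : ℤ) else 0) * F l := by
  rw [Fin.sum_univ_eq_sum_range (fun l => (if j ≤ 2 * l then (-1) ^ j *
    (m.choose (2 * l - j) : ℤ) else 0) * F l) m]
  have h1 : ∑ r ∈ Finset.range (m + 1), (-1) ^ r * (m.choose r : ℤ) *
      (if (j + r) % 2 = 0 then F ((j + r) / 2) else 0) =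
      ∑ r ∈ (Finset.range (m + 1)).filter (fun r => (j + r) % 2 = 0), (-1) ^ r *
        (m.choose r : ℤ) * F ((j + r) / 2) := by
    rw [Finset.sum_filter]
    apply Finset.sum_congr rfl
    intro r _
    split_ifs <;> simp
  have h2 : ∑ l ∈ Finset.range m, (if j ≤ 2 * l then (-1) ^ j *
      (m.choose (2 * l - j) : ℤ) else 0) * F l =
      ∑ l ∈ (Finset.range m).filter (fun l => j ≤ 2 * l ∧ 2 * l - j ≤ m), (-1) ^ j *
        (m.choose (2 * l - j) : ℤ) * F l := by
    rw [Finset.sum_filter]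
    apply Finset.sum_congr rfl
    intro l _
    by_cases h : j ≤ 2 * l
    · by_cases h' : 2 * l - j ≤ m
      · rw [if_pos h, if_pos ⟨h, h'⟩]
      · rw [if_pos h, if_neg (fun hh => h' hh.2), Nat.choose_eq_zero_of_lt (by omega)]
        simp
    · rw [if_neg h, if_neg (fun hh => h hh.1), zero_mul]
  rw [h1, h2]
  apply Finset.sum_nbij' (fun r => (j + r) / 2) (fun l => 2 * l - j)
  · intro r hr
    simp only [Finset.mem_filter, Finset.mem_range] at hr ⊢
    omega
  · intro l hl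
    simp only [Finset.mem_filter, Finset.mem_range] at hl ⊢
    omega
  · intro r hr
    simp only [Finset.mem_filter, Finset.mem_range] at hr
    omega
  · intro l hl
    simp only [Finset.mem_filter, Finset.mem_range] at hl
    omega
  · intro r hr
    simp only [Finset.mem_filter, Finset.mem_range] at hr
    have e : 2 * ((j + r) / 2) - j = r := by omega
    rw [e]
    have e2 : (-1 : ℤ) ^ r = (-1) ^ j := by
      rcases Nat.even_or_odd j with h | h
      · have h' : Even r := by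
          rw [Nat.even_iff] at h ⊢; omega
        rw [h.neg_one_pow, h'.neg_one_pow]
      · have h' : Odd r := by
          rw [Nat.odd_iff] at h ⊢; omega
        rw [h.neg_one_pow, h'.neg_one_pow]
    rw [e2]

theorem Wv_even (m : ℕ) (f : PowerSeries ℤ) (hf : f = (1 - X) ^ m * E 2 f) (i : ℤ) :
    Wv m f (2 * i) = M0 m *ᵥ Wv m f i := by
  funext j
  rw [Matrix.mulVec, dotProduct]
  simp only [Wv]
  conv_lhs => rw [hf, cz_pow]
  have h : ∀ r : ℕ, cz (E 2 f) (2 * i - ((j : ℕ) : ℤ) - r) =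
      if ((j : ℕ) + r) % 2 = 0 then cz f (i - (((j : ℕ) + r) / 2 : ℕ)) else 0 := by
    intro r
    rw [← cz_E_two]
    congr 1
    push_cast
    ring
  simp only [h]
  exact sum_half m j j.2 (fun l => cz f (i - (l : ℕ)))

theorem sum_half' (m j : ℕ) (hj : j < m) (F : ℕ → ℤ) (F' : ℤ) :
    ∑ r ∈ Finset.range (m + 1), (-1) ^ r * (m.choose r : ℤ) *
      (if (j + r) % 2 = 1 then F ((j + r) / 2) else if j + r = 0 then F' * 0 else 0) =
    ∑ l : Fin m, (if j ≤ 2 * (l : ℕ) + 1 then (-1) ^ (j + 1) *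
      (m.choose (2 * l + 1 - j) : ℤ) else 0) * F l := by
  rw [Fin.sum_univ_eq_sum_range (fun l => (if j ≤ 2 * l + 1 then (-1) ^ (j + 1) *
    (m.choose (2 * l + 1 - j) : ℤ) else 0) * F l) m]
  have h1 : ∑ r ∈ Finset.range (m + 1), (-1) ^ r * (m.choose r : ℤ) *
      (if (j + r) % 2 = 1 then F ((j + r) / 2) else if j + r = 0 then F' * 0 else 0) =
      ∑ r ∈ (Finset.range (m + 1)).filter (fun r => (j + r) % 2 = 1), (-1) ^ r *
        (m.choose r : ℤ) * F ((j + r) / 2) := by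
    rw [Finset.sum_filter]
    apply Finset.sum_congr rfl
    intro r _
    split_ifs <;> simp
  have h2 : ∑ l ∈ Finset.range m, (if j ≤ 2 * l + 1 then (-1) ^ (j + 1) *
      (m.choose (2 * l + 1 - j) : ℤ) else 0) * F l =
      ∑ l ∈ (Finset.range m).filter (fun l => j ≤ 2 * l + 1 ∧ 2 * l + 1 - j ≤ m), (-1) ^ (j + 1) *
        (m.choose (2 * l + 1 - j) : ℤ) * F l := by
    rw [Finset.sum_filter]
    apply Finset.sum_congr rfl
    intro l _
    by_cases h : j ≤ 2 * l + 1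
    · by_cases h' : 2 * l + 1 - j ≤ m
      · rw [if_pos h, if_pos ⟨h, h'⟩]
      · rw [if_pos h, if_neg (fun hh => h' hh.2), Nat.choose_eq_zero_of_lt (by omega)]
        simp
    · rw [if_neg h, if_neg (fun hh => h hh.1), zero_mul]
  rw [h1, h2]
  apply Finset.sum_nbij' (fun r => (j + r) / 2) (fun l => 2 * l + 1 - j)
  · intro r hr
    simp only [Finset.mem_filter, Finset.mem_range] at hr ⊢
    omega
  · intro l hl
    simp only [Finset.mem_filter, Finset.mem_range] at hl ⊢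
    omega
  · intro r hr
    simp only [Finset.mem_filter, Finset.mem_range] at hr
    omega
  · intro l hl
    simp only [Finset.mem_filter, Finset.mem_range] at hl
    omega
  · intro r hr
    simp only [Finset.mem_filter, Finset.mem_range] at hr
    have e : 2 * ((j + r) / 2) + 1 - j = r := by omega
    rw [e]
    have e2 : (-1 : ℤ) ^ r = (-1) ^ (j + 1) := by
      rcases Nat.even_or_odd r with h | h
      · have h' : Even (j + 1) := by
          rw [Nat.even_iff] at h ⊢; omega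
        rw [h.neg_one_pow, h'.neg_one_pow]
      · have h' : Odd (j + 1) := by
          rw [Nat.odd_iff] at h ⊢; omega
        rw [h.neg_one_pow, h'.neg_one_pow]
    rw [e2]

theorem Wv_odd (m : ℕ) (f : PowerSeries ℤ) (hf : f = (1 - X) ^ m * E 2 f) (i : ℤ) :
    Wv m f (2 * i + 1) = M1 m *ᵥ Wv m f i := by
  funext j
  rw [Matrix.mulVec, dotProduct]
  simp only [Wv]
  conv_lhs => rw [hf, cz_pow]
  have h : ∀ r : ℕ, cz (E 2 f) (2 * i + 1 - ((j : ℕ) : ℤ) - r) =
      if ((j : ℕ) + r) % 2 = 1 then cz f (i - (((j : ℕ) + r) / 2 : ℕ)) else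
        if (j : ℕ) + r = 0 then 0 * 0 else 0 := by
    intro r
    split_ifs with h1 h2
    · have : 2 * i + 1 - ((j : ℕ) : ℤ) - r = ((2 : ℕ) : ℤ) * (i - ((((j : ℕ) + r) / 2 : ℕ) : ℤ)) := by
        push_cast
        omega
      rw [this, cz_E]
    · rw [mul_zero]
      apply cz_E_ne
      push_cast
      omega
    · apply cz_E_ne
      push_cast
      omega
  simp only [h]
  exact sum_half' m j j.2 (fun l => cz f (i - (l : ℕ))) 0

/-- iterated odd steps -/
theorem Wv_block (m : ℕ) (f : PowerSeries ℤ) (hf : f = (1 - X) ^ m * E 2 f) (k : ℕ) (i : ℤ) :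
    Wv m f (2 ^ k * i + (2 ^ k - 1)) = (M1 m ^ k) *ᵥ Wv m f i := by
  induction k with
  | zero => simp
  | succ k ih =>
    have e : (2 : ℤ) ^ (k + 1) * i + (2 ^ (k + 1) - 1) = 2 * (2 ^ k * i + (2 ^ k - 1)) + 1 := by
      ring
    rw [e, Wv_odd m f hf, ih, Matrix.mulVec_mulVec, pow_succ']

/-- truncation matrix -/
def T (w m : ℕ) : Matrix (Fin w) (Fin m) ℤ := fun i j => if (i : ℕ) = j then 1 else 0

theorem T_apply (w m : ℕ) (hwm : w ≤ m) (v : Fin m → ℤ) (i : Fin w) :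
    (T w m *ᵥ v) i = v ⟨i, lt_of_lt_of_le i.2 hwm⟩ := by
  rw [Matrix.mulVec, dotProduct]
  simp only [T]
  rw [Finset.sum_eq_single ⟨(i : ℕ), lt_of_lt_of_le i.2 hwm⟩]
  · simp
  · intro j _ hj
    rw [if_neg, zero_mul]
    intro h
    apply hj
    ext
    exact h.symm
  · intro h
    exact absurd (Finset.mem_univ _) h

theorem mod_aux {w : ℕ} [NeZero w] (r : Fin w → ℤ) (N c : ℤ)
    (h : ∀ j, r j % N = if j = 0 then c else 0) (α : Fin w → ℤ) :
    (∑ j, r j * α j) % N = (c * α 0) % N := by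
  have h1 : ∀ j, (r j * α j) ≡ (if j = 0 then c * α 0 else 0) [ZMOD N] := by
    intro j
    have h2 : r j ≡ (if j = 0 then c else 0) [ZMOD N] := by
      have := h j
      by_cases hj : j = 0
      · rw [if_pos hj] at this ⊢
        rw [Int.ModEq, this, ← this, Int.emod_emod_of_dvd _ (dvd_refl N)]
      · rw [if_neg hj] at this ⊢
        rw [Int.ModEq, this, Int.zero_emod]
    by_cases hj : j = 0
    · subst hj
      rw [if_pos rfl] at h2 ⊢
      exact h2.mul_right _
    · rw [if_neg hj] at h2 ⊢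
      have := h2.mul_right (α j)
      rwa [zero_mul] at this
  have h3 : (∑ j, r j * α j) ≡ ∑ j : Fin w, (if j = 0 then c * α 0 else 0) [ZMOD N] := by
    apply Int.ModEq.sum
    intro j _
    exact h1 j
  rw [Finset.sum_ite_eq' Finset.univ (0 : Fin w) (fun _ => c * α 0),
    if_pos (Finset.mem_univ _)] at h3
  exact h3

/-- the valuation theorem -/
theorem main (m k a : ℕ) [NeZero (2 ^ k)] (hwm : 2 ^ k ≤ m) (f : PowerSeries ℤ)
    (hf : f = (1 - X) ^ m * E 2 f)
    (N Q R : Matrix (Fin (2 ^ k)) (Fin (2 ^ k)) ℤ) (P : Matrix (Fin (2 ^ k)) (Fin m) ℤ)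
    (hQ : T (2 ^ k) m * (M1 m ^ k * M0 m) = Q * P)
    (hN : T (2 ^ k) m * M1 m = N * T (2 ^ k) m)
    (hR : N * (N * Q) = (2 : ℤ) ^ a • (Q * R))
    (hQodd : ∀ i j, Q i j % 2 = if j = 0 then 1 else 0)
    (hR0 : ∀ j, R 0 j % 2 = if j = 0 then 1 else 0)
    (hNQ : ∀ i j, (N * Q) i j % 16 = if j = 0 then 8 else 0)
    (hodd : ∀ n : ℕ, cz f (2 ^ k * (2 * n)) % 2 = 1) (n : ℕ) :
    ∃ α : Fin (2 ^ k) → ℤ, α 0 % 2 = 1 ∧
      (padicValNat 2 (n + 1) % 2 = 0 →
        T (2 ^ k) m *ᵥ Wv m f (2 ^ k * (n : ℤ) + (2 ^ k - 1)) =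
          ((2 : ℤ) ^ a) ^ (padicValNat 2 (n + 1) / 2) • (Q *ᵥ α)) ∧
      (padicValNat 2 (n + 1) % 2 = 1 →
        T (2 ^ k) m *ᵥ Wv m f (2 ^ k * (n : ℤ) + (2 ^ k - 1)) =
          ((2 : ℤ) ^ a) ^ (padicValNat 2 (n + 1) / 2) • ((N * Q) *ᵥ α)) := by
  have : Fact (Nat.Prime 2) := ⟨Nat.prime_two⟩
  induction n using Nat.strong_induction_on with
  | _ n ih =>
    rcases Nat.even_or_odd' n with ⟨n', h | h⟩
    · -- even
      have hv : padicValNat 2 (n + 1) = 0 := by
        apply padicValNat.eq_zero_of_not_dvd; omega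
      have hU : T (2 ^ k) m *ᵥ Wv m f (2 ^ k * (n : ℤ) + (2 ^ k - 1)) =
          Q *ᵥ (P *ᵥ Wv m f (n' : ℤ)) := by
        rw [Wv_block m f hf, h]
        push_cast
        rw [Wv_even m f hf, Matrix.mulVec_mulVec, Matrix.mulVec_mulVec, Matrix.mul_assoc, hQ,
          Matrix.mulVec_mulVec]
      refine ⟨P *ᵥ Wv m f (n' : ℤ), ?_, ?_, ?_⟩
      · -- parity
        have hlt : 2 ^ k - 1 < 2 ^ k := Nat.sub_lt (Nat.pos_of_ne_zero (NeZero.ne _)) one_pos
        have h1 := congrFun hU ⟨2 ^ k - 1, hlt⟩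
        rw [T_apply _ _ hwm] at h1
        rw [Matrix.mulVec, dotProduct] at h1
        have h2 := mod_aux (fun j => Q ⟨2 ^ k - 1, hlt⟩ j) 2 1 (hQodd _) (P *ᵥ Wv m f (n' : ℤ))
        rw [← h1] at h2
        have h3 := hodd n'
        have e : (2 : ℤ) ^ k * (n : ℤ) + (2 ^ k - 1) - ((2 ^ k - 1 : ℕ) : ℤ) =
            2 ^ k * (2 * (n' : ℤ)) := by
          rw [Nat.cast_sub (Nat.pos_of_ne_zero (NeZero.ne _)), h]
          push_cast
          ring
        simp only [Wv] at h2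
        rw [e, h3, one_mul] at h2
        exact h2.symm
      · intro _
        rw [hv, Nat.zero_div, pow_zero, one_smul]
        exact hU
      · intro h0
        rw [hv] at h0
        omega
    · -- odd
      have hlt : n' < n := by omega
      obtain ⟨α, hα, h0, h1⟩ := ih n' hlt
      have hv : padicValNat 2 (n + 1) = padicValNat 2 (n' + 1) + 1 := by
        rw [show n + 1 = 2 * (n' + 1) by omega, padicValNat.mul (by norm_num) (by omega),
          padicValNat.self (by norm_num)]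
        ring
      have hU : T (2 ^ k) m *ᵥ Wv m f (2 ^ k * (n : ℤ) + (2 ^ k - 1)) =
          N *ᵥ (T (2 ^ k) m *ᵥ Wv m f (2 ^ k * (n' : ℤ) + (2 ^ k - 1))) := by
        rw [Matrix.mulVec_mulVec, ← hN, ← Matrix.mulVec_mulVec, ← Wv_odd m f hf]
        congr 2
        rw [h]
        push_cast
        ring
      rcases Nat.mod_two_eq_zero_or_one (padicValNat 2 (n' + 1)) with hp | hp
      · refine ⟨α, hα, ?_, ?_⟩
        · intro h2; omega
        · intro _
          rw [hU, h0 hp, Matrix.mulVec_smul, Matrix.mulVec_mulVec, hv]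
          congr 2
          omega
      · refine ⟨R *ᵥ α, ?_, ?_, ?_⟩
        · rw [Matrix.mulVec, dotProduct]
          have := mod_aux (fun j => R 0 j) 2 1 hR0 α
          rw [this, one_mul, hα]
        · intro _
          rw [hU, h1 hp, Matrix.mulVec_smul, Matrix.mulVec_mulVec, hR, Matrix.smul_mulVec,
            ← Matrix.mulVec_mulVec, hv, smul_smul, ← pow_succ]
          congr 2
          omega
        · intro h2; omega

/-- reading off valuations -/
theorem val (m k a : ℕ) [NeZero (2 ^ k)] (hwm : 2 ^ k ≤ m) (f : PowerSeries ℤ)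
    (hf : f = (1 - X) ^ m * E 2 f)
    (N Q R : Matrix (Fin (2 ^ k)) (Fin (2 ^ k)) ℤ) (P : Matrix (Fin (2 ^ k)) (Fin m) ℤ)
    (hQ : T (2 ^ k) m * (M1 m ^ k * M0 m) = Q * P)
    (hN : T (2 ^ k) m * M1 m = N * T (2 ^ k) m)
    (hR : N * (N * Q) = (2 : ℤ) ^ a • (Q * R))
    (hQodd : ∀ i j, Q i j % 2 = if j = 0 then 1 else 0)
    (hR0 : ∀ j, R 0 j % 2 = if j = 0 then 1 else 0)
    (hNQ : ∀ i j, (N * Q) i j % 16 = if j = 0 then 8 else 0)
    (hodd : ∀ n : ℕ, cz f (2 ^ k * (2 * n)) % 2 = 1) (n j : ℕ) (hj : j < 2 ^ k) :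
    emultiplicity 2 (coeff (2 ^ k * n + j) f) =
      ((a * (padicValNat 2 (n + 1) / 2) + 3 * (padicValNat 2 (n + 1) % 2) : ℕ) : ℕ∞) := by
  obtain ⟨α, hα, h0, h1⟩ := main m k a hwm f hf N Q R P hQ hN hR hQodd hR0 hNQ hodd n
  have hlt : 2 ^ k - 1 - j < 2 ^ k := by omega
  have hent : (T (2 ^ k) m *ᵥ Wv m f (2 ^ k * (n : ℤ) + (2 ^ k - 1))) ⟨2 ^ k - 1 - j, hlt⟩ =
      coeff (2 ^ k * n + j) f := by
    rw [T_apply _ _ hwm, ← cz_nat]
    simp only [Wv]
    congr 1
    have : ((2 ^ k - 1 - j : ℕ) : ℤ) = 2 ^ k - 1 - (j : ℤ) := by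
      rw [Nat.sub_sub, Nat.cast_sub (by omega)]
      push_cast
      ring
    rw [this]
    push_cast
    ring
  rw [← hent]
  have hpow : ∀ s : ℕ, ((2 : ℤ) ^ a) ^ s = 2 ^ (a * s) := fun s => (pow_mul 2 a s).symm
  rcases Nat.mod_two_eq_zero_or_one (padicValNat 2 (n + 1)) with hp | hp
  · rw [h0 hp, hp, mul_zero, add_zero, Pi.smul_apply, hpow, smul_eq_mul]
    have h2 := mod_aux (fun j' => Q ⟨2 ^ k - 1 - j, hlt⟩ j') 2 1 (hQodd _) α
    rw [one_mul, hα] at h2
    rw [emultiplicity_eq_coe]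
    refine ⟨dvd_mul_right _ _, ?_⟩
    rw [pow_succ]
    intro h3
    have h4 := (mul_dvd_mul_iff_left (pow_ne_zero _ (by norm_num))).mp h3
    rw [Matrix.mulVec, dotProduct] at h4
    omega
  · rw [h1 hp, hp, mul_one, Pi.smul_apply, hpow, smul_eq_mul]
    have h2 := mod_aux (fun j' => (N * Q) ⟨2 ^ k - 1 - j, hlt⟩ j') 16 8 (hNQ _) α
    rw [emultiplicity_eq_coe]
    set y := ((N * Q) *ᵥ α) ⟨2 ^ k - 1 - j, hlt⟩ with hy
    have hy2 : y % 16 = 8 * α 0 % 16 := by
      rw [hy, Matrix.mulVec, dotProduct]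
      exact h2
    refine ⟨?_, ?_⟩
    · rw [pow_add]
      apply mul_dvd_mul_left
      norm_num
      omega
    · intro h3
      rw [show a * (padicValNat 2 (n + 1) / 2) + 3 + 1 = a * (padicValNat 2 (n + 1) / 2) + 4 by ring,
        pow_add] at h3
      have h4 := (mul_dvd_mul_iff_left (pow_ne_zero _ (by norm_num))).mp h3
      norm_num at h4
      omega

end Pool.Agent.Q35.Thue
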